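import Pool.Agent.W811.Fib.SpecIn

/-!
Cyclic matrices, and energies with escaping half traces.
-/

set_option autoImplicit false

namespace Pool.Agent.W811.Fib

open Pool.Agent.Helper434.PSCplx (L2)
open ComplexConjugate

section cyc

variable {n : ℕ}

/-- the cyclic tridiagonal matrix of a cyclic word, as a linear map -/
noncomputable def cycLin (p q : ℝ) (w : Fin (n + 1) → Letter) :
    EuclideanSpace ℂ (Fin (n + 1)) →ₗ[ℂ] EuclideanSpace ℂ (Fin (n + 1)) where
  toFun f := WithLp.toLp 2 (fun i => (pc p (w i) : ℂ) * f ((finRotate (n + 1)).symm i) +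
    (pc p (w (finRotate (n + 1) i)) : ℂ) * f (finRotate (n + 1) i) + (qc q (w i) : ℂ) * f i)
  map_add' f g := by
    ext i
    simp only [PiLp.add_apply]
    ring
  map_smul' c f := by
    ext i
    simp only [PiLp.smul_apply, smul_eq_mul, RingHom.id_apply]
    ring

/-- the cyclic operator -/
noncomputable def cyc (p q : ℝ) (w : Fin (n + 1) → Letter) :
    EuclideanSpace ℂ (Fin (n + 1)) →L[ℂ] EuclideanSpace ℂ (Fin (n + 1)) :=
  LinearMap.toContinuousLinearMap (cycLin p q w)

lemma cyc_apply (p q : ℝ) (w : Fin (n + 1) → Letter) (f : EuclideanSpace ℂ (Fin (n + 1)))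
    (i : Fin (n + 1)) : cyc p q w f i = (pc p (w i) : ℂ) * f ((finRotate (n + 1)).symm i) +
    (pc p (w (finRotate (n + 1) i)) : ℂ) * f (finRotate (n + 1) i) + (qc q (w i) : ℂ) * f i := rfl

lemma cyc_sa (p q : ℝ) (w : Fin (n + 1) → Letter) : IsSelfAdjoint (cyc p q w) := by
  rw [ContinuousLinearMap.isSelfAdjoint_iff_isSymmetric]
  intro f g
  change inner ℂ (cyc p q w f) g = inner ℂ f (cyc p q w g)
  rw [PiLp.inner_apply, PiLp.inner_apply]
  simp only [cyc_apply, RCLike.inner_apply]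
  have e1 : ∀ i : Fin (n + 1), g i * conj ((pc p (w i) : ℂ) * f ((finRotate (n + 1)).symm i) +
      (pc p (w (finRotate (n + 1) i)) : ℂ) * f (finRotate (n + 1) i) + (qc q (w i) : ℂ) * f i) =
      (pc p (w i) : ℂ) * g i * conj (f ((finRotate (n + 1)).symm i)) +
      (pc p (w (finRotate (n + 1) i)) : ℂ) * g i * conj (f (finRotate (n + 1) i)) +
      (qc q (w i) : ℂ) * g i * conj (f i) := by
    intro i
    rw [map_add, map_add, map_mul, map_mul, map_mul, Complex.conj_ofReal, Complex.conj_ofReal,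
      Complex.conj_ofReal]
    ring
  have e2 : ∀ i : Fin (n + 1), ((pc p (w i) : ℂ) * g ((finRotate (n + 1)).symm i) +
      (pc p (w (finRotate (n + 1) i)) : ℂ) * g (finRotate (n + 1) i) + (qc q (w i) : ℂ) * g i) *
      conj (f i) =
      (pc p (w i) : ℂ) * g ((finRotate (n + 1)).symm i) * conj (f i) +
      (pc p (w (finRotate (n + 1) i)) : ℂ) * g (finRotate (n + 1) i) * conj (f i) +
      (qc q (w i) : ℂ) * g i * conj (f i) := by
    intro i
    ring
  rw [Finset.sum_congr rfl (fun i _ => e1 i), Finset.sum_congr rfl (fun i _ => e2 i)]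
  rw [Finset.sum_add_distrib, Finset.sum_add_distrib, Finset.sum_add_distrib,
    Finset.sum_add_distrib]
  have s1 : ∑ i : Fin (n + 1), (pc p (w i) : ℂ) * g i * conj (f ((finRotate (n + 1)).symm i)) =
      ∑ i : Fin (n + 1), (pc p (w (finRotate (n + 1) i)) : ℂ) * g (finRotate (n + 1) i) *
        conj (f i) := by
    rw [← Equiv.sum_comp (finRotate (n + 1)) (fun i => (pc p (w i) : ℂ) * g i *
      conj (f ((finRotate (n + 1)).symm i)))]
    apply Finset.sum_congr rfl
    intro i _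
    rw [Equiv.symm_apply_apply]
  have s2 : ∑ i : Fin (n + 1), (pc p (w i) : ℂ) * g ((finRotate (n + 1)).symm i) * conj (f i) =
      ∑ i : Fin (n + 1), (pc p (w (finRotate (n + 1) i)) : ℂ) * g i *
        conj (f (finRotate (n + 1) i)) := by
    rw [← Equiv.sum_comp (finRotate (n + 1)) (fun i => (pc p (w i) : ℂ) *
      g ((finRotate (n + 1)).symm i) * conj (f i))]
    apply Finset.sum_congr rfl
    intro i _
    rw [Equiv.symm_apply_apply]
  rw [s1, s2]
  ring

/-- an eigenvalue of the cyclic matrix has a periodic solution, so the trace is `2` -/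
lemma cyc_trace {p q E : ℝ} (hp : p ≠ 0) {W : List Letter} (hW : W.length = n + 1)
    {g : EuclideanSpace ℂ (Fin (n + 1))} (hg : g ≠ 0)
    (h : cyc p q (fun i => W[(i : ℕ)]'(by rw [hW]; exact i.2)) g = (E : ℂ) • g) :
    (M p q E W).trace = 2 := by
  set w : Fin (n + 1) → Letter := fun i => W[(i : ℕ)]'(by rw [hW]; exact i.2) with hw
  -- the iterates of the rotation
  set it : ℕ → Fin (n + 1) := fun k => (finRotate (n + 1))^[k] 0 with hit
  have it_succ : ∀ k, it (k + 1) = finRotate (n + 1) (it k) := fun k =>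
    Function.iterate_succ_apply' _ _ _
  have it_val : ∀ k, k < n + 1 → ((it k : Fin (n + 1)) : ℕ) = k := by
    intro k
    induction k with
    | zero => intro _; rfl
    | succ k ih =>
      intro hk
      have := ih (by omega)
      rw [it_succ, coe_finRotate, if_neg, this]
      intro hc
      have : ((it k : Fin (n + 1)) : ℕ) = n := by rw [hc]; rfl
      omega
  have it_last : it (n + 1) = 0 := by
    rw [it_succ]
    apply Fin.ext
    have : it n = Fin.last n := by
      apply Fin.ext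
      rw [it_val n (by omega)]; rfl
    rw [coe_finRotate, if_pos this]; rfl
  set c : ℕ → Letter := fun k => w (it k) with hc
  have occ : Occ c W 0 := by
    intro t ht
    rw [zero_add]
    simp only [hc, hw]
    congr 1
    exact it_val t (by rw [← hW]; exact ht)
  obtain ⟨G, hG⟩ : ∃ G : ℕ → ℂ, ∀ k, G k = g (it k) := ⟨_, fun _ => rfl⟩
  obtain ⟨G', hG'⟩ : ∃ G' : ℕ → ℂ, ∀ k, G' k = g ((finRotate (n + 1)).symm (it k)) :=
    ⟨_, fun _ => rfl⟩
  have hGG : ∀ k, G' (k + 1) = G k := by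
    intro k
    rw [hG', it_succ, Equiv.symm_apply_apply, hG]
  have hrec : ∀ k, (pc p (c k) : ℂ) * G' k + (pc p (c (k + 1)) : ℂ) * G (k + 1) +
      (qc q (c k) : ℂ) * G k = (E : ℂ) * G k := by
    intro k
    have h1 := congrArg (fun f : EuclideanSpace ℂ (Fin (n + 1)) => f (it k)) h
    simp only [cyc_apply, PiLp.smul_apply, smul_eq_mul] at h1
    rw [← it_succ, ← hG, ← hG, ← hG'] at h1
    exact h1
  set Ψ : ℕ → (Fin 2 → ℂ) := fun k => ![(pc p (c k) : ℂ) * G k, G' k] with hΨ
  have hstep : ∀ k, Ψ (k + 1) = (TC p q E (c k)).mulVec (Ψ k) := by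
    intro k
    have h1 := hrec k
    have h2 := hGG k
    have hpc : ((pc p (c k) : ℝ) : ℂ) ≠ 0 := by exact_mod_cast pc_ne hp (c k)
    ext j
    fin_cases j
    · simp only [hΨ, TC, T, Matrix.mulVec, dotProduct, Fin.sum_univ_two]
      simp
      have : ((E : ℂ) - (qc q (c k) : ℂ)) / (pc p (c k) : ℂ) *
          ((pc p (c k) : ℂ) * G k) = ((E : ℂ) - (qc q (c k) : ℂ)) * G k := by
        field_simp
      rw [this]
      linear_combination h1
    · simp only [hΨ, TC, T, Matrix.mulVec, dotProduct, Fin.sum_univ_two]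
      simp
      rw [h2]
      field_simp
  have hsol : ∀ k, Ψ k = sol p q E c (Ψ 0) k := by
    intro k
    induction k with
    | zero => rfl
    | succ k ih => rw [hstep, ih, sol]
  have hper : Ψ (n + 1) = Ψ 0 := by
    have a1 : G (n + 1) = G 0 := by rw [hG, hG, it_last]; rfl
    have a2 : G' (n + 1) = G' 0 := by rw [hG', hG', it_last]; rfl
    have a3 : c (n + 1) = c 0 := by simp only [hc]; rw [it_last]; rfl
    simp only [hΨ]
    rw [a1, a2, a3]
  have hne : Ψ 0 ≠ 0 := by
    intro h0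
    apply hg
    have hz : ∀ k, Ψ k = 0 := by
      intro k
      induction k with
      | zero => exact h0
      | succ k ih => rw [hstep, ih, Matrix.mulVec_zero]
    ext i
    have h2 : it (i : ℕ) = i := Fin.ext (it_val _ i.2)
    have h3 := congrFun (hz ((i : ℕ) + 1)) 1
    have h4 : G' ((i : ℕ) + 1) = 0 := h3
    rw [hGG, hG, h2] at h4
    exact h4
  have hfix : (MC p q E W).mulVec (Ψ 0) = Ψ 0 := by
    have := sol_word (p := p) (q := q) (E := E) (v := Ψ 0) W 0 occ
    rw [zero_add, hW, ← hsol, ← hsol, hper] at this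
    exact this.symm
  have hdet : (MC p q E W - 1).det = 0 := by
    apply Matrix.exists_mulVec_eq_zero_iff.1
    refine ⟨Ψ 0, hne, ?_⟩
    rw [Matrix.sub_mulVec, hfix, Matrix.one_mulVec, sub_self]
  have hd := det_M hp q E W
  rw [Matrix.det_fin_two] at hdet hd
  rw [Matrix.trace_fin_two]
  simp only [MC, Matrix.sub_apply, Matrix.map_apply, Matrix.one_apply] at hdet
  simp only [Fin.isValue, if_true, zero_ne_one, one_ne_zero, if_false, sub_zero] at hdet
  have h5 : (M p q E W 0 0 - 1) * (M p q E W 1 1 - 1) - M p q E W 0 1 * M p q E W 1 0 = 0 := by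
    exact_mod_cast hdet
  linarith

/-- if the trace of the word is not `2` near `E`, the cyclic matrix is bounded below -/
lemma cyc_below {p q E : ℝ} (hp : p ≠ 0) {W : List Letter} (hW : W.length = n + 1) {ε : ℝ}
    (hε : 0 < ε) (hne : ∀ E', |E' - E| ≤ ε → (M p q E' W).trace ≠ 2)
    (f : EuclideanSpace ℂ (Fin (n + 1))) :
    ε / 2 * ‖f‖ ≤ ‖cyc p q (fun i => W[(i : ℕ)]'(by rw [hW]; exact i.2)) f - (E : ℂ) • f‖ := by
  by_contra hc
  push Not at hc
  set A := cyc p q (fun i => W[(i : ℕ)]'(by rw [hW]; exact i.2)) with hA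
  have hf : f ≠ 0 := by
    rintro rfl
    simp at hc
  obtain ⟨E', hE', hE2⟩ := H221R3.Sturm.near_of_approx (cyc_sa p q _) hε
    (by linarith : ε / 2 < ε) hf hc.le
  apply hne E' hE'
  have hnu : ¬ Function.Injective (algebraMap ℂ (EuclideanSpace ℂ (Fin (n + 1)) →L[ℂ]
      EuclideanSpace ℂ (Fin (n + 1))) (E' : ℂ) - A) := by
    intro hinj
    apply hE2
    change IsUnit (algebraMap ℂ (EuclideanSpace ℂ (Fin (n + 1)) →L[ℂ]
      EuclideanSpace ℂ (Fin (n + 1))) (E' : ℂ) - A)
    rw [ContinuousLinearMap.isUnit_iff_bijective]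
    refine ⟨hinj, ?_⟩
    exact (LinearMap.injective_iff_surjective (f := ((algebraMap ℂ
      (EuclideanSpace ℂ (Fin (n + 1)) →L[ℂ] EuclideanSpace ℂ (Fin (n + 1))) (E' : ℂ) - A :
      EuclideanSpace ℂ (Fin (n + 1)) →L[ℂ] EuclideanSpace ℂ (Fin (n + 1))) :
      EuclideanSpace ℂ (Fin (n + 1)) →ₗ[ℂ] EuclideanSpace ℂ (Fin (n + 1))))).1 hinj
  rw [Function.not_injective_iff] at hnu
  obtain ⟨a, b, hab, hne2⟩ := hnu
  have h1 : A (a - b) = (E' : ℂ) • (a - b) := by
    rw [Algebra.algebraMap_eq_smul_one] at hab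
    have h2 : (E' : ℂ) • a - A a = (E' : ℂ) • b - A b := hab
    rw [map_sub, smul_sub]
    have h3 : (E' : ℂ) • a = (E' : ℂ) • b - A b + A a := by rw [← h2]; abel
    rw [h3]; abel
  exact cyc_trace hp hW (sub_ne_zero.2 hne2) h1

lemma eucl_norm_sq (f : EuclideanSpace ℂ (Fin (n + 1))) : ‖f‖ ^ 2 = ∑ i, ‖f i‖ ^ 2 :=
  EuclideanSpace.norm_sq_eq f

/-- transplantation of test vectors to a cyclic word -/
lemma bb_of_cyc {p q E ε : ℝ} {W : List Letter} (hW : W.length = n + 1) {d : ℕ → Letter} {j k : ℕ}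
    (hjk : j + k + 3 ≤ n + 1) (hd : ∀ t, t < k + 3 → ∀ h : j + t < W.length, d t = W[j + t])
    (hε : 0 < ε)
    (hb : ∀ f : EuclideanSpace ℂ (Fin (n + 1)), ε * ‖f‖ ≤
      ‖cyc p q (fun i => W[(i : ℕ)]'(by rw [hW]; exact i.2)) f - (E : ℂ) • f‖) :
    BB p q E d k (ε ^ 2) := by
  intro F h0 h1 hF
  set w : Fin (n + 1) → Letter := fun i => W[(i : ℕ)]'(by rw [hW]; exact i.2) with hw
  set σ := finRotate (n + 1) with hσ
  set f : EuclideanSpace ℂ (Fin (n + 1)) := WithLp.toLp 2 (fun i => F ((i : ℕ) - j)) with hf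
  have hfi : ∀ i, f i = F ((i : ℕ) - j) := fun i => rfl
  have k1 := hb f
  have k2 : ε ^ 2 * ‖f‖ ^ 2 ≤ ‖cyc p q w f - (E : ℂ) • f‖ ^ 2 := by
    rw [← mul_pow]
    exact pow_le_pow_left₀ (by positivity) k1 2
  have low : ∑ m ∈ Finset.range k, ‖F m‖ ^ 2 ≤ ‖f‖ ^ 2 := by
    rw [eucl_norm_sq]
    have e1 : ∑ i : Fin (n + 1), ‖f i‖ ^ 2 = ∑ v ∈ Finset.range (n + 1), ‖F (v - j)‖ ^ 2 := by
      rw [← Fin.sum_univ_eq_sum_range (fun v => ‖F (v - j)‖ ^ 2)]
    have e2 : ∑ m ∈ Finset.range k, ‖F m‖ ^ 2 = ∑ v ∈ Finset.Ico j (j + k), ‖F (v - j)‖ ^ 2 := by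
      rw [Finset.sum_Ico_eq_sum_range, Nat.add_sub_cancel_left]
      apply Finset.sum_congr rfl
      intro m _
      rw [Nat.add_sub_cancel_left]
    rw [e1, e2]
    apply Finset.sum_le_sum_of_subset_of_nonneg
    · intro v hv
      rw [Finset.mem_Ico] at hv
      rw [Finset.mem_range]; omega
    · intro v _ _
      positivity
  have val : ∀ i : Fin (n + 1), ‖(cyc p q w f - (E : ℂ) • f) (σ i)‖ ^ 2 ≤
      if j ≤ (i : ℕ) ∧ (i : ℕ) < j + k then ‖hopN p q E d F ((i : ℕ) - j)‖ ^ 2 else 0 := by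
    intro i
    have e0 : (cyc p q w f - (E : ℂ) • f) (σ i) = (pc p (w (σ i)) : ℂ) * f i +
        (pc p (w (σ (σ i))) : ℂ) * f (σ (σ i)) + ((qc q (w (σ i)) : ℂ) - E) * f (σ i) := by
      rw [PiLp.sub_apply, cyc_apply, PiLp.smul_apply, smul_eq_mul, Equiv.symm_apply_apply]
      ring
    rw [e0]
    rcases lt_or_ge ((i : ℕ) + 2) (n + 1) with hlt | hge
    · have v1 : ((σ i : Fin (n + 1)) : ℕ) = (i : ℕ) + 1 := by
        rw [hσ, coe_finRotate, if_neg]
        intro hc
        rw [hc] at hlt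
        simp at hlt
      have v2 : ((σ (σ i) : Fin (n + 1)) : ℕ) = (i : ℕ) + 2 := by
        rw [hσ, coe_finRotate, if_neg, ← hσ, v1]
        intro hc
        have : ((σ i : Fin (n + 1)) : ℕ) = n := by rw [hσ, hc]; rfl
        omega
      rw [hfi, hfi, hfi, v1, v2]
      by_cases hj : j ≤ (i : ℕ)
      · by_cases hk : (i : ℕ) < j + k
        · rw [if_pos ⟨hj, hk⟩]
          have a1 : w (σ i) = d ((i : ℕ) - j + 1) := by
            rw [hd ((i : ℕ) - j + 1) (by omega) (by omega)]
            simp only [hw, v1]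
            congr 1
            omega
          have a2 : w (σ (σ i)) = d ((i : ℕ) - j + 2) := by
            rw [hd ((i : ℕ) - j + 2) (by omega) (by omega)]
            simp only [hw, v2]
            congr 1
            omega
          have b1 : (i : ℕ) + 1 - j = (i : ℕ) - j + 1 := by omega
          have b2 : (i : ℕ) + 2 - j = (i : ℕ) - j + 2 := by omega
          rw [a1, a2, b1, b2]
          rfl
        · rw [if_neg (by omega), hF _ (by omega), hF ((i : ℕ) + 2 - j) (by omega),
            hF ((i : ℕ) + 1 - j) (by omega)]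
          simp
      · rw [if_neg (by omega)]
        have z1 : F ((i : ℕ) - j) = 0 := by
          rw [show (i : ℕ) - j = 0 by omega]; exact h0
        have z2 : F ((i : ℕ) + 1 - j) = 0 := by
          rw [show (i : ℕ) + 1 - j = 0 by omega]; exact h0
        have z3 : F ((i : ℕ) + 2 - j) = 0 := by
          rcases (by omega : (i : ℕ) + 2 - j = 0 ∨ (i : ℕ) + 2 - j = 1) with h | h
          · rw [h]; exact h0
          · rw [h]; exact h1
        rw [z1, z2, z3]
        simp
    · have hi : (i : ℕ) < n + 1 := i.2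
      have z1 : f i = 0 := by rw [hfi]; exact hF _ (by omega)
      have z2 : f (σ i) = 0 := by
        rw [hfi, hσ, coe_finRotate]
        split_ifs with hc
        · rw [Nat.zero_sub]; exact h0
        · exact hF _ (by omega)
      have z3 : f (σ (σ i)) = 0 := by
        rw [hfi, hσ, coe_finRotate]
        split_ifs with hc
        · rw [Nat.zero_sub]; exact h0
        · rw [coe_finRotate]
          split_ifs with hc2
          · rcases (by omega : 0 + 1 - j = 0 ∨ 0 + 1 - j = 1) with h | h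
            · rw [h]; exact h0
            · rw [h]; exact h1
          · exact hF _ (by omega)
      rw [z1, z2, z3]
      split_ifs <;> simp
  have up : ‖cyc p q w f - (E : ℂ) • f‖ ^ 2 ≤ ∑ m ∈ Finset.range k, ‖hopN p q E d F m‖ ^ 2 := by
    rw [eucl_norm_sq, ← Equiv.sum_comp σ (fun i => ‖(cyc p q w f - (E : ℂ) • f) i‖ ^ 2)]
    refine (Finset.sum_le_sum (fun i _ => val i)).trans ?_
    rw [Fin.sum_univ_eq_sum_range (fun v => if j ≤ v ∧ v < j + k then
      ‖hopN p q E d F (v - j)‖ ^ 2 else 0)]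
    have e2 : ∑ m ∈ Finset.range k, ‖hopN p q E d F m‖ ^ 2 =
        ∑ v ∈ Finset.Ico j (j + k), ‖hopN p q E d F (v - j)‖ ^ 2 := by
      rw [Finset.sum_Ico_eq_sum_range, Nat.add_sub_cancel_left]
      apply Finset.sum_congr rfl
      intro m _
      rw [Nat.add_sub_cancel_left]
    rw [e2, ← Finset.sum_filter]
    apply Finset.sum_le_sum_of_subset_of_nonneg
    · intro v hv
      rw [Finset.mem_filter] at hv
      rw [Finset.mem_Ico]; exact hv.2
    · intro v _ _
      positivity
  calc ε ^ 2 * ∑ m ∈ Finset.range k, ‖F m‖ ^ 2 ≤ ε ^ 2 * ‖f‖ ^ 2 :=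
        mul_le_mul_of_nonneg_left low (by positivity)
    _ ≤ _ := k2
    _ ≤ _ := up

end cyc

/-- **Energies with escaping half traces are not in the spectrum.** -/
theorem not_mem_spectrum_of_bad {p q E : ℝ} (hp : p ≠ 0) {u : ℕ → Letter} (hu : IsFix u)
    {ω : ℤ → Letter} (hω : InHull u ω) {H : L2 →L[ℂ] L2} (h : IsOp p q ω H) {k₀ : ℕ}
    (hbad : Bad (X p q E) k₀) : (E : ℂ) ∉ spectrum ℂ H := by
  obtain ⟨ε, hε, hX⟩ := bad_nhds hp q hbad
  apply not_mem_of_bb h (ε := (ε / 2) ^ 2) (by positivity)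
  intro m k
  obtain ⟨j, hj⟩ := hω m (k + 3)
  set K := j + k + 3 + k₀ with hK
  have hlen := blk_len_ge K
  obtain ⟨n, hn⟩ : ∃ n, (blk K .a).length = n + 1 := ⟨(blk K .a).length - 1, by omega⟩
  refine bb_of_cyc (n := n) (W := blk K .a) hn (j := j) (by omega) ?_ (by positivity) ?_
  · intro t ht hlt
    rw [fix_get hu]
    exact hj t ht
  · intro f
    apply cyc_below hp hn hε
    intro E' hE' htr
    have h1 := hX E' hE' (K + 1) (by omega)
    rw [X_a] at htr
    have h2 : X p q E' (K + 1) = 1 := by linarith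
    rw [h2, abs_one] at h1
    exact lt_irrefl _ h1

end Pool.Agent.W811.Fib
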