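import Pool.Agent.W811.Fib.Op

/-!
Energies with infinitely many small half traces are in the spectrum.
-/

set_option autoImplicit false

namespace Pool.Agent.W811.Fib

open Pool.Agent.Helper434.PSCplx (L2)

/-! ### a growth lemma -/

lemma grow {f : ℕ → ℝ} {C : ℝ} {N : ℕ} (hf : ∀ n, 0 ≤ f n) (hC : 0 < C)
    (h : ∀ l r, 1 ≤ l → l < r → r ≤ 2 * N + 1 →
      ∑ n ∈ Finset.Ico l r, f n ≤ C * (f (l - 1) + f l + f (r - 1) + f r))
    (i : ℕ) (hi : 2 * i + 1 ≤ N) :
    (1 + 1 / C) ^ i * (f N + f (N + 1)) ≤ C * (f 0 + f 1 + f (2 * N) + f (2 * N + 1)) := by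
  have hstep : ∀ j, 1 ≤ j → j ≤ N → ∑ n ∈ Finset.Ico (N + 1 - (j + 1)) (N + 1 + (j + 1)), f n =
      f (N + 1 - (j + 1)) + (∑ n ∈ Finset.Ico (N + 1 - j) (N + 1 + j), f n) + f (N + 1 + j) := by
    intro j _ h2
    rw [show N + 1 + (j + 1) = (N + 1 + j) + 1 by ring, Finset.sum_Ico_succ_top (by omega),
      Finset.sum_eq_sum_Ico_succ_bot (by omega), show N + 1 - (j + 1) + 1 = N + 1 - j by omega]
  set S : ℕ → ℝ := fun j => ∑ n ∈ Finset.Ico (N + 1 - j) (N + 1 + j), f n with hS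
  have S0 : S 0 = 0 := by simp [hS]
  have S1 : 1 ≤ N → S 1 = f N + f (N + 1) := by
    intro hN
    simp only [hS]
    rw [show N + 1 - 1 = N by omega, Finset.sum_Ico_succ_top (by omega),
      Finset.sum_Ico_succ_top (by omega)]
    simp
  have Sst : ∀ j, 1 ≤ j → j ≤ N → S (j + 1) = f (N + 1 - (j + 1)) + S j + f (N + 1 + j) := hstep
  have Smono : ∀ j, 1 ≤ j → j ≤ N → S j ≤ S (j + 1) := by
    intro j h1 h2
    rw [Sst j h1 h2]
    linarith [hf (N + 1 - (j + 1)), hf (N + 1 + j)]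
  have Sgrow : ∀ j, 1 ≤ j → j + 1 ≤ N → S j * (1 + 1 / C) ≤ S (j + 2) := by
    intro j h1 h2
    have k1 := Sst j h1 (by omega)
    have k2 := Sst (j + 1) (by omega) (by omega)
    have k3 := h (N + 1 - (j + 1)) (N + 1 + (j + 1)) (by omega) (by omega) (by omega)
    have k4 : S (j + 1) ≤ C * (f (N + 1 - (j + 1) - 1) + f (N + 1 - (j + 1)) +
      f (N + 1 + (j + 1) - 1) + f (N + 1 + (j + 1))) := k3
    have e1 : N + 1 - (j + 1) - 1 = N + 1 - (j + 1 + 1) := by omega
    have e2 : N + 1 + (j + 1) - 1 = N + 1 + j := by omega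
    rw [e1, e2] at k4
    have k5 : S (j + 2) - S j = f (N + 1 - (j + 1 + 1)) + f (N + 1 - (j + 1)) + f (N + 1 + j) +
      f (N + 1 + (j + 1)) := by
      have : S (j + 2) = S (j + 1 + 1) := rfl
      rw [this, k2, k1]; ring
    rw [← k5] at k4
    have k6 := Smono j h1 (by omega)
    have k7 : S j ≤ C * (S (j + 2) - S j) := k6.trans k4
    have k8 : S j / C ≤ S (j + 2) - S j := by
      rw [div_le_iff₀ hC]; linarith
    have e3 : S j * (1 + 1 / C) = S j + S j / C := by ring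
    rw [e3]; linarith
  have Sodd : ∀ i, 2 * i + 1 ≤ N → (1 + 1 / C) ^ i * S 1 ≤ S (2 * i + 1) := by
    intro i
    induction i with
    | zero => intro _; simp
    | succ i ih =>
      intro hi
      have k1 := ih (by omega)
      have k2 := Sgrow (2 * i + 1) (by omega) (by omega)
      have e : 2 * (i + 1) + 1 = 2 * i + 1 + 2 := by ring
      rw [e]
      refine le_trans ?_ k2
      rw [pow_succ]
      have : 0 ≤ 1 + 1 / C := by positivity
      calc (1 + 1 / C) ^ i * (1 + 1 / C) * S 1 = ((1 + 1 / C) ^ i * S 1) * (1 + 1 / C) := by ring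
        _ ≤ _ := mul_le_mul_of_nonneg_right k1 this
  have Smono2 : ∀ j, 1 ≤ j → ∀ d, j + d ≤ N → S j ≤ S (j + d) := by
    intro j hj d
    induction d with
    | zero => intro _; exact le_refl _
    | succ d ih =>
      intro hd
      exact (ih (by omega)).trans (Smono (j + d) (by omega) (by omega))
  have k1 := Sodd i hi
  have k2 := Smono2 (2 * i + 1) (by omega) (N - (2 * i + 1)) (by omega)
  rw [show 2 * i + 1 + (N - (2 * i + 1)) = N by omega] at k2
  have k3 := h (N + 1 - N) (N + 1 + N) (by omega) (by omega) (by omega)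
  have k4 : S N ≤ C * (f (N + 1 - N - 1) + f (N + 1 - N) + f (N + 1 + N - 1) + f (N + 1 + N)) := k3
  rw [show N + 1 - N - 1 = 0 by omega, show N + 1 - N = 1 by omega,
    show N + 1 + N - 1 = 2 * N by omega, show N + 1 + N = 2 * N + 1 by omega] at k4
  rw [← S1 (by omega)]
  linarith

/-! ### solutions along a sequence of letters -/

/-- complex transfer matrix -/
noncomputable def TC (p q E : ℝ) (c : Letter) : Matrix (Fin 2) (Fin 2) ℂ :=
  (T p q E c).map (fun x : ℝ => (x : ℂ))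

/-- complex transfer matrix of a word -/
noncomputable def MC (p q E : ℝ) (w : List Letter) : Matrix (Fin 2) (Fin 2) ℂ :=
  (M p q E w).map (fun x : ℝ => (x : ℂ))

lemma map_mul_real (A B : Matrix (Fin 2) (Fin 2) ℝ) :
    (A * B).map (fun x : ℝ => (x : ℂ)) = A.map (fun x : ℝ => (x : ℂ)) *
      B.map (fun x : ℝ => (x : ℂ)) := by
  ext i j
  simp [Matrix.mul_apply]

lemma MC_cons (p q E : ℝ) (c : Letter) (w : List Letter) :
    MC p q E (c :: w) = MC p q E w * TC p q E c := by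
  unfold MC TC
  rw [M, map_mul_real]

lemma MC_append (p q E : ℝ) (v w : List Letter) :
    MC p q E (v ++ w) = MC p q E w * MC p q E v := by
  unfold MC
  rw [M_append, map_mul_real]

lemma MC_nil (p q E : ℝ) : MC p q E [] = 1 := by
  unfold MC
  simp [M]

/-- the solution -/
noncomputable def sol (p q E : ℝ) (c : ℕ → Letter) (v : Fin 2 → ℂ) : ℕ → (Fin 2 → ℂ)
  | 0 => v
  | n + 1 => (TC p q E (c n)).mulVec (sol p q E c v n)

lemma sol_word {p q E : ℝ} {c : ℕ → Letter} {v : Fin 2 → ℂ} (w : List Letter) (n : ℕ)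
    (h : Occ c w n) : sol p q E c v (n + w.length) = (MC p q E w).mulVec (sol p q E c v n) := by
  induction w generalizing n with
  | nil => simp [MC_nil]
  | cons l w ih =>
    have h0 : c n = l := h 0 (by simp)
    have h1 : Occ c w (n + 1) := by
      intro t ht
      have := h (t + 1) (by simp; omega)
      rw [show n + 1 + t = n + (t + 1) by ring, this]
      rfl
    rw [List.length_cons, show n + (w.length + 1) = n + 1 + w.length by ring, ih (n + 1) h1,
      MC_cons, sol, h0, Matrix.mulVec_mulVec]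

lemma sol_snd {p q E : ℝ} {c : ℕ → Letter} {v : Fin 2 → ℂ} (n : ℕ) :
    sol p q E c v (n + 1) 1 = ((1 / pc p (c n) : ℝ) : ℂ) * sol p q E c v n 0 := by
  rw [sol]
  simp [TC, T, Matrix.mulVec, dotProduct, Fin.sum_univ_two]

lemma sol_fst {p q E : ℝ} {c : ℕ → Letter} {v : Fin 2 → ℂ} (n : ℕ) :
    sol p q E c v (n + 1) 0 = (((E - qc q (c n)) / pc p (c n) : ℝ) : ℂ) * sol p q E c v n 0 -
      (pc p (c n) : ℂ) * sol p q E c v n 1 := by
  rw [sol]
  simp [TC, T, Matrix.mulVec, dotProduct, Fin.sum_univ_two]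
  ring

/-- the recursion in terms of the values -/
lemma sol_rec {p q E : ℝ} (hp : p ≠ 0) {c : ℕ → Letter} {v : Fin 2 → ℂ} (n : ℕ) :
    (pc p (c n) : ℂ) * sol p q E c v n 1 + (pc p (c (n + 1)) : ℂ) * sol p q E c v (n + 2) 1 +
      ((qc q (c n) : ℂ) - E) * sol p q E c v (n + 1) 1 = 0 := by
  have h1 : ((pc p (c n) : ℝ) : ℂ) ≠ 0 := by exact_mod_cast pc_ne hp (c n)
  have h2 : ((pc p (c (n + 1)) : ℝ) : ℂ) ≠ 0 := by exact_mod_cast pc_ne hp (c (n + 1))
  rw [sol_snd (n + 1), sol_fst n, sol_snd n]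
  push_cast
  field_simp
  ring

lemma ind_sum (l r k : ℕ) (hlr : l < r) (hk : r < k) (χ : ℕ → ℝ)
    (hχ : ∀ n, χ n = if l < n ∧ n ≤ r then 1 else 0) (g : ℕ → ℝ) :
    ∑ n ∈ Finset.range k, (χ n - χ (n + 1)) ^ 2 * g n = g l + g r := by
  have h1 : ∀ n, (χ n - χ (n + 1)) ^ 2 * g n =
      (if n = l then g n else 0) + (if n = r then g n else 0) := by
    intro n
    rw [hχ, hχ]
    rcases lt_trichotomy n l with h | h | h
    · rw [if_neg (by omega), if_neg (by omega), if_neg (by omega), if_neg (by omega)]; ring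
    · rw [if_neg (by omega), if_pos (by omega), if_pos h, if_neg (by omega)]; ring
    · rcases lt_trichotomy n r with h' | h' | h'
      · rw [if_pos (by omega), if_pos (by omega), if_neg (by omega), if_neg (by omega)]; ring
      · rw [if_pos (by omega), if_neg (by omega), if_neg (by omega), if_pos h']; ring
      · rw [if_neg (by omega), if_neg (by omega), if_neg (by omega), if_neg (by omega)]; ring
  rw [Finset.sum_congr rfl (fun n _ => h1 n), Finset.sum_add_distrib, Finset.sum_ite_eq',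
    Finset.sum_ite_eq', if_pos (Finset.mem_range.2 (by omega)),
    if_pos (Finset.mem_range.2 hk)]

/-- the estimate for the truncation of a solution -/
lemma trunc {p q E P ε : ℝ} (hp : p ≠ 0) (hP : ∀ c, |pc p c| ≤ P) {c : ℕ → Letter}
    {v : Fin 2 → ℂ} (hε : 0 < ε) {d : ℕ → Letter} (hcd : ∀ n, d (n + 2) = c n)
    {K : ℕ} (hb : ∀ k, BB p q E d k ε) (l r : ℕ) (hl : 1 ≤ l) (hlr : l < r) (hr : r ≤ K) :
    ∑ n ∈ Finset.Ico l r, ‖sol p q E c v n 1‖ ^ 2 ≤ 2 * P ^ 2 / ε *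
      (‖sol p q E c v (l - 1) 1‖ ^ 2 + ‖sol p q E c v l 1‖ ^ 2 + ‖sol p q E c v (r - 1) 1‖ ^ 2 +
        ‖sol p q E c v r 1‖ ^ 2) := by
  -- `Φ n = sol (n - 1) 1`
  set Φ : ℕ → ℂ := fun n => sol p q E c v (n - 1) 1 with hΦ
  set χ : ℕ → ℝ := fun n => if l < n ∧ n ≤ r then 1 else 0 with hχ
  set F : ℕ → ℂ := fun n => (χ n : ℂ) * Φ n with hF
  have F0 : F 0 = 0 := by
    simp only [hF, hχ]; rw [if_neg (by omega)]; simp
  have F1 : F 1 = 0 := by
    simp only [hF, hχ]; rw [if_neg (by omega)]; simp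
  have Fk : ∀ n, r + 1 ≤ n → F n = 0 := by
    intro n hn
    simp only [hF, hχ]; rw [if_neg (by omega)]; simp
  have k := hb (r + 1) F F0 F1 Fk
  -- left side
  have eL : ∑ n ∈ Finset.range (r + 1), ‖F n‖ ^ 2 = ∑ n ∈ Finset.Ico l r,
      ‖sol p q E c v n 1‖ ^ 2 := by
    rw [Finset.sum_Ico_eq_sum_range]
    have e1 : ∑ n ∈ Finset.range (r + 1), ‖F n‖ ^ 2 = ∑ n ∈ Finset.Ico (l + 1) (r + 1),
        ‖F n‖ ^ 2 := by
      symm
      apply Finset.sum_subset
      · intro n hn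
        rw [Finset.mem_Ico] at hn
        exact Finset.mem_range.2 hn.2
      · intro n hn hn2
        rw [Finset.mem_range] at hn
        rw [Finset.mem_Ico] at hn2
        have : F n = 0 := by
          simp only [hF, hχ]; rw [if_neg (by omega)]; simp
        rw [this, norm_zero]; norm_num
    rw [e1, Finset.sum_Ico_eq_sum_range, show r + 1 - (l + 1) = r - l by omega]
    apply Finset.sum_congr rfl
    intro n hn
    rw [Finset.mem_range] at hn
    simp only [hF, hχ, hΦ]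
    rw [if_pos (by omega), show l + 1 + n - 1 = l + n by omega]
    simp
  -- right side
  have hop : ∀ n, hopN p q E d F n = (pc p (d (n + 1)) : ℂ) * (((χ n - χ (n + 1) : ℝ) : ℂ) * Φ n) +
      (pc p (d (n + 2)) : ℂ) * (((χ (n + 2) - χ (n + 1) : ℝ) : ℂ) * Φ (n + 2)) := by
    intro n
    rcases Nat.eq_zero_or_pos n with h0 | h0
    · subst h0
      have c0 : χ 0 = 0 := by simp only [hχ]; rw [if_neg (by omega)]
      have c1 : χ 1 = 0 := by simp only [hχ]; rw [if_neg (by omega)]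
      unfold hopN
      simp only [hF, zero_add, c0, c1]
      push_cast
      ring
    · obtain ⟨m, rfl⟩ : ∃ m, n = m + 1 := ⟨n - 1, by omega⟩
      have hrec := sol_rec (q := q) (E := E) hp (c := c) (v := v) m
      have e1 : Φ (m + 1) = sol p q E c v m 1 := by simp only [hΦ]; rfl
      have e2 : Φ (m + 1 + 1) = sol p q E c v (m + 1) 1 := by simp only [hΦ]; rfl
      have e3 : Φ (m + 1 + 2) = sol p q E c v (m + 2) 1 := by simp only [hΦ]; rfl
      have d1 : d (m + 1 + 1) = c m := hcd m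
      have d2 : d (m + 1 + 2) = c (m + 1) := hcd (m + 1)
      unfold hopN
      simp only [hF]
      rw [d1, d2, e1, e2, e3]
      push_cast
      linear_combination (χ (m + 1 + 1) : ℂ) * hrec
  have hn : ∀ n, ‖hopN p q E d F n‖ ^ 2 ≤ 2 * P ^ 2 * ((χ n - χ (n + 1)) ^ 2 * ‖Φ n‖ ^ 2) +
      2 * P ^ 2 * ((χ (n + 1) - χ (n + 1 + 1)) ^ 2 * ‖Φ (n + 2)‖ ^ 2) := by
    intro n
    rw [hop]
    have t1 := norm_add_le ((pc p (d (n + 1)) : ℂ) * (((χ n - χ (n + 1) : ℝ) : ℂ) * Φ n))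
      ((pc p (d (n + 2)) : ℂ) * (((χ (n + 2) - χ (n + 1) : ℝ) : ℂ) * Φ (n + 2)))
    rw [norm_mul, norm_mul, norm_mul, norm_mul, Complex.norm_real, Complex.norm_real,
      Complex.norm_real, Complex.norm_real, Real.norm_eq_abs, Real.norm_eq_abs, Real.norm_eq_abs,
      Real.norm_eq_abs] at t1
    have hP0 : 0 ≤ P := (abs_nonneg _).trans (hP .a)
    set A := |χ n - χ (n + 1)| * ‖Φ n‖ with hA
    set B := |χ (n + 2) - χ (n + 1)| * ‖Φ (n + 2)‖ with hB
    have hA0 : 0 ≤ A := by positivity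
    have hB0 : 0 ≤ B := by positivity
    have t2 : |pc p (d (n + 1))| * A ≤ P * A := mul_le_mul_of_nonneg_right (hP _) hA0
    have t3 : |pc p (d (n + 2))| * B ≤ P * B := mul_le_mul_of_nonneg_right (hP _) hB0
    have t4 : ‖(pc p (d (n + 1)) : ℂ) * (((χ n - χ (n + 1) : ℝ) : ℂ) * Φ n) +
      (pc p (d (n + 2)) : ℂ) * (((χ (n + 2) - χ (n + 1) : ℝ) : ℂ) * Φ (n + 2))‖ ≤ P * A + P * B := by
      linarith
    have t5 := pow_le_pow_left₀ (norm_nonneg _) t4 2
    refine t5.trans ?_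
    have eA : A ^ 2 = (χ n - χ (n + 1)) ^ 2 * ‖Φ n‖ ^ 2 := by rw [hA, mul_pow, sq_abs]
    have eB : B ^ 2 = (χ (n + 1) - χ (n + 1 + 1)) ^ 2 * ‖Φ (n + 2)‖ ^ 2 := by
      rw [hB, mul_pow, sq_abs]; ring
    rw [← eA, ← eB]
    nlinarith [sq_nonneg (P * A - P * B)]
  have sR : ∑ n ∈ Finset.range (r + 1), ‖hopN p q E d F n‖ ^ 2 ≤
      2 * P ^ 2 * (‖Φ l‖ ^ 2 + ‖Φ r‖ ^ 2) + 2 * P ^ 2 * (‖Φ (l + 1)‖ ^ 2 + ‖Φ (r + 1)‖ ^ 2) := by
    refine (Finset.sum_le_sum (fun n _ => hn n)).trans ?_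
    rw [Finset.sum_add_distrib, ← Finset.mul_sum, ← Finset.mul_sum]
    rw [ind_sum l r (r + 1) hlr (by omega) χ (fun n => rfl) (fun n => ‖Φ n‖ ^ 2)]
    have e2 : ∑ n ∈ Finset.range (r + 1), (χ (n + 1) - χ (n + 1 + 1)) ^ 2 * ‖Φ (n + 2)‖ ^ 2 =
        ∑ n ∈ Finset.range (r + 1), (χ n - χ (n + 1)) ^ 2 * ‖Φ (n + 1)‖ ^ 2 := by
      have s1 := Finset.sum_range_succ' (fun n => (χ n - χ (n + 1)) ^ 2 * ‖Φ (n + 1)‖ ^ 2) (r + 1)
      have s2 := Finset.sum_range_succ (fun n => (χ n - χ (n + 1)) ^ 2 * ‖Φ (n + 1)‖ ^ 2) (r + 1)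
      have z1 : (χ 0 - χ (0 + 1)) ^ 2 * ‖Φ (0 + 1)‖ ^ 2 = 0 := by
        simp only [hχ]
        rw [if_neg (by omega), if_neg (by omega)]; simp
      have z2 : (χ (r + 1) - χ (r + 1 + 1)) ^ 2 * ‖Φ (r + 1 + 1)‖ ^ 2 = 0 := by
        simp only [hχ]
        rw [if_neg (by omega), if_neg (by omega)]; simp
      rw [z1, add_zero] at s1
      rw [z2, add_zero] at s2
      rw [← s2, s1]
    rw [e2, ind_sum l r (r + 1) hlr (by omega) χ (fun n => rfl) (fun n => ‖Φ (n + 1)‖ ^ 2)]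
  rw [eL] at k
  have k2 := k.trans sR
  have f1 : Φ l = sol p q E c v (l - 1) 1 := rfl
  have f2 : Φ r = sol p q E c v (r - 1) 1 := rfl
  have f3 : Φ (l + 1) = sol p q E c v l 1 := rfl
  have f4 : Φ (r + 1) = sol p q E c v r 1 := rfl
  rw [f1, f2, f3, f4] at k2
  rw [div_mul_eq_mul_div, le_div_iff₀ hε]
  linarith

/-! ### the eigenvector of a transfer matrix with small trace -/

lemma exists_eigen {A : Matrix (Fin 2) (Fin 2) ℝ} (hd : A.det = 1) (ht : |A.trace / 2| ≤ 1) :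
    ∃ (lam : ℂ) (v : Fin 2 → ℂ), ‖lam‖ = 1 ∧ v ≠ 0 ∧
      (A.map (fun x : ℝ => (x : ℂ))).mulVec v = lam • v := by
  set x := A.trace / 2 with hx
  obtain ⟨x1, x2⟩ := abs_le.1 ht
  have hnn : 0 ≤ 1 - x ^ 2 := by nlinarith
  set s := Real.sqrt (1 - x ^ 2) with hs
  have hs2 : s ^ 2 = 1 - x ^ 2 := Real.sq_sqrt hnn
  set lam : ℂ := ⟨x, s⟩ with hlam
  have hn : ‖lam‖ = 1 := by
    rw [Complex.norm_def, Complex.normSq_mk]
    rw [show x * x + s * s = 1 by nlinarith]
    exact Real.sqrt_one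
  have hq : lam * lam - 2 * (x : ℂ) * lam + 1 = 0 := by
    apply Complex.ext
    · simp [hlam]; nlinarith
    · simp [hlam]; ring
  have hdet : (A.map (fun x : ℝ => (x : ℂ)) - lam • (1 : Matrix (Fin 2) (Fin 2) ℂ)).det = 0 := by
    rw [Matrix.det_fin_two] at hd ⊢
    simp only [Matrix.sub_apply, Matrix.map_apply, Matrix.smul_apply, Matrix.one_apply,
      smul_eq_mul]
    simp only [Fin.isValue, if_true, zero_ne_one, one_ne_zero, if_false, mul_one, mul_zero,
      sub_zero]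
    have h1 : (A 0 0 : ℂ) * A 1 1 - A 0 1 * A 1 0 = 1 := by exact_mod_cast hd
    have h2 : (A 0 0 : ℂ) + A 1 1 = 2 * (x : ℂ) := by
      have : A 0 0 + A 1 1 = 2 * x := by
        rw [hx, Matrix.trace_fin_two]; ring
      exact_mod_cast this
    linear_combination h1 + hq - lam * h2
  obtain ⟨v, hv, hv2⟩ := Matrix.exists_mulVec_eq_zero_iff.2 hdet
  refine ⟨lam, v, hn, hv, ?_⟩
  rw [Matrix.sub_mulVec, Matrix.smul_mulVec, Matrix.one_mulVec] at hv2
  exact sub_eq_zero.1 hv2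

/-- the factors of the sequence are factors of the fixed point, at arbitrary places -/
def InHull (u : ℕ → Letter) (ω : ℤ → Letter) : Prop :=
  ∀ (m : ℤ) (n : ℕ), ∃ j : ℕ, ∀ t < n, ω (m + (t : ℤ)) = u (j + t)

/-- the squares of the blocks occur in all the elements of the hull -/
lemma square_occurs {u : ℕ → Letter} (hu : IsFix u) {ω : ℤ → Letter} (hω : InHull u ω) (k : ℕ)
    (hk : 1 ≤ k) :
    ∃ m : ℤ, Occ (fun n : ℕ => ω (m + (n : ℤ))) (blk k .a ++ blk k .a) 0 := by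
  obtain ⟨k, rfl⟩ : ∃ j, k = j + 1 := ⟨k - 1, by omega⟩
  obtain ⟨j, hj⟩ := hω 0 (3 * (blk (k + 1 + 3) .a).length)
  obtain ⟨i, h1, h2, h3⟩ := recur hu (k + 1 + 3) j
  -- `blk (k+4) a = blk (k+2) a ++ blk (k+1) a ++ blk (k+1) a ++ blk k a`
  have e : blk (k + 1 + 3) .a = blk (k + 1 + 1) .a ++ ((blk (k + 1) .a ++ blk (k + 1) .a) ++
      blk (k + 1) .b) := by
    change (blk (k + 1 + 1) .a ++ blk (k + 1 + 1) .b) ++ blk (k + 1 + 1) .a = _
    change (blk (k + 1 + 1) .a ++ blk (k + 1) .a) ++ (blk (k + 1) .a ++ blk (k + 1) .b) = _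
    simp only [List.append_assoc]
  have h4 := h3
  rw [e] at h4
  have h5 := h4.append_right.append_left
  have hlen : (blk (k + 1 + 3) .a).length = (blk (k + 1 + 1) .a).length +
      ((blk (k + 1) .a ++ blk (k + 1) .a).length + (blk (k + 1) .b).length) := by
    rw [e, List.length_append, List.length_append]
  refine ⟨((i - j + (blk (k + 1 + 1) .a).length : ℕ) : ℤ), ?_⟩
  intro t ht
  have h6 := h5 t ht
  have h7 := hj (i - j + (blk (k + 1 + 1) .a).length + t) (by omega)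
  rw [← h6]
  have e2 : (((i - j + (blk (k + 1 + 1) .a).length : ℕ) : ℤ) + ((0 + t : ℕ) : ℤ)) =
      0 + ((i - j + (blk (k + 1 + 1) .a).length + t : ℕ) : ℤ) := by push_cast; ring
  change ω (((i - j + (blk (k + 1 + 1) .a).length : ℕ) : ℤ) + ((0 + t : ℕ) : ℤ)) = _
  rw [e2, h7]
  congr 1
  omega

/-- **Energies with infinitely many small half traces are in the spectrum.** -/
theorem mem_spectrum_of_small {p q E : ℝ} (hp : 1 ≤ p) {u : ℕ → Letter} (hu : IsFix u)
    {ω : ℤ → Letter} (hω : InHull u ω) {H : L2 →L[ℂ] L2} (h : IsOp p q ω H)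
    (hs : ∀ K, ∃ k, K ≤ k ∧ |X p q E k| ≤ 1) : (E : ℂ) ∈ spectrum ℂ H := by
  by_contra hE
  obtain ⟨ε, hε, hb⟩ := bb_of_not_mem h hE
  have hp0 : p ≠ 0 := by linarith
  have hP : ∀ c, |pc p c| ≤ p := by
    intro c
    cases c
    · simp only [pc, abs_one]; exact hp
    · simp only [pc]; rw [abs_of_pos (by linarith)]
  have hP1 : ∀ c, 1 ≤ |pc p c| := by
    intro c
    cases c
    · simp only [pc, abs_one]; exact le_refl _
    · simp only [pc]; rw [abs_of_pos (by linarith)]; exact hp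
  set C := 2 * p ^ 2 / ε with hC
  have hC0 : 0 < C := by positivity
  obtain ⟨i, hi⟩ := pow_unbounded_of_one_lt (2 * C * p ^ 2) (by
    have : 0 < 1 / C := by positivity
    linarith : 1 < 1 + 1 / C)
  obtain ⟨k', hk', hx⟩ := hs (2 * i + 3)
  obtain ⟨k, rfl⟩ : ∃ k, k' = k + 1 := ⟨k' - 1, by omega⟩
  set w := blk k .a with hw
  have hwN : 2 * i + 1 ≤ w.length := by
    have := blk_len_ge k
    rw [← hw] at this
    omega
  obtain ⟨m, hm⟩ := square_occurs hu hω k (by omega)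
  rw [← hw] at hm
  set N := w.length with hN
  obtain ⟨lam, v, hl, hv, hAv⟩ := exists_eigen (det_M hp0 q E w) (by
    have := X_a p q E k
    rw [hw, this]
    rw [show 2 * X p q E (k + 1) / 2 = X p q E (k + 1) by ring]
    exact hx)
  set c : ℕ → Letter := fun n => ω (m + (n : ℤ)) with hc
  have occ1 : Occ c w 0 := hm.append_left
  have occ2 : Occ c w N := by
    have := hm.append_right
    rw [zero_add] at this
    exact this
  have s1 : sol p q E c v N = lam • v := by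
    have := sol_word (p := p) (q := q) (E := E) (v := v) w 0 occ1
    rw [zero_add] at this
    rw [hN, this]
    exact hAv
  have s2 : sol p q E c v (2 * N) = (lam * lam) • v := by
    have := sol_word (p := p) (q := q) (E := E) (v := v) w N occ2
    rw [← hN, ← two_mul] at this
    rw [this, s1, Matrix.mulVec_smul]
    change lam • ((M p q E w).map (fun x : ℝ => (x : ℂ))).mulVec v = _
    rw [hAv, smul_smul]
  set f : ℕ → ℝ := fun n => ‖sol p q E c v n 1‖ ^ 2 with hf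
  have htr : ∀ l r, 1 ≤ l → l < r → r ≤ 2 * N + 1 →
      ∑ n ∈ Finset.Ico l r, f n ≤ C * (f (l - 1) + f l + f (r - 1) + f r) := by
    intro l r hl' hlr hr
    exact trunc (P := p) hp0 hP hε (d := fun n => ω (m - 2 + (n : ℤ))) (c := c) (by
      intro n
      simp only [hc]
      congr 1
      push_cast
      ring) (hb (m - 2)) l r hl' hlr hr
  have hg := grow (fun n => by positivity) hC0 htr i hwN
  -- values
  have snd : ∀ n, ‖sol p q E c v (n + 1) 1‖ = ‖sol p q E c v n 0‖ / |pc p (c n)| := by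
    intro n
    rw [sol_snd, norm_mul, Complex.norm_real, Real.norm_eq_abs, abs_div, abs_one]
    ring
  have upper : ∀ n, ‖sol p q E c v (n + 1) 1‖ ≤ ‖sol p q E c v n 0‖ := by
    intro n
    rw [snd]
    exact div_le_self (norm_nonneg _) (hP1 _)
  have lower : ∀ n, ‖sol p q E c v n 0‖ / p ≤ ‖sol p q E c v (n + 1) 1‖ := by
    intro n
    rw [snd]
    exact div_le_div_of_nonneg_left (norm_nonneg _) (by linarith [hP1 (c n)]) (hP _)
  have f0 : f 0 = ‖v 1‖ ^ 2 := rfl
  have f1 : f 1 ≤ ‖v 0‖ ^ 2 := by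
    have := upper 0
    exact pow_le_pow_left₀ (norm_nonneg _) this 2
  have fN : f N = ‖v 1‖ ^ 2 := by
    simp only [hf]
    rw [s1, Pi.smul_apply, norm_smul, hl, one_mul]
  have fN1 : ‖v 0‖ ^ 2 / p ^ 2 ≤ f (N + 1) := by
    have := lower N
    rw [s1, Pi.smul_apply, norm_smul, hl, one_mul] at this
    have := pow_le_pow_left₀ (by positivity) this 2
    rw [div_pow] at this
    exact this
  have f2N : f (2 * N) = ‖v 1‖ ^ 2 := by
    simp only [hf]
    rw [s2, Pi.smul_apply, norm_smul, norm_mul, hl, one_mul, one_mul]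
  have f2N1 : f (2 * N + 1) ≤ ‖v 0‖ ^ 2 := by
    have := upper (2 * N)
    rw [s2, Pi.smul_apply, norm_smul, norm_mul, hl, one_mul, one_mul] at this
    exact pow_le_pow_left₀ (norm_nonneg _) this 2
  have hvpos : 0 < ‖v 0‖ ^ 2 + ‖v 1‖ ^ 2 := by
    by_contra hcon
    push Not at hcon
    have a1 : 0 ≤ ‖v 0‖ ^ 2 := by positivity
    have a2 : 0 ≤ ‖v 1‖ ^ 2 := by positivity
    have b1 : ‖v 0‖ ^ 2 = 0 := by linarith
    have b2 : ‖v 1‖ ^ 2 = 0 := by linarith
    apply hv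
    ext j
    fin_cases j
    · simpa using b1
    · simpa using b2
  set A := ‖v 0‖ ^ 2 with hA
  set B := ‖v 1‖ ^ 2 with hB
  have hA0 : 0 ≤ A := by positivity
  have hB0 : 0 ≤ B := by positivity
  have low : (A + B) / p ^ 2 ≤ f N + f (N + 1) := by
    rw [fN, add_div]
    have : B / p ^ 2 ≤ B := div_le_self hB0 (by nlinarith)
    linarith
  have pw : 0 < (1 + 1 / C) ^ i := by positivity
  have fin1 : (1 + 1 / C) ^ i * ((A + B) / p ^ 2) ≤ C * (2 * (A + B)) := by
    calc (1 + 1 / C) ^ i * ((A + B) / p ^ 2) ≤ (1 + 1 / C) ^ i * (f N + f (N + 1)) :=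
          mul_le_mul_of_nonneg_left low pw.le
      _ ≤ _ := hg
      _ ≤ _ := by
          apply mul_le_mul_of_nonneg_left _ hC0.le
          rw [f0, f2N]
          linarith
  have fin2 : (1 + 1 / C) ^ i ≤ 2 * C * p ^ 2 := by
    have hp2 : 0 < p ^ 2 := by positivity
    rw [mul_div_assoc', div_le_iff₀ hp2] at fin1
    have : (1 + 1 / C) ^ i * (A + B) ≤ (2 * C * p ^ 2) * (A + B) := by linarith
    exact le_of_mul_le_mul_right this (by linarith)
  linarith

end Pool.Agent.W811.Fib
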