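import Pool.Agent.W811.Fib.Ratio

/-!
Arcs of states crossing the strip, sub-arcs, existence of all the itineraries.
-/

set_option autoImplicit false

namespace Pool.Agent.W811.Fib

open Set

lemma cross_sub1 {f : ℝ → ℝ} {l r a b : ℝ} (hlr : l ≤ r) (hf : ContinuousOn f (Icc l r))
    (hab : a < b) (h1 : f l ≤ a) (h2 : b ≤ f r) :
    ∃ l' r', l ≤ l' ∧ l' ≤ r' ∧ r' ≤ r ∧ f l' = a ∧ f r' = b ∧
      ∀ E ∈ Icc l' r', a ≤ f E ∧ f E ≤ b := by
  have c1 : IsCompact (Icc l r ∩ f ⁻¹' Ici b) :=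
    isCompact_Icc.of_isClosed_subset (hf.preimage_isClosed_of_isClosed isClosed_Icc isClosed_Ici)
      inter_subset_left
  obtain ⟨r', ⟨⟨hr1, hr2⟩, hr3⟩, hr4⟩ := c1.exists_isLeast ⟨r, ⟨hlr, le_refl _⟩, h2⟩
  have hr3' : b ≤ f r' := hr3
  have f1 : ContinuousOn f (Icc l r') := hf.mono (Icc_subset_Icc_right hr2)
  have fr : f r' = b := by
    obtain ⟨t, ht, ht2⟩ := intermediate_value_Icc hr1 f1 ⟨by linarith, hr3'⟩
    have h3 : r' ≤ t := hr4 ⟨⟨ht.1, ht.2.trans hr2⟩, by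
      change b ≤ f t; rw [ht2]⟩
    rw [le_antisymm h3 ht.2]; exact ht2
  have c2 : IsCompact (Icc l r' ∩ f ⁻¹' Iic a) :=
    isCompact_Icc.of_isClosed_subset (f1.preimage_isClosed_of_isClosed isClosed_Icc isClosed_Iic)
      inter_subset_left
  obtain ⟨l', ⟨⟨hl1, hl2⟩, hl3⟩, hl4⟩ := c2.exists_isGreatest ⟨l, ⟨le_refl _, hr1⟩, h1⟩
  have hl3' : f l' ≤ a := hl3
  have fl : f l' = a := by
    obtain ⟨t, ht, ht2⟩ := intermediate_value_Icc hl2 (f1.mono (Icc_subset_Icc_left hl1))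
      ⟨hl3', by linarith⟩
    have h3 : t ≤ l' := hl4 ⟨⟨hl1.trans ht.1, ht.2⟩, by
      change f t ≤ a; rw [ht2]⟩
    rw [le_antisymm ht.1 h3]; exact ht2
  refine ⟨l', r', hl1, hl2, hr2, fl, fr, ?_⟩
  intro E hE
  constructor
  · by_contra hc
    push Not at hc
    have : E ≤ l' := hl4 ⟨⟨hl1.trans hE.1, hE.2⟩, hc.le⟩
    have : E = l' := le_antisymm this hE.1
    rw [this, fl] at hc
    exact lt_irrefl _ hc
  · by_contra hc
    push Not at hc
    have : r' ≤ E := hr4 ⟨⟨(hl1.trans hE.1), hE.2.trans hr2⟩, hc.le⟩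
    have : E = r' := le_antisymm hE.2 this
    rw [this, fr] at hc
    exact lt_irrefl _ hc

lemma cross_sub {f : ℝ → ℝ} {l r a b : ℝ} (hlr : l ≤ r) (hf : ContinuousOn f (Icc l r))
    (hab : a < b) (h : (f l ≤ a ∧ b ≤ f r) ∨ (b ≤ f l ∧ f r ≤ a)) :
    ∃ l' r', l ≤ l' ∧ l' ≤ r' ∧ r' ≤ r ∧ ((f l' = a ∧ f r' = b) ∨ (f l' = b ∧ f r' = a)) ∧
      ∀ E ∈ Icc l' r', a ≤ f E ∧ f E ≤ b := by
  rcases h with ⟨h1, h2⟩ | ⟨h1, h2⟩
  · obtain ⟨l', r', k1, k2, k3, k4, k5, k6⟩ := cross_sub1 hlr hf hab h1 h2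
    exact ⟨l', r', k1, k2, k3, Or.inl ⟨k4, k5⟩, k6⟩
  · obtain ⟨l', r', k1, k2, k3, k4, k5, k6⟩ := cross_sub1 (f := fun E => -f E) (a := -b)
      (b := -a) hlr hf.neg (by linarith) (by simpa using h1) (by simpa using h2)
    refine ⟨l', r', k1, k2, k3, Or.inr ⟨by linarith, by linarith⟩, ?_⟩
    intro E hE
    obtain ⟨m1, m2⟩ := k6 E hE
    constructor <;> linarith

/-- an arc of states crossing the strip `|y| ≤ 1` -/
structure Arc (R B : ℝ) (g : ℝ → P3) (l r : ℝ) : Prop where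
  lr : l ≤ r
  cu : ContinuousOn (fun E => (g E).u) (Icc l r)
  cx : ContinuousOn (fun E => (g E).x) (Icc l r)
  cy : ContinuousOn (fun E => (g E).y) (Icc l r)
  reg : ∀ E ∈ Icc l r, Reg R (g E)
  bnd : ∀ E ∈ Icc l r, inv (g E) ≤ (B - 1) ^ 2
  sgn : ∀ E ∈ Icc l r, ∀ E' ∈ Icc l r, 0 < (g E).x * (g E').x
  cone : ∀ E ∈ Icc l r, ∀ E' ∈ Icc l r, Cone (g E) (g E')
  lip : ∃ C, 0 < C ∧ ∀ E ∈ Icc l r, ∀ E' ∈ Icc l r,
    |(g E).y - (g E').y| ≤ C * |E - E'| ∧ |E - E'| ≤ C * |(g E).y - (g E').y|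
  cross : ((g l).y = -1 ∧ (g r).y = 1) ∨ ((g l).y = 1 ∧ (g r).y = -1)

/-- the parameters with an infinite itinerary -/
def Lam (g : ℝ → P3) (l r : ℝ) : Set ℝ := {E | E ∈ Icc l r ∧ ∃ c, FollAll c (g E)}

lemma contB {g : ℝ → P3} {s : Set ℝ} (cu : ContinuousOn (fun E => (g E).u) s)
    (cx : ContinuousOn (fun E => (g E).x) s) (cy : ContinuousOn (fun E => (g E).y) s) :
    ContinuousOn (fun E => (stepB (g E)).u) s ∧ ContinuousOn (fun E => (stepB (g E)).x) s ∧
      ContinuousOn (fun E => (stepB (g E)).y) s := by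
  simp only [stepB]
  refine ⟨cy, ?_, ?_⟩ <;> fun_prop

lemma contA {g : ℝ → P3} {s : Set ℝ} (cu : ContinuousOn (fun E => (g E).u) s)
    (cx : ContinuousOn (fun E => (g E).x) s) (cy : ContinuousOn (fun E => (g E).y) s) :
    ContinuousOn (fun E => (stepA (g E)).u) s ∧ ContinuousOn (fun E => (stepA (g E)).x) s ∧
      ContinuousOn (fun E => (stepA (g E)).y) s := by
  simp only [stepA]
  refine ⟨?_, ?_, ?_⟩ <;> fun_prop

/-- the states of an arc are all on the same side -/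
lemma Arc.side {R B : ℝ} {g : ℝ → P3} {l r : ℝ} (h : Arc R B g l r) (hR : 100 ≤ R) :
    (∀ E ∈ Icc l r, 100 ≤ (g E).x) ∨ (∀ E ∈ Icc l r, (g E).x ≤ -100) := by
  have hl : l ∈ Icc l r := ⟨le_refl _, h.lr⟩
  rcases le_or_gt 0 (g l).x with h1 | h1
  · left
    intro E hE
    have h2 := h.sgn l hl E hE
    have h3 : 0 < (g E).x := by
      by_contra hc; push Not at hc; nlinarith
    have h4 := (h.reg E hE).x_ge (by linarith)
    rw [abs_of_pos h3] at h4
    linarith
  · right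
    intro E hE
    have h2 := h.sgn l hl E hE
    have h3 : (g E).x < 0 := by
      by_contra hc; push Not at hc; nlinarith
    have h4 := (h.reg E hE).x_ge (by linarith)
    rw [abs_of_neg h3] at h4
    linarith

/-- the sub-arc for a symbol, raw form -/
lemma Arc.sub_raw {R B : ℝ} {g : ℝ → P3} {l r : ℝ} (h : Arc R B g l r) (hR : 100 ≤ R)
    (c : Sym) : ∃ l' r', l ≤ l' ∧ l' ≤ r' ∧ r' ≤ r ∧ (∀ E ∈ Icc l' r', Adm c (g E)) ∧
      ContinuousOn (fun E => (step c (g E)).u) (Icc l r) ∧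
      ContinuousOn (fun E => (step c (g E)).x) (Icc l r) ∧
      ContinuousOn (fun E => (step c (g E)).y) (Icc l r) ∧
      (((step c (g l')).y = -1 ∧ (step c (g r')).y = 1) ∨
        ((step c (g l')).y = 1 ∧ (step c (g r')).y = -1)) := by
  obtain ⟨b1, b2, b3⟩ := contB h.cu h.cx h.cy
  obtain ⟨a1, a2, a3⟩ := contA h.cu h.cx h.cy
  have hside := h.side hR
  have eB : ∀ s : P3, (stepB s).y = s.x * (4 * s.y ^ 2 - 1) - 2 * s.u * s.y := by
    intro s; simp only [stepB]; ring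
  cases c
  · -- `a`
    obtain ⟨l1, r1, k1, k2, k3, k4, k5⟩ := cross_sub (a := -0.02) (b := 0.02) h.lr h.cy
      (by norm_num) (by
        rcases h.cross with ⟨q1, q2⟩ | ⟨q1, q2⟩
        · left; rw [q1, q2]; norm_num
        · right; rw [q1, q2]; norm_num)
    have hl1 : l1 ∈ Icc l r := ⟨k1, k2.trans k3⟩
    have hr1 : r1 ∈ Icc l r := ⟨k1.trans k2, k3⟩
    have ul := abs_le.1 (h.reg l1 hl1).hu
    have ur := abs_le.1 (h.reg r1 hr1).hu
    have sub1 : Icc l1 r1 ⊆ Icc l r := Icc_subset_Icc k1 k3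
    obtain ⟨l2, r2, m1, m2, m3, m4, m5⟩ := cross_sub (f := fun E => (stepA (g E)).u)
      (a := -0.02) (b := 0.02) k2 (a1.mono sub1) (by norm_num) (by
        simp only [stepA]
        rcases hside with hs | hs
        · have x1 := hs l1 hl1
          have x2 := hs r1 hr1
          rcases k4 with ⟨q1, q2⟩ | ⟨q1, q2⟩
          · left; rw [q1, q2]; constructor <;> nlinarith
          · right; rw [q1, q2]; constructor <;> nlinarith
        · have x1 := hs l1 hl1
          have x2 := hs r1 hr1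
          rcases k4 with ⟨q1, q2⟩ | ⟨q1, q2⟩
          · right; rw [q1, q2]; constructor <;> nlinarith
          · left; rw [q1, q2]; constructor <;> nlinarith)
    have hl2' : l2 ∈ Icc l1 r1 := ⟨m1, m2.trans m3⟩
    have hr2' : r2 ∈ Icc l1 r1 := ⟨m1.trans m2, m3⟩
    have hl2 := sub1 hl2'
    have hr2 := sub1 hr2'
    have sub2 : Icc l2 r2 ⊆ Icc l r := (Icc_subset_Icc m1 m3).trans sub1
    have yl := k5 l2 hl2'
    have yr := k5 r2 hr2'
    have eA : ∀ s : P3, (stepA s).y =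
      2 * (2 * s.y * (stepA s).u - s.x) * (stepA s).u - s.y := fun s => rfl
    obtain ⟨l3, r3, n1, n2, n3, n4, n5⟩ := cross_sub (f := fun E => (stepA (g E)).y)
      (a := -1) (b := 1) m2 (a3.mono sub2) (by norm_num) (by
        simp only [eA]
        rcases hside with hs | hs
        · have x1 := hs l2 hl2
          have x2 := hs r2 hr2
          rcases m4 with ⟨q1, q2⟩ | ⟨q1, q2⟩
          · right; rw [q1, q2]; constructor <;> nlinarith
          · left; rw [q1, q2]; constructor <;> nlinarith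
        · have x1 := hs l2 hl2
          have x2 := hs r2 hr2
          rcases m4 with ⟨q1, q2⟩ | ⟨q1, q2⟩
          · left; rw [q1, q2]; constructor <;> nlinarith
          · right; rw [q1, q2]; constructor <;> nlinarith)
    refine ⟨l3, r3, k1.trans (m1.trans n1), n2, n3.trans (m3.trans k3), ?_, a1, a2, a3, n4⟩
    intro E hE
    have hE2 : E ∈ Icc l2 r2 := ⟨n1.trans hE.1, hE.2.trans n3⟩
    have z1 := m5 E hE2
    have z2 := n5 E hE
    refine ⟨?_, abs_le.2 z2⟩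
    change |(stepA (g E)).u| ≤ 1
    rw [abs_le]
    constructor <;> linarith [z1.1, z1.2]
  · -- `p`
    obtain ⟨l1, r1, k1, k2, k3, k4, k5⟩ := cross_sub (a := 0.49) (b := 0.51) h.lr h.cy
      (by norm_num) (by
        rcases h.cross with ⟨q1, q2⟩ | ⟨q1, q2⟩
        · left; rw [q1, q2]; norm_num
        · right; rw [q1, q2]; norm_num)
    have hl1 : l1 ∈ Icc l r := ⟨k1, k2.trans k3⟩
    have hr1 : r1 ∈ Icc l r := ⟨k1.trans k2, k3⟩
    have ul := abs_le.1 (h.reg l1 hl1).hu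
    have ur := abs_le.1 (h.reg r1 hr1).hu
    have sub1 : Icc l1 r1 ⊆ Icc l r := Icc_subset_Icc k1 k3
    obtain ⟨l2, r2, m1, m2, m3, m4, m5⟩ := cross_sub (f := fun E => (stepB (g E)).y)
      (a := -1) (b := 1) k2 (b3.mono sub1) (by norm_num) (by
        simp only [eB]
        rcases hside with hs | hs
        · have x1 := hs l1 hl1
          have x2 := hs r1 hr1
          rcases k4 with ⟨q1, q2⟩ | ⟨q1, q2⟩
          · left; rw [q1, q2]; constructor <;> nlinarith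
          · right; rw [q1, q2]; constructor <;> nlinarith
        · have x1 := hs l1 hl1
          have x2 := hs r1 hr1
          rcases k4 with ⟨q1, q2⟩ | ⟨q1, q2⟩
          · right; rw [q1, q2]; constructor <;> nlinarith
          · left; rw [q1, q2]; constructor <;> nlinarith)
    refine ⟨l2, r2, k1.trans m1, m2, m3.trans k3, ?_, b1, b2, b3, m4⟩
    intro E hE
    have hE1 : E ∈ Icc l1 r1 := ⟨m1.trans hE.1, hE.2.trans m3⟩
    have z1 := k5 E hE1
    have z2 := m5 E hE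
    exact ⟨by linarith [z1.1], abs_le.2 z2⟩
  · -- `m`
    obtain ⟨l1, r1, k1, k2, k3, k4, k5⟩ := cross_sub (a := -0.51) (b := -0.49) h.lr h.cy
      (by norm_num) (by
        rcases h.cross with ⟨q1, q2⟩ | ⟨q1, q2⟩
        · left; rw [q1, q2]; norm_num
        · right; rw [q1, q2]; norm_num)
    have hl1 : l1 ∈ Icc l r := ⟨k1, k2.trans k3⟩
    have hr1 : r1 ∈ Icc l r := ⟨k1.trans k2, k3⟩
    have ul := abs_le.1 (h.reg l1 hl1).hu
    have ur := abs_le.1 (h.reg r1 hr1).hu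
    have sub1 : Icc l1 r1 ⊆ Icc l r := Icc_subset_Icc k1 k3
    obtain ⟨l2, r2, m1, m2, m3, m4, m5⟩ := cross_sub (f := fun E => (stepB (g E)).y)
      (a := -1) (b := 1) k2 (b3.mono sub1) (by norm_num) (by
        simp only [eB]
        rcases hside with hs | hs
        · have x1 := hs l1 hl1
          have x2 := hs r1 hr1
          rcases k4 with ⟨q1, q2⟩ | ⟨q1, q2⟩
          · right; rw [q1, q2]; constructor <;> nlinarith
          · left; rw [q1, q2]; constructor <;> nlinarith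
        · have x1 := hs l1 hl1
          have x2 := hs r1 hr1
          rcases k4 with ⟨q1, q2⟩ | ⟨q1, q2⟩
          · left; rw [q1, q2]; constructor <;> nlinarith
          · right; rw [q1, q2]; constructor <;> nlinarith)
    refine ⟨l2, r2, k1.trans m1, m2, m3.trans k3, ?_, b1, b2, b3, m4⟩
    intro E hE
    have hE1 : E ∈ Icc l1 r1 := ⟨m1.trans hE.1, hE.2.trans m3⟩
    have z1 := k5 E hE1
    have z2 := m5 E hE
    exact ⟨by linarith [z1.2], abs_le.2 z2⟩

/-- the sub-arc for a symbol -/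
lemma Arc.sub {R B : ℝ} {g : ℝ → P3} {l r : ℝ} (h : Arc R B g l r) (hR : 100 ≤ R)
    (hB : 100 ≤ B) (c : Sym) : ∃ l' r', l ≤ l' ∧ l' ≤ r' ∧ r' ≤ r ∧
      (∀ E ∈ Icc l' r', Adm c (g E)) ∧ Arc R B (fun E => step c (g E)) l' r' := by
  obtain ⟨l', r', h1, h2, h3, h4, h5, h6, h7, h8⟩ := h.sub_raw hR c
  have hsub : Icc l' r' ⊆ Icc l r := Icc_subset_Icc h1 h3
  refine ⟨l', r', h1, h2, h3, h4, ⟨h2, h5.mono hsub, h6.mono hsub, h7.mono hsub, ?_, ?_, ?_, ?_,
    ?_, h8⟩⟩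
  · intro E hE; exact (h.reg E (hsub hE)).step (h4 E hE)
  · intro E hE
    change inv (step c (g E)) ≤ _
    rw [inv_step]; exact h.bnd E (hsub hE)
  · intro E hE E' hE'
    exact sign_step hR (h.reg E (hsub hE)) (h.reg E' (hsub hE')) (h4 E hE) (h4 E' hE')
      (h.sgn E (hsub hE) E' (hsub hE'))
  · intro E hE E' hE'
    exact ((h.cone E (hsub hE) E' (hsub hE')).step hR (h.reg E (hsub hE)) (h.reg E' (hsub hE'))
      (h4 E hE) (h4 E' hE') (h.sgn E (hsub hE) E' (hsub hE'))).1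
  · obtain ⟨C, hC, hC2⟩ := h.lip
    refine ⟨200 * B ^ 2 * C, by positivity, ?_⟩
    intro E hE E' hE'
    obtain ⟨q1, q2⟩ := hC2 E (hsub hE) E' (hsub hE')
    have rE := h.reg E (hsub hE)
    have rE' := h.reg E' (hsub hE')
    have sg := h.sgn E (hsub hE) E' (hsub hE')
    have co := h.cone E (hsub hE) E' (hsub hE')
    constructor
    · have := lip_step co hR rE rE' sg (by linarith : 1 ≤ B)
        (rE.x_le (by linarith) (h.bnd E (hsub hE)))
        (rE'.x_le (by linarith) (h.bnd E' (hsub hE'))) (h4 E hE) (h4 E' hE')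
      refine this.trans ?_
      rw [mul_assoc (200 * B ^ 2)]
      exact mul_le_mul_of_nonneg_left q1 (by positivity)
    · have k := (co.step hR rE rE' (h4 E hE) (h4 E' hE') sg).2
      have k2 : |(g E).y - (g E').y| ≤ |(step c (g E)).y - (step c (g E')).y| := by
        refine le_trans ?_ k
        have := abs_nonneg ((g E).y - (g E').y)
        nlinarith
      refine q2.trans ?_
      have k3 : C * |(g E).y - (g E').y| ≤ C * |(step c (g E)).y - (step c (g E')).y| :=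
        mul_le_mul_of_nonneg_left k2 hC.le
      refine k3.trans ?_
      have k4 : 0 ≤ C * |(step c (g E)).y - (step c (g E')).y| := by positivity
      have k5 : 1 ≤ 200 * B ^ 2 := by nlinarith
      calc C * |(step c (g E)).y - (step c (g E')).y| = 1 * (C *
            |(step c (g E)).y - (step c (g E')).y|) := by ring
        _ ≤ 200 * B ^ 2 * (C * |(step c (g E)).y - (step c (g E')).y|) :=
            mul_le_mul_of_nonneg_right k5 k4
        _ = _ := by ring

/-- every itinerary is realised on an arc -/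
theorem Arc.exists_itin {R B : ℝ} {g : ℝ → P3} {l r : ℝ} (h : Arc R B g l r) (hR : 100 ≤ R)
    (hB : 100 ≤ B) (c : ℕ → Sym) : ∃ E ∈ Icc l r, FollAll c (g E) := by
  classical
  have hstep : ∀ (n : ℕ) (p : {p : ℝ × ℝ // Arc R B (fun E => orb c n (g E)) p.1 p.2}),
      ∃ q : {p : ℝ × ℝ // Arc R B (fun E => orb c (n + 1) (g E)) p.1 p.2},
        p.1.1 ≤ q.1.1 ∧ q.1.2 ≤ p.1.2 ∧ ∀ E ∈ Icc q.1.1 q.1.2, Adm (c n) (orb c n (g E)) := by
    intro n p
    obtain ⟨l', r', h1, h2, h3, h4, h5⟩ := p.2.sub hR hB (c n)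
    exact ⟨⟨(l', r'), h5⟩, h1, h3, h4⟩
  choose nxt n1 n2 n3 using hstep
  let P : (n : ℕ) → {p : ℝ × ℝ // Arc R B (fun E => orb c n (g E)) p.1 p.2} := fun n =>
    Nat.rec (motive := fun n => {p : ℝ × ℝ // Arc R B (fun E => orb c n (g E)) p.1 p.2})
      ⟨(l, r), h⟩ (fun n p => nxt n p) n
  have P1 : ∀ n, P (n + 1) = nxt n (P n) := fun n => rfl
  have mono : ∀ n, Icc (P (n + 1)).1.1 (P (n + 1)).1.2 ⊆ Icc (P n).1.1 (P n).1.2 := by
    intro n
    rw [P1]
    exact Icc_subset_Icc (n1 n (P n)) (n2 n (P n))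
  obtain ⟨E, hE⟩ := IsCompact.nonempty_iInter_of_sequence_nonempty_isCompact_isClosed
    (fun n => Icc (P n).1.1 (P n).1.2) mono (fun n => nonempty_Icc.2 (P n).2.lr) isCompact_Icc
    (fun n => isClosed_Icc)
  rw [mem_iInter] at hE
  refine ⟨E, hE 0, ?_⟩
  intro k
  apply n3 k (P k)
  have := hE (k + 1)
  rwa [P1] at this

end Pool.Agent.W811.Fib
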