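import Pool.Agent.W811.Fib.DimEst
import Pool.Agent.W811.Fib.Cyc

/-!
The three clusters of the spectrum for large `p` and `|q| ≤ 1`.
-/

set_option autoImplicit false

namespace Pool.Agent.W811.Fib

open Set
open Pool.Agent.Helper434.PSCplx (L2)

lemma inv_sq_succ {Z : ℕ → ℝ} (h : TRec Z) (k : ℕ) : inv (sq Z (k + 1)) = inv (sq Z k) := by
  have h1 := h k
  simp only [inv, sq]
  rw [show k + 1 + 2 = k + 3 by ring, show k + 1 + 1 = k + 2 by ring, h1]
  ring

lemma inv_st {p : ℝ} (hp : p ≠ 0) (q E : ℝ) (k : ℕ) : inv (st p q E k) = V p q E := by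
  induction k with
  | zero => exact inv_st_zero hp q E
  | succ k ih => rw [← ih]; exact inv_sq_succ (X_trec hp q E) k

lemma V_bounds {p q E : ℝ} (hp : 1000 ≤ p) (hq : |q| ≤ 1) (hE : |E| ≤ p + 2) :
    (p / 4 + 2) ^ 2 ≤ V p q E ∧ V p q E ≤ p ^ 2 := by
  obtain ⟨q1, q2⟩ := abs_le.1 hq
  have hp2 : 0 < p ^ 2 := by positivity
  have hp1 : 0 ≤ p ^ 2 - 1 := by nlinarith
  have hqE : |q * E| ≤ p + 2 := by
    rw [abs_mul]
    calc |q| * |E| ≤ 1 * (p + 2) := mul_le_mul hq hE (abs_nonneg _) zero_le_one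
      _ = _ := one_mul _
  obtain ⟨e1, e2⟩ := abs_le.1 hqE
  have k1 : q * (p ^ 2 - 1) * E = (p ^ 2 - 1) * (q * E) := by ring
  have k2 : (p ^ 2 - 1) * (q * E) ≤ p ^ 2 * (p + 2) := by
    calc (p ^ 2 - 1) * (q * E) ≤ (p ^ 2 - 1) * (p + 2) := mul_le_mul_of_nonneg_left e2 hp1
      _ ≤ _ := by nlinarith
  have k3 : -(p ^ 2 * (p + 2)) ≤ (p ^ 2 - 1) * (q * E) := by
    have : (p ^ 2 - 1) * (-(p + 2)) ≤ (p ^ 2 - 1) * (q * E) := mul_le_mul_of_nonneg_left e1 hp1
    nlinarith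
  have qq : q ^ 2 ≤ 1 := by nlinarith
  unfold V
  rw [k1]
  constructor
  · have : (p / 4 + 2) ^ 2 - 1 ≤ ((p ^ 2 - 1) * (q * E) + q ^ 2 + (p ^ 2 - 1) ^ 2) / (4 * p ^ 2) := by
      rw [le_div_iff₀ (by positivity)]
      nlinarith [sq_nonneg q, mul_pos hp2 hp2]
    linarith
  · have : ((p ^ 2 - 1) * (q * E) + q ^ 2 + (p ^ 2 - 1) ^ 2) / (4 * p ^ 2) ≤ p ^ 2 - 1 := by
      rw [div_le_iff₀ (by positivity)]
      nlinarith [sq_nonneg q, mul_pos hp2 hp2]
    linarith

lemma V_lip {p q : ℝ} (hp : 1000 ≤ p) (hq : |q| ≤ 1) (E E' : ℝ) :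
    |V p q E - V p q E'| ≤ |E - E'| / 4 := by
  have e : V p q E - V p q E' = (q * ((p ^ 2 - 1) / p ^ 2)) * ((E - E') / 4) := by
    unfold V
    field_simp
    ring
  rw [e, abs_mul, abs_mul, abs_div (E - E') 4, abs_of_pos (by norm_num : (0 : ℝ) < 4)]
  have h1 : |(p ^ 2 - 1) / p ^ 2| ≤ 1 := by
    rw [abs_le]
    have hp2 : 0 < p ^ 2 := by positivity
    constructor
    · rw [le_div_iff₀ hp2]; nlinarith
    · rw [div_le_iff₀ hp2]; nlinarith
  have h2 : |q| * |(p ^ 2 - 1) / p ^ 2| ≤ 1 * 1 :=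
    mul_le_mul hq h1 (abs_nonneg _) zero_le_one
  have h3 : 0 ≤ |E - E'| / 4 := by positivity
  calc _ ≤ (1 * 1) * (|E - E'| / 4) := mul_le_mul_of_nonneg_right h2 h3
    _ = _ := by ring

lemma mkArc {p q : ℝ} (hp : 1000 ≤ p) (hq : |q| ≤ 1) (k : ℕ) {l r C : ℝ} (hlr : l ≤ r)
    (hu : ∀ E ∈ Icc l r, |X p q E k| ≤ 1) (hy : ∀ E ∈ Icc l r, |X p q E (k + 2)| ≤ 1)
    (hE : ∀ E ∈ Icc l r, |E| ≤ p + 2)
    (hs : (∀ E ∈ Icc l r, 0 < X p q E (k + 1)) ∨ (∀ E ∈ Icc l r, X p q E (k + 1) < 0))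
    (hC : 2 ≤ C)
    (du : ∀ E ∈ Icc l r, ∀ E' ∈ Icc l r, |X p q E k - X p q E' k| ≤ |E - E'| / 2)
    (dl : ∀ E ∈ Icc l r, ∀ E' ∈ Icc l r, |E - E'| ≤ 2 * |X p q E (k + 2) - X p q E' (k + 2)|)
    (dr : ∀ E ∈ Icc l r, ∀ E' ∈ Icc l r, |X p q E (k + 2) - X p q E' (k + 2)| ≤ C * |E - E'|)
    (hc : (X p q l (k + 2) = -1 ∧ X p q r (k + 2) = 1) ∨
      (X p q l (k + 2) = 1 ∧ X p q r (k + 2) = -1)) :
    Arc (p / 4) (p + 1) (fun E => st p q E k) l r := by
  have hp0 : p ≠ 0 := by linarith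
  refine ⟨hlr, (X_cont hp0 q k).continuousOn, (X_cont hp0 q (k + 1)).continuousOn,
    (X_cont hp0 q (k + 2)).continuousOn, ?_, ?_, ?_, ?_, ?_, hc⟩
  · intro E h
    refine ⟨hu E h, hy E h, ?_⟩
    rw [inv_st hp0]
    exact (V_bounds hp hq (hE E h)).1
  · intro E h
    rw [inv_st hp0, show p + 1 - 1 = p by ring]
    exact (V_bounds hp hq (hE E h)).2
  · intro E h E' h'
    rcases hs with hs | hs
    · exact mul_pos (hs E h) (hs E' h')
    · exact mul_pos_of_neg_of_neg (hs E h) (hs E' h')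
  · intro E h E' h'
    have a1 := du E h E' h'
    have a2 := dl E h E' h'
    refine ⟨?_, ?_⟩
    · change |X p q E k - X p q E' k| ≤ |X p q E (k + 2) - X p q E' (k + 2)|
      linarith
    · rw [inv_st hp0, inv_st hp0]
      change _ ≤ |X p q E (k + 2) - X p q E' (k + 2)|
      have a3 := V_lip hp hq E E'
      have := abs_nonneg (E - E')
      linarith
  · refine ⟨C, by linarith, ?_⟩
    intro E h E' h'
    refine ⟨dr E h E' h', ?_⟩
    refine (dl E h E' h').trans ?_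
    exact mul_le_mul_of_nonneg_right hC (abs_nonneg _)

/-- the clusters -/
structure Clus (p q lp rp lm rm lo ro : ℝ) : Prop where
  ap : Arc (p / 4) (p + 1) (fun E => st p q E 0) lp rp
  am : Arc (p / 4) (p + 1) (fun E => st p q E 0) lm rm
  ao : Arc (p / 4) (p + 1) (fun E => st p q E 1) lo ro
  bp : ∀ E ∈ Icc lp rp, p - 2 ≤ E ∧ E ≤ p + 2
  bm : ∀ E ∈ Icc lm rm, -p - 2 ≤ E ∧ E ≤ -p + 2
  bo : ∀ E ∈ Icc lo ro, -2 ≤ E ∧ E ≤ 2
  all : ∀ E, (∀ k, ¬ Bad (X p q E) k) → E ∈ Lam (fun E => st p q E 0) lp rp ∪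
    Lam (fun E => st p q E 0) lm rm ∪ Lam (fun E => st p q E 1) lo ro

lemma X2_eq {p : ℝ} (hp : p ≠ 0) (q E : ℝ) :
    X p q E 2 * (2 * p) = E * (E - q) - p ^ 2 - 1 := by
  rw [X_two]; field_simp

lemma X2_diff {p : ℝ} (hp : p ≠ 0) (q E E' : ℝ) :
    (X p q E 2 - X p q E' 2) * (2 * p) = (E - E') * (E + E' - q) := by
  rw [sub_mul, X2_eq hp, X2_eq hp]; ring

lemma X3_eq {p : ℝ} (hp : p ≠ 0) (q E : ℝ) :
    X p q E 3 * (2 * p) = E * (E * (E - q) - p ^ 2 - 1) - (E - q) := by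
  rw [X_three hp, X_two]; field_simp

lemma X3_diff {p : ℝ} (hp : p ≠ 0) (q E E' : ℝ) :
    (X p q E 3 - X p q E' 3) * (2 * p) = (E - E') * (E ^ 2 + E * E' + E' ^ 2 - q * (E + E') -
      p ^ 2 - 2) := by
  rw [sub_mul, X3_eq hp, X3_eq hp]; ring

/-- the outer cluster on the right -/
lemma arc_p {p q : ℝ} (hp : 1000 ≤ p) (hq : |q| ≤ 1) : ∃ l r,
    Arc (p / 4) (p + 1) (fun E => st p q E 0) l r ∧
    (∀ E ∈ Icc l r, p - 2 ≤ E ∧ E ≤ p + 2) ∧
    ∀ E, 2 < E → |X p q E 2| ≤ 1 → E ∈ Icc l r := by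
  have hp0 : p ≠ 0 := by linarith
  have hpp : 0 < 2 * p := by linarith
  obtain ⟨q1, q2⟩ := abs_le.1 hq
  have mono : ∀ E E', p - 2 ≤ E → p - 2 ≤ E' → X p q E 2 < X p q E' 2 → E < E' := by
    intro E E' h1 h2 h
    by_contra hc
    push Not at hc
    have := X2_diff hp0 q E E'
    have h3 : (X p q E 2 - X p q E' 2) * (2 * p) < 0 := mul_neg_of_neg_of_pos (by linarith) hpp
    rw [this] at h3
    have : 0 ≤ (E - E') * (E + E' - q) := mul_nonneg (by linarith) (by linarith)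
    linarith
  have mono' : ∀ E E', p - 2 ≤ E → p - 2 ≤ E' → X p q E 2 ≤ X p q E' 2 → E ≤ E' := by
    intro E E' h1 h2 h
    by_contra hc
    push Not at hc
    have := X2_diff hp0 q E E'
    have h3 : (X p q E 2 - X p q E' 2) * (2 * p) ≤ 0 :=
      mul_nonpos_of_nonpos_of_nonneg (by linarith) hpp.le
    rw [this] at h3
    have : 0 < (E - E') * (E + E' - q) := mul_pos (by linarith) (by linarith)
    linarith
  have y1 : X p q (p - 2) 2 ≤ -1 := by
    have := X2_eq hp0 q (p - 2)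
    by_contra hc
    push Not at hc
    have h3 : -1 * (2 * p) < X p q (p - 2) 2 * (2 * p) := mul_lt_mul_of_pos_right hc hpp
    rw [this] at h3
    nlinarith
  have y2 : 1 ≤ X p q (p + 2) 2 := by
    have := X2_eq hp0 q (p + 2)
    by_contra hc
    push Not at hc
    have h3 : X p q (p + 2) 2 * (2 * p) < 1 * (2 * p) := mul_lt_mul_of_pos_right hc hpp
    rw [this] at h3
    nlinarith
  have cont := (X_cont hp0 q 2).continuousOn (s := Icc (p - 2) (p + 2))
  obtain ⟨l, hl, hl2⟩ := intermediate_value_Icc (by linarith : p - 2 ≤ p + 2) cont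
    (show (-1 : ℝ) ∈ Icc (X p q (p - 2) 2) (X p q (p + 2) 2) from ⟨y1, by linarith⟩)
  obtain ⟨r, hr, hr2⟩ := intermediate_value_Icc (by linarith : p - 2 ≤ p + 2) cont
    (show (1 : ℝ) ∈ Icc (X p q (p - 2) 2) (X p q (p + 2) 2) from ⟨by linarith, y2⟩)
  simp only at hl2 hr2
  have hlr : l ≤ r := mono' l r hl.1 hr.1 (by rw [hl2, hr2]; norm_num)
  have rng : ∀ E ∈ Icc l r, p - 2 ≤ E ∧ E ≤ p + 2 := fun E hE =>
    ⟨hl.1.trans hE.1, hE.2.trans hr.2⟩
  refine ⟨l, r, mkArc hp hq 0 (C := 2) hlr ?_ ?_ ?_ ?_ (le_refl _) ?_ ?_ ?_ (Or.inl ⟨hl2, hr2⟩),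
    rng, ?_⟩
  · intro E hE
    obtain ⟨e1, e2⟩ := rng E hE
    rw [X_zero, abs_div, abs_div, abs_two, abs_of_pos (by linarith : 0 < p),
      abs_of_pos (by linarith : 0 < E - q), div_div, div_le_one (by positivity)]
    linarith
  · intro E hE
    obtain ⟨e1, e2⟩ := rng E hE
    rw [abs_le]
    constructor
    · by_contra hc
      push Not at hc
      have := mono E l e1 hl.1 (by rw [hl2]; exact hc)
      linarith [hE.1]
    · by_contra hc
      push Not at hc
      have := mono r E hr.1 e1 (by rw [hr2]; exact hc)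
      linarith [hE.2]
  · intro E hE
    obtain ⟨e1, e2⟩ := rng E hE
    rw [abs_of_pos (by linarith)]; exact e2
  · left
    intro E hE
    obtain ⟨e1, e2⟩ := rng E hE
    rw [X_one]; linarith
  · intro E hE E' hE'
    rw [X_zero, X_zero]
    have : (E - q) / p / 2 - (E' - q) / p / 2 = (E - E') / (2 * p) := by field_simp; ring
    rw [this, abs_div, abs_of_pos hpp]
    apply div_le_div_of_nonneg_left (abs_nonneg _) (by norm_num) (by linarith)
  · intro E hE E' hE'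
    obtain ⟨e1, e2⟩ := rng E hE
    obtain ⟨e3, e4⟩ := rng E' hE'
    have h1 := congrArg abs (X2_diff hp0 q E E')
    rw [abs_mul, abs_of_pos hpp, abs_mul, abs_of_pos (by linarith : 0 < E + E' - q)] at h1
    have h2 : |E - E'| * p ≤ |E - E'| * (E + E' - q) :=
      mul_le_mul_of_nonneg_left (by linarith) (abs_nonneg _)
    rw [← h1] at h2
    have h3 : |E - E'| * p ≤ (2 * |X p q E 2 - X p q E' 2|) * p := by linarith
    exact le_of_mul_le_mul_right h3 (by linarith)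
  · intro E hE E' hE'
    obtain ⟨e1, e2⟩ := rng E hE
    obtain ⟨e3, e4⟩ := rng E' hE'
    have h1 := congrArg abs (X2_diff hp0 q E E')
    rw [abs_mul, abs_of_pos hpp, abs_mul, abs_of_pos (by linarith : 0 < E + E' - q)] at h1
    have h2 : |E - E'| * (E + E' - q) ≤ |E - E'| * (4 * p) :=
      mul_le_mul_of_nonneg_left (by linarith) (abs_nonneg _)
    rw [← h1] at h2
    have h3 : |X p q E 2 - X p q E' 2| * (2 * p) ≤ (2 * |E - E'|) * (2 * p) := by linarith
    exact le_of_mul_le_mul_right h3 hpp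
  · intro E hE hy
    obtain ⟨m1, m2⟩ := abs_le.1 hy
    have e := X2_eq hp0 q E
    have b1 : E * (E - q) ≤ p ^ 2 + 1 + 2 * p := by nlinarith
    have b2 : p ^ 2 + 1 - 2 * p ≤ E * (E - q) := by nlinarith
    have c1 : p - 2 ≤ E := by
      by_contra hc
      push Not at hc
      nlinarith
    constructor
    · exact mono' l E hl.1 c1 (by rw [hl2]; exact m1)
    · exact mono' E r c1 hr.1 (by rw [hr2]; exact m2)

/-- the outer cluster on the left -/
lemma arc_m {p q : ℝ} (hp : 1000 ≤ p) (hq : |q| ≤ 1) : ∃ l r,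
    Arc (p / 4) (p + 1) (fun E => st p q E 0) l r ∧
    (∀ E ∈ Icc l r, -p - 2 ≤ E ∧ E ≤ -p + 2) ∧
    ∀ E, E < -2 → |X p q E 2| ≤ 1 → E ∈ Icc l r := by
  have hp0 : p ≠ 0 := by linarith
  have hpp : 0 < 2 * p := by linarith
  obtain ⟨q1, q2⟩ := abs_le.1 hq
  have mono : ∀ E E', E ≤ -p + 2 → E' ≤ -p + 2 → X p q E 2 < X p q E' 2 → E' < E := by
    intro E E' h1 h2 h
    by_contra hc
    push Not at hc
    have := X2_diff hp0 q E E'
    have h3 : (X p q E 2 - X p q E' 2) * (2 * p) < 0 := mul_neg_of_neg_of_pos (by linarith) hpp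
    rw [this] at h3
    have : 0 ≤ (E - E') * (E + E' - q) := mul_nonneg_of_nonpos_of_nonpos (by linarith) (by linarith)
    linarith
  have mono' : ∀ E E', E ≤ -p + 2 → E' ≤ -p + 2 → X p q E 2 ≤ X p q E' 2 → E' ≤ E := by
    intro E E' h1 h2 h
    by_contra hc
    push Not at hc
    have := X2_diff hp0 q E E'
    have h3 : (X p q E 2 - X p q E' 2) * (2 * p) ≤ 0 :=
      mul_nonpos_of_nonpos_of_nonneg (by linarith) hpp.le
    rw [this] at h3
    have : 0 < (E - E') * (E + E' - q) := mul_pos_of_neg_of_neg (by linarith) (by linarith)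
    linarith
  have y1 : 1 ≤ X p q (-p - 2) 2 := by
    have := X2_eq hp0 q (-p - 2)
    by_contra hc
    push Not at hc
    have h3 : X p q (-p - 2) 2 * (2 * p) < 1 * (2 * p) := mul_lt_mul_of_pos_right hc hpp
    rw [this] at h3
    nlinarith
  have y2 : X p q (-p + 2) 2 ≤ -1 := by
    have := X2_eq hp0 q (-p + 2)
    by_contra hc
    push Not at hc
    have h3 : -1 * (2 * p) < X p q (-p + 2) 2 * (2 * p) := mul_lt_mul_of_pos_right hc hpp
    rw [this] at h3
    nlinarith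
  have cont := (X_cont hp0 q 2).continuousOn (s := Icc (-p - 2) (-p + 2))
  obtain ⟨l, hl, hl2⟩ := intermediate_value_Icc' (by linarith : -p - 2 ≤ -p + 2) cont
    (show (1 : ℝ) ∈ Icc (X p q (-p + 2) 2) (X p q (-p - 2) 2) from ⟨by linarith, y1⟩)
  obtain ⟨r, hr, hr2⟩ := intermediate_value_Icc' (by linarith : -p - 2 ≤ -p + 2) cont
    (show (-1 : ℝ) ∈ Icc (X p q (-p + 2) 2) (X p q (-p - 2) 2) from ⟨y2, by linarith⟩)
  simp only at hl2 hr2
  have hlr : l ≤ r := mono' r l hr.2 hl.2 (by rw [hl2, hr2]; norm_num)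
  have rng : ∀ E ∈ Icc l r, -p - 2 ≤ E ∧ E ≤ -p + 2 := fun E hE =>
    ⟨hl.1.trans hE.1, hE.2.trans hr.2⟩
  refine ⟨l, r, mkArc hp hq 0 (C := 2) hlr ?_ ?_ ?_ ?_ (le_refl _) ?_ ?_ ?_ (Or.inr ⟨hl2, hr2⟩),
    rng, ?_⟩
  · intro E hE
    obtain ⟨e1, e2⟩ := rng E hE
    rw [X_zero, abs_div, abs_div, abs_two, abs_of_pos (by linarith : 0 < p),
      abs_of_neg (by linarith : E - q < 0), div_div, div_le_one (by positivity)]
    linarith
  · intro E hE
    obtain ⟨e1, e2⟩ := rng E hE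
    rw [abs_le]
    constructor
    · by_contra hc
      push Not at hc
      have := mono E r e2 hr.2 (by rw [hr2]; exact hc)
      linarith [hE.2]
    · by_contra hc
      push Not at hc
      have := mono l E hl.2 e2 (by rw [hl2]; exact hc)
      linarith [hE.1]
  · intro E hE
    obtain ⟨e1, e2⟩ := rng E hE
    rw [abs_of_neg (by linarith)]; linarith
  · right
    intro E hE
    obtain ⟨e1, e2⟩ := rng E hE
    rw [X_one]; linarith
  · intro E hE E' hE'
    rw [X_zero, X_zero]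
    have : (E - q) / p / 2 - (E' - q) / p / 2 = (E - E') / (2 * p) := by field_simp; ring
    rw [this, abs_div, abs_of_pos hpp]
    apply div_le_div_of_nonneg_left (abs_nonneg _) (by norm_num) (by linarith)
  · intro E hE E' hE'
    obtain ⟨e1, e2⟩ := rng E hE
    obtain ⟨e3, e4⟩ := rng E' hE'
    have h1 := congrArg abs (X2_diff hp0 q E E')
    rw [abs_mul, abs_of_pos hpp, abs_mul, abs_of_neg (by linarith : E + E' - q < 0)] at h1
    have h2 : |E - E'| * p ≤ |E - E'| * (-(E + E' - q)) :=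
      mul_le_mul_of_nonneg_left (by linarith) (abs_nonneg _)
    rw [← h1] at h2
    have h3 : |E - E'| * p ≤ (2 * |X p q E 2 - X p q E' 2|) * p := by linarith
    exact le_of_mul_le_mul_right h3 (by linarith)
  · intro E hE E' hE'
    obtain ⟨e1, e2⟩ := rng E hE
    obtain ⟨e3, e4⟩ := rng E' hE'
    have h1 := congrArg abs (X2_diff hp0 q E E')
    rw [abs_mul, abs_of_pos hpp, abs_mul, abs_of_neg (by linarith : E + E' - q < 0)] at h1
    have h2 : |E - E'| * (-(E + E' - q)) ≤ |E - E'| * (4 * p) :=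
      mul_le_mul_of_nonneg_left (by linarith) (abs_nonneg _)
    rw [← h1] at h2
    have h3 : |X p q E 2 - X p q E' 2| * (2 * p) ≤ (2 * |E - E'|) * (2 * p) := by linarith
    exact le_of_mul_le_mul_right h3 hpp
  · intro E hE hy
    obtain ⟨m1, m2⟩ := abs_le.1 hy
    have e := X2_eq hp0 q E
    have b1 : E * (E - q) ≤ p ^ 2 + 1 + 2 * p := by nlinarith
    have b2 : p ^ 2 + 1 - 2 * p ≤ E * (E - q) := by nlinarith
    have c1 : E ≤ -p + 2 := by
      by_contra hc
      push Not at hc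
      nlinarith
    constructor
    · exact mono' E l c1 hl.2 (by rw [hl2]; exact m2)
    · exact mono' r E hr.2 c1 (by rw [hr2]; exact m1)

/-- the central cluster -/
lemma arc_o {p q : ℝ} (hp : 1000 ≤ p) (hq : |q| ≤ 1) : ∃ l r,
    Arc (p / 4) (p + 1) (fun E => st p q E 1) l r ∧
    (∀ E ∈ Icc l r, -2 ≤ E ∧ E ≤ 2) ∧
    ∀ E, |E| ≤ 2 → |X p q E 3| ≤ 1 → E ∈ Icc l r := by
  have hp0 : p ≠ 0 := by linarith
  have hpp : 0 < 2 * p := by linarith
  obtain ⟨q1, q2⟩ := abs_le.1 hq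
  have slope : ∀ E E', -2 ≤ E → E ≤ 2 → -2 ≤ E' → E' ≤ 2 →
      E ^ 2 + E * E' + E' ^ 2 - q * (E + E') - p ^ 2 - 2 ≤ -(p * 900) ∧
      -(2 * p * p) ≤ E ^ 2 + E * E' + E' ^ 2 - q * (E + E') - p ^ 2 - 2 := by
    intro E E' h1 h2 h3 h4
    have a1 : E ^ 2 ≤ 4 := by nlinarith
    have a2 : E' ^ 2 ≤ 4 := by nlinarith
    have a3 : E * E' ≤ 4 := by nlinarith
    have a4 : -4 ≤ E * E' := by nlinarith
    have a5 : |q * (E + E')| ≤ 4 := by
      rw [abs_mul]
      have : |E + E'| ≤ 4 := by rw [abs_le]; constructor <;> linarith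
      calc |q| * |E + E'| ≤ 1 * 4 := mul_le_mul hq this (abs_nonneg _) zero_le_one
        _ = 4 := one_mul _
    obtain ⟨a6, a7⟩ := abs_le.1 a5
    constructor
    · nlinarith
    · nlinarith [sq_nonneg E, sq_nonneg E']
  have mono : ∀ E E', -2 ≤ E → E ≤ 2 → -2 ≤ E' → E' ≤ 2 → X p q E 3 < X p q E' 3 → E' < E := by
    intro E E' h1 h2 h3 h4 h
    by_contra hc
    push Not at hc
    have k := X3_diff hp0 q E E'
    have k2 : (X p q E 3 - X p q E' 3) * (2 * p) < 0 := mul_neg_of_neg_of_pos (by linarith) hpp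
    rw [k] at k2
    have := (slope E E' h1 h2 h3 h4).1
    have : 0 ≤ (E - E') * (E ^ 2 + E * E' + E' ^ 2 - q * (E + E') - p ^ 2 - 2) :=
      mul_nonneg_of_nonpos_of_nonpos (by linarith) (by linarith)
    linarith
  have mono' : ∀ E E', -2 ≤ E → E ≤ 2 → -2 ≤ E' → E' ≤ 2 → X p q E 3 ≤ X p q E' 3 → E' ≤ E := by
    intro E E' h1 h2 h3 h4 h
    by_contra hc
    push Not at hc
    have k := X3_diff hp0 q E E'
    have k2 : (X p q E 3 - X p q E' 3) * (2 * p) ≤ 0 :=
      mul_nonpos_of_nonpos_of_nonneg (by linarith) hpp.le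
    rw [k] at k2
    have := (slope E E' h1 h2 h3 h4).1
    have : 0 < (E - E') * (E ^ 2 + E * E' + E' ^ 2 - q * (E + E') - p ^ 2 - 2) :=
      mul_pos_of_neg_of_neg (by linarith) (by linarith)
    linarith
  have y1 : 1 ≤ X p q (-1) 3 := by
    have := X3_eq hp0 q (-1)
    by_contra hc
    push Not at hc
    have h3 : X p q (-1) 3 * (2 * p) < 1 * (2 * p) := mul_lt_mul_of_pos_right hc hpp
    rw [this] at h3
    nlinarith
  have y2 : X p q 1 3 ≤ -1 := by
    have := X3_eq hp0 q 1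
    by_contra hc
    push Not at hc
    have h3 : -1 * (2 * p) < X p q 1 3 * (2 * p) := mul_lt_mul_of_pos_right hc hpp
    rw [this] at h3
    nlinarith
  have cont := (X_cont hp0 q 3).continuousOn (s := Icc (-1 : ℝ) 1)
  obtain ⟨l, hl, hl2⟩ := intermediate_value_Icc' (by norm_num : (-1 : ℝ) ≤ 1) cont
    (show (1 : ℝ) ∈ Icc (X p q 1 3) (X p q (-1) 3) from ⟨by linarith, y1⟩)
  obtain ⟨r, hr, hr2⟩ := intermediate_value_Icc' (by norm_num : (-1 : ℝ) ≤ 1) cont
    (show (-1 : ℝ) ∈ Icc (X p q 1 3) (X p q (-1) 3) from ⟨y2, by linarith⟩)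
  simp only at hl2 hr2
  have ll : -2 ≤ l ∧ l ≤ 2 := ⟨by linarith [hl.1], by linarith [hl.2]⟩
  have rr : -2 ≤ r ∧ r ≤ 2 := ⟨by linarith [hr.1], by linarith [hr.2]⟩
  have hlr : l ≤ r := mono' r l rr.1 rr.2 ll.1 ll.2 (by rw [hl2, hr2]; norm_num)
  have rng : ∀ E ∈ Icc l r, -2 ≤ E ∧ E ≤ 2 := fun E hE =>
    ⟨ll.1.trans hE.1, hE.2.trans rr.2⟩
  refine ⟨l, r, mkArc hp hq 1 (C := 2 * p) hlr ?_ ?_ ?_ ?_ (by linarith) ?_ ?_ ?_
    (Or.inr ⟨hl2, hr2⟩), rng, ?_⟩
  · intro E hE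
    obtain ⟨e1, e2⟩ := rng E hE
    rw [X_one, abs_div, abs_two, div_le_one (by norm_num)]
    rw [abs_le]; constructor <;> linarith
  · intro E hE
    obtain ⟨e1, e2⟩ := rng E hE
    rw [abs_le]
    constructor
    · by_contra hc
      push Not at hc
      have := mono E r e1 e2 rr.1 rr.2 (by rw [hr2]; exact hc)
      linarith [hE.2]
    · by_contra hc
      push Not at hc
      have := mono l E ll.1 ll.2 e1 e2 (by rw [hl2]; exact hc)
      linarith [hE.1]
  · intro E hE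
    obtain ⟨e1, e2⟩ := rng E hE
    rw [abs_le]; constructor <;> linarith
  · right
    intro E hE
    obtain ⟨e1, e2⟩ := rng E hE
    by_contra hc
    push Not at hc
    have e := X2_eq hp0 q E
    have : 0 ≤ X p q E 2 * (2 * p) := mul_nonneg hc hpp.le
    rw [e] at this
    nlinarith
  · intro E hE E' hE'
    rw [X_one, X_one]
    have : E / 2 - E' / 2 = (E - E') / 2 := by ring
    rw [this, abs_div, abs_two]
  · intro E hE E' hE'
    obtain ⟨e1, e2⟩ := rng E hE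
    obtain ⟨e3, e4⟩ := rng E' hE'
    have s := slope E E' e1 e2 e3 e4
    have h1 := congrArg abs (X3_diff hp0 q E E')
    rw [abs_mul, abs_of_pos hpp, abs_mul,
      abs_of_neg (by linarith : E ^ 2 + E * E' + E' ^ 2 - q * (E + E') - p ^ 2 - 2 < 0)] at h1
    have h2 : |E - E'| * (p * 900) ≤ |E - E'| *
        (-(E ^ 2 + E * E' + E' ^ 2 - q * (E + E') - p ^ 2 - 2)) :=
      mul_le_mul_of_nonneg_left (by linarith) (abs_nonneg _)
    rw [← h1] at h2
    change |E - E'| ≤ 2 * |X p q E 3 - X p q E' 3|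
    have h3 : |E - E'| * p ≤ (2 * |X p q E 3 - X p q E' 3|) * p := by
      have : 0 ≤ |E - E'| * p := by positivity
      linarith
    exact le_of_mul_le_mul_right h3 (by linarith)
  · intro E hE E' hE'
    obtain ⟨e1, e2⟩ := rng E hE
    obtain ⟨e3, e4⟩ := rng E' hE'
    have s := slope E E' e1 e2 e3 e4
    have h1 := congrArg abs (X3_diff hp0 q E E')
    rw [abs_mul, abs_of_pos hpp, abs_mul,
      abs_of_neg (by linarith : E ^ 2 + E * E' + E' ^ 2 - q * (E + E') - p ^ 2 - 2 < 0)] at h1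
    have h2 : |E - E'| * (-(E ^ 2 + E * E' + E' ^ 2 - q * (E + E') - p ^ 2 - 2)) ≤
        |E - E'| * (2 * p * p) :=
      mul_le_mul_of_nonneg_left (by linarith) (abs_nonneg _)
    rw [← h1] at h2
    change |X p q E 3 - X p q E' 3| ≤ 2 * p * |E - E'|
    have h3 : |X p q E 3 - X p q E' 3| * (2 * p) ≤ (2 * p * |E - E'|) * (2 * p) := by
      have : 0 ≤ |E - E'| * (2 * p * p) := by positivity
      linarith
    exact le_of_mul_le_mul_right h3 hpp
  · intro E hE hy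
    obtain ⟨m1, m2⟩ := abs_le.1 hy
    obtain ⟨e1, e2⟩ := abs_le.1 hE
    constructor
    · exact mono' E l e1 e2 ll.1 ll.2 (by rw [hl2]; exact m2)
    · exact mono' r E rr.1 rr.2 e1 e2 (by rw [hr2]; exact m1)

/-- existence of the three clusters -/
theorem exists_clus {p q : ℝ} (hp : 1000 ≤ p) (hq : |q| ≤ 1) :
    ∃ lp rp lm rm lo ro, Clus p q lp rp lm rm lo ro := by
  have hp0 : p ≠ 0 := by linarith
  have hpp : 0 < 2 * p := by linarith
  obtain ⟨q1, q2⟩ := abs_le.1 hq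
  obtain ⟨lp, rp, ap, bp, cp⟩ := arc_p hp hq
  obtain ⟨lm, rm, am, bm, cm⟩ := arc_m hp hq
  obtain ⟨lo, ro, ao, bo, co⟩ := arc_o hp hq
  refine ⟨lp, rp, lm, rm, lo, ro, ap, am, ao, bp, bm, bo, ?_⟩
  intro E hb
  have hR : 100 ≤ p / 4 := by linarith
  by_cases hE : |E| ≤ 2
  · right
    obtain ⟨e1, e2⟩ := abs_le.1 hE
    have h3 : |X p q E 3| ≤ 1 := by
      by_contra hc
      push Not at hc
      apply hb 1
      have hx1 : |X p q E 1| ≤ 1 := by
        rw [X_one, abs_div, abs_two, div_le_one (by norm_num)]; exact hE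
      have hx2 : 1 < |X p q E 2| := by
        rw [lt_abs]; right
        have e := X2_eq hp0 q E
        by_contra hc2
        push Not at hc2
        have : -X p q E 2 * (2 * p) ≤ 1 * (2 * p) := mul_le_mul_of_nonneg_right hc2 hpp.le
        have : E * (E - q) ≤ 8 := by nlinarith
        nlinarith
      refine ⟨hx2, hc, ?_⟩
      change |X p q E 1| < |X p q E 2| * |X p q E 3|
      nlinarith
    have hmem := co E hE h3
    have := foll_of_not_bad hR (X_trec hp0 q E) hb (k := 1) (ao.reg E hmem)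
    exact ⟨hmem, this⟩
  · left
    push Not at hE
    have h2 : |X p q E 2| ≤ 1 := by
      by_contra hc
      push Not at hc
      apply hb 0
      have hx1 : |X p q E 1| = |E| / 2 := by rw [X_one, abs_div, abs_two]
      have hx0 : |X p q E 0| ≤ |E| / 2 := by
        rw [X_zero, abs_div, abs_div, abs_two]
        apply div_le_div_of_nonneg_right _ (by norm_num)
        rw [abs_of_pos (by linarith : 0 < p), div_le_iff₀ (by linarith)]
        have := abs_sub E q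
        nlinarith
      refine ⟨?_, hc, ?_⟩
      · change 1 < |X p q E 1|
        rw [hx1]; linarith
      · change |X p q E 0| < |X p q E 1| * |X p q E 2|
        rw [hx1]
        nlinarith
    rcases le_or_gt 0 E with hpos | hneg
    · left
      rw [abs_of_nonneg hpos] at hE
      have hmem := cp E hE h2
      exact ⟨hmem, foll_of_not_bad hR (X_trec hp0 q E) hb (k := 0) (ap.reg E hmem)⟩
    · right
      rw [abs_of_neg hneg] at hE
      have hmem := cm E (by linarith) h2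
      exact ⟨hmem, foll_of_not_bad hR (X_trec hp0 q E) hb (k := 0) (am.reg E hmem)⟩

/-- **The spectrum is the union of the three clusters.** -/
theorem spectrum_eq {p q : ℝ} (hp : 1000 ≤ p) {lp rp lm rm lo ro : ℝ}
    (hc : Clus p q lp rp lm rm lo ro) {u : ℕ → Letter} (hu : IsFix u) {ω : ℤ → Letter}
    (hω : InHull u ω) {H : L2 →L[ℂ] L2} (h : IsOp p q ω H) :
    {E : ℝ | (E : ℂ) ∈ spectrum ℂ H} = Lam (fun E => st p q E 0) lp rp ∪
      Lam (fun E => st p q E 0) lm rm ∪ Lam (fun E => st p q E 1) lo ro := by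
  have hp0 : p ≠ 0 := by linarith
  apply Subset.antisymm
  · intro E hE
    apply hc.all
    intro k hb
    exact not_mem_spectrum_of_bad hp0 hu hω h hb hE
  · have key : ∀ (k : ℕ) (l r : ℝ), Arc (p / 4) (p + 1) (fun E => st p q E k) l r →
        Lam (fun E => st p q E k) l r ⊆ {E : ℝ | (E : ℂ) ∈ spectrum ℂ H} := by
      rintro k l r harc E ⟨hE, c, hcE⟩
      apply mem_spectrum_of_small (by linarith) hu hω h
      intro K
      exact small_of_foll (X_trec hp0 q E) (harc.reg E hE) hcE K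
    apply union_subset (union_subset ?_ ?_)
    · exact key 1 lo ro hc.ao
    · exact key 0 lp rp hc.ap
    · exact key 0 lm rm hc.am

end Pool.Agent.W811.Fib
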