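import Mathlib

/-!
A comparison of Hausdorff dimensions through a relation.
-/

set_option autoImplicit false

namespace Pool.Agent.W811.Fib

open Set
open scoped NNReal ENNReal

/-- If every point of `T` is related to a point of `S` and the relation is Hölder, the dimension
of `T` is controlled by that of `S`. -/
theorem dimH_le_of_rel {S T : Set ℝ} (rel : ℝ → ℝ → Prop) {C : ℝ} {r : ℝ≥0} (hC : 0 ≤ C)
    (hr : 0 < r) (h : ∀ t ∈ T, ∃ s ∈ S, rel s t)
    (hh : ∀ s s' t t', rel s t → rel s' t' → |t - t'| ≤ C * |s - s'| ^ (r : ℝ)) :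
    dimH T ≤ dimH S / r := by
  classical
  let ψ : ℝ → ℝ := fun s => if hs : ∃ t, t ∈ T ∧ rel s t then hs.choose else 0
  let S' : Set ℝ := {s | s ∈ S ∧ ∃ t, t ∈ T ∧ rel s t}
  have hψ : ∀ s ∈ S', rel s (ψ s) := by
    intro s hs
    simp only [ψ, dif_pos hs.2]
    exact hs.2.choose_spec.2
  have hol : HolderOnWith (Real.toNNReal C) r ψ S' := by
    intro x hx y hy
    have k := hh x y (ψ x) (ψ y) (hψ x hx) (hψ y hy)
    rw [edist_dist, edist_dist, Real.dist_eq, Real.dist_eq]
    rw [ENNReal.ofReal_rpow_of_nonneg (abs_nonneg _) (NNReal.coe_nonneg r)]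
    change _ ≤ ENNReal.ofReal C * _
    rw [← ENNReal.ofReal_mul hC]
    exact ENNReal.ofReal_le_ofReal k
  have sub : T ⊆ ψ '' S' := by
    intro t ht
    obtain ⟨s, hs, hst⟩ := h t ht
    have hs' : s ∈ S' := ⟨hs, t, ht, hst⟩
    refine ⟨s, hs', ?_⟩
    have k := hh s s (ψ s) t (hψ s hs') hst
    rw [sub_self, abs_zero, Real.zero_rpow (by exact_mod_cast hr.ne'), mul_zero] at k
    have := abs_nonpos_iff.1 k
    linarith
  calc dimH T ≤ dimH (ψ '' S') := dimH_mono sub
    _ ≤ dimH S' / r := hol.dimH_image_le hr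
    _ ≤ dimH S / r := by
        apply ENNReal.div_le_div_right
        exact dimH_mono (fun s hs => hs.1)

end Pool.Agent.W811.Fib
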