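import Pool.Agent.W811.Fib.Arc
import Pool.Agent.W811.Fib.DimRel

/-!
Comparison of the dimensions of two arcs.
-/

set_option autoImplicit false

namespace Pool.Agent.W811.Fib

open Set
open scoped NNReal ENNReal

lemma sep {R : ℝ} {s t : P3} {c d : Sym} (hR : 100 ≤ R) (hs : Reg R s) (ht : Reg R t)
    (as : Adm c s) (at' : Adm d t) (h : c ≠ d) : 0.4 ≤ |s.y - t.y| := by
  have key : ∀ (r : P3) (e : Sym), Reg R r → Adm e r →
      (e = .a ∧ -0.01 ≤ r.y ∧ r.y ≤ 0.01) ∨ (e = .p ∧ 0.49 ≤ r.y ∧ r.y ≤ 0.51) ∨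
        (e = .m ∧ -0.51 ≤ r.y ∧ r.y ≤ -0.49) := by
    intro r e hr he
    cases e
    · exact Or.inl ⟨rfl, abs_le.1 (y_of_a hR hr he)⟩
    · exact Or.inr (Or.inl ⟨rfl, y_of_p hR hr he⟩)
    · exact Or.inr (Or.inr ⟨rfl, y_of_m hR hr he⟩)
  rw [le_abs]
  rcases key s c hs as with ⟨e1, k1, k2⟩ | ⟨e1, k1, k2⟩ | ⟨e1, k1, k2⟩ <;>
    rcases key t d ht at' with ⟨e2, k3, k4⟩ | ⟨e2, k3, k4⟩ | ⟨e2, k3, k4⟩
  · exact absurd (e1.trans e2.symm) h
  · right; linarith
  · left; linarith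
  · left; linarith
  · exact absurd (e1.trans e2.symm) h
  · left; linarith
  · right; linarith
  · right; linarith
  · exact absurd (e1.trans e2.symm) h

lemma Foll.congr {c d : ℕ → Sym} {n : ℕ} {s : P3} (h : ∀ k < n, c k = d k) (hf : Foll c n s) :
    Foll d n s := by
  intro k hk
  have := hf k hk
  rw [orb_congr (fun j hj => h j (lt_trans hj hk)), h k hk] at this
  exact this

/-- a state has at most one infinite itinerary -/
lemma itin_unique {R : ℝ} {s : P3} {c d : ℕ → Sym} (hR : 100 ≤ R) (hs : Reg R s)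
    (hc : FollAll c s) (hd : FollAll d s) : c = d := by
  by_contra hne
  have : ∃ k, c k ≠ d k := by
    by_contra h; push Not at h; exact hne (funext h)
  classical
  have h1 := Nat.find_spec this
  have h2 : ∀ k < Nat.find this, c k = d k := fun k hk => by
    have := Nat.find_min this hk; push Not at this; exact this
  set m := Nat.find this
  have e : orb c m s = orb d m s := orb_congr h2 s
  have k1 := hc m
  have k2 := hd m
  rw [← e] at k2
  have k3 := sep hR (hs.orb (hc.foll m)) (hs.orb (hc.foll m)) k1 k2 h1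
  rw [sub_self, abs_zero] at k3
  norm_num at k3

lemma pow_bdd_contra {a δ : ℝ} (ha : 2 ≤ a) (hδ : 0 < δ) (h : ∀ n : ℕ, a ^ n * δ ≤ 2) : False := by
  obtain ⟨n, hn⟩ := pow_unbounded_of_one_lt (2 / δ) (by linarith : 1 < a)
  have := h n
  rw [div_lt_iff₀ hδ] at hn
  linarith

/-- the comparison of the distances of pairs with the same itineraries -/
lemma holder_pair {R B v : ℝ} {s t s' t' : P3} {c d : ℕ → Sym} (hv : 0 ≤ v) (hR : 100 ≤ R)
    (hB : 100 ≤ B) (h : Good R B s t) (h' : Good R B s' t') (fs : FollAll c s)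
    (fs' : FollAll c s') (ft : FollAll d t) (ft' : FollAll d t') (sg : 0 < s.x * s'.x)
    (sg' : 0 < t.x * t'.x)
    (v1 : |inv s - inv s'| ≤ v) (v2 : |inv t - inv t'| ≤ v) :
    |s'.y - t'.y| ≤ 5 * Real.exp (112 * B) * 2 ^ (12 * B * v) *
      |s.y - t.y| ^ (1 - 12 * B * v) := by
  classical
  have hpos := h.pos
  have hne : ∃ k, c k ≠ d k := by
    by_contra hc
    push Not at hc
    have hcd : c = d := funext hc
    subst hcd
    apply pow_bdd_contra (a := R - 2) (by linarith) hpos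
    intro n
    have k := (h.cone.orb hR h.rs h.rt (fs.foll n) (ft.foll n) h.sgn).2
    exact k.trans (abs_sub_le_two (h.rs.orb (fs.foll n)).hy (h.rt.orb (ft.foll n)).hy)
  have h1 := Nat.find_spec hne
  have h2 : ∀ k < Nat.find hne, c k = d k := fun k hk => by
    have := Nat.find_min hne hk; push Not at this; exact this
  set m := Nat.find hne
  have fc : Foll c m t := (ft.foll m).congr (fun k hk => (h2 k hk).symm)
  have fc' : Foll c m t' := (ft'.foll m).congr (fun k hk => (h2 k hk).symm)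
  have ee : orb c m t = orb d m t := orb_congr h2 t
  have k1 : 0.4 ≤ |(orb c m s).y - (orb c m t).y| := by
    rw [ee]
    exact sep hR (h.rs.orb (fs.foll m)) (h.rt.orb (ft.foll m)) (fs m) (ft m) h1
  have k2 : |(orb c m s').y - (orb c m t').y| ≤ 2 :=
    abs_sub_le_two (h'.rs.orb (fs'.foll m)).hy (h'.rt.orb fc').hy
  have k3 := (ratio_aux hv hR hB h h' (fs.foll m) fc (fs'.foll m) fc'
    (fun j _ => (close hR h.rs h'.rs sg fs fs' j).trans (by linarith))
    (fun j hj => by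
      have q := close hR h.rt h'.rt sg' ft ft' j
      rw [orb_congr (c := c) (d := d) (fun k hk => h2 k (by omega)),
        orb_congr (c := c) (d := d) (fun k hk => h2 k (by omega))]
      linarith)).2
  have k4 : |(orb c m s).y - (orb c m t).y| ≤ 2 :=
    abs_sub_le_two (h.rs.orb (fs.foll m)).hy (h.rt.orb fc).hy
  have k5 := (h.cone.orb hR h.rs h.rt (fs.foll m) fc h.sgn).2
  -- exponentials
  have hBv : 0 ≤ 12 * B * v := by positivity
  have e1 : Real.exp (112 * B + 12 * B * v * m - 90 * B * (1 / 2) ^ m - 22 * B * (1 / 50) ^ m) ≤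
      Real.exp (112 * B) * Real.exp (12 * B * v * m) := by
    rw [← Real.exp_add]
    apply Real.exp_le_exp.2
    have q1 : 0 ≤ 90 * B * (1 / 2) ^ m := by positivity
    have q2 : 0 ≤ 22 * B * (1 / 50) ^ m := by positivity
    linarith
  have e2 : Real.exp (12 * B * v * m) ≤ (2 / |s.y - t.y|) ^ (12 * B * v) := by
    have q1 : Real.exp (12 * B * v * m) = (Real.exp m) ^ (12 * B * v) := by
      rw [← Real.exp_mul]; ring_nf
    rw [q1]
    apply Real.rpow_le_rpow (Real.exp_pos _).le _ hBv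
    rw [le_div_iff₀ hpos]
    refine le_trans ?_ (k5.trans k4)
    apply mul_le_mul_of_nonneg_right _ hpos.le
    have q2 : Real.exp (m : ℝ) = (Real.exp 1) ^ m := by
      rw [← Real.exp_nat_mul, mul_one]
    rw [q2]
    apply pow_le_pow_left₀ (Real.exp_pos _).le
    have := Real.exp_one_lt_d9
    linarith
  have e3 : (2 / |s.y - t.y|) ^ (12 * B * v) * |s.y - t.y| =
      2 ^ (12 * B * v) * |s.y - t.y| ^ (1 - 12 * B * v) := by
    rw [Real.div_rpow (by norm_num) hpos.le, Real.rpow_sub hpos, Real.rpow_one]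
    ring
  have k6 : 0.4 * |s'.y - t'.y| ≤ (Real.exp (112 * B) * (2 / |s.y - t.y|) ^ (12 * B * v)) *
      (|s.y - t.y| * 2) := by
    calc 0.4 * |s'.y - t'.y| ≤ |(orb c m s).y - (orb c m t).y| * |s'.y - t'.y| :=
          mul_le_mul_of_nonneg_right k1 (abs_nonneg _)
      _ ≤ _ := k3
      _ ≤ _ := by
          apply mul_le_mul (e1.trans (mul_le_mul_of_nonneg_left e2 (Real.exp_pos _).le))
            (mul_le_mul_of_nonneg_left k2 hpos.le) (by positivity) (by positivity)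
  have k7 : (Real.exp (112 * B) * (2 / |s.y - t.y|) ^ (12 * B * v)) *
      (|s.y - t.y| * 2) = 2 * Real.exp (112 * B) * (2 ^ (12 * B * v) *
        |s.y - t.y| ^ (1 - 12 * B * v)) := by
    rw [← e3]; ring
  rw [k7] at k6
  have k8 : 0 ≤ Real.exp (112 * B) * (2 ^ (12 * B * v) *
        |s.y - t.y| ^ (1 - 12 * B * v)) := by positivity
  calc |s'.y - t'.y| ≤ 5 * (Real.exp (112 * B) * (2 ^ (12 * B * v) *
        |s.y - t.y| ^ (1 - 12 * B * v))) := by linarith
    _ = _ := by ring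

/-- comparison of two arcs on the same side -/
theorem compare_same {R B v : ℝ} {g g' : ℝ → P3} {l r l' r' : ℝ} (hR : 100 ≤ R) (hB : 100 ≤ B)
    (hv : 0 ≤ v) (h : Arc R B g l r) (h' : Arc R B g' l' r')
    (sg : ∀ E ∈ Icc l r, ∀ E' ∈ Icc l' r', 0 < (g E).x * (g' E').x)
    (hvv : ∀ E ∈ Icc l r, ∀ E' ∈ Icc l' r', |inv (g E) - inv (g' E')| ≤ v)
    {κ : ℝ≥0} (hκ : 0 < κ) (hκ2 : (κ : ℝ) = 1 - 12 * B * v) :
    dimH (Lam g' l' r') ≤ dimH (Lam g l r) / κ := by
  obtain ⟨C, hC, hCl⟩ := h.lip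
  obtain ⟨C', hC', hCl'⟩ := h'.lip
  refine dimH_le_of_rel (fun E E' => E ∈ Icc l r ∧ E' ∈ Icc l' r' ∧
    ∃ c, FollAll c (g E) ∧ FollAll c (g' E')) (C := C' * (5 * Real.exp (112 * B) *
      2 ^ (12 * B * v) * C ^ (κ : ℝ))) (by positivity) hκ ?_ ?_
  · rintro E' ⟨hE', c, hc⟩
    obtain ⟨E, hE, hc2⟩ := h.exists_itin hR hB c
    exact ⟨E, ⟨hE, c, hc2⟩, hE, hE', c, hc2, hc⟩
  · rintro E₁ E₂ F₁ F₂ ⟨h1, h1', c, c1, c1'⟩ ⟨h2, h2', d, d1, d1'⟩
    obtain ⟨q1, q2⟩ := hCl E₁ h1 E₂ h2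
    obtain ⟨q1', q2'⟩ := hCl' F₁ h1' F₂ h2'
    by_cases n1 : (g' F₁).y = (g' F₂).y
    · rw [n1, sub_self, abs_zero, mul_zero] at q2'
      have : 0 ≤ C' * (5 * Real.exp (112 * B) * 2 ^ (12 * B * v) * C ^ (κ : ℝ)) *
        |E₁ - E₂| ^ (κ : ℝ) := by positivity
      linarith
    by_cases n2 : (g E₁).y = (g E₂).y
    · exfalso
      rw [n2, sub_self, abs_zero, mul_zero] at q2
      have e12 : E₁ = E₂ := by
        have := abs_nonpos_iff.1 q2; linarith
      rw [← e12] at d1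
      have hcd := itin_unique hR (h.reg E₁ h1) c1 d1
      rw [← hcd] at d1'
      have hpos : 0 < |(g' F₁).y - (g' F₂).y| := abs_pos.2 (sub_ne_zero.2 n1)
      apply pow_bdd_contra (a := R - 2) (by linarith) hpos
      intro n
      have k := ((h'.cone F₁ h1' F₂ h2').orb hR (h'.reg F₁ h1') (h'.reg F₂ h2') (c1'.foll n)
        (d1'.foll n) (h'.sgn F₁ h1' F₂ h2')).2
      exact k.trans (abs_sub_le_two ((h'.reg F₁ h1').orb (c1'.foll n)).hy
        ((h'.reg F₂ h2').orb (d1'.foll n)).hy)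
    have G : Good R B (g E₁) (g E₂) := ⟨h.reg _ h1, h.reg _ h2, h.cone _ h1 _ h2, h.sgn _ h1 _ h2,
      h.bnd _ h1, h.bnd _ h2, n2⟩
    have G' : Good R B (g' F₁) (g' F₂) := ⟨h'.reg _ h1', h'.reg _ h2', h'.cone _ h1' _ h2',
      h'.sgn _ h1' _ h2', h'.bnd _ h1', h'.bnd _ h2', n1⟩
    have k := holder_pair hv hR hB G G' c1 c1' d1 d1' (sg _ h1 _ h1') (sg _ h2 _ h2')
      (hvv _ h1 _ h1') (hvv _ h2 _ h2')
    rw [← hκ2] at k
    have k2 : |(g E₁).y - (g E₂).y| ^ (κ : ℝ) ≤ C ^ (κ : ℝ) * |E₁ - E₂| ^ (κ : ℝ) := by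
      rw [← Real.mul_rpow hC.le (abs_nonneg _)]
      exact Real.rpow_le_rpow (abs_nonneg _) q1 (NNReal.coe_nonneg κ)
    calc |F₁ - F₂| ≤ C' * |(g' F₁).y - (g' F₂).y| := q2'
      _ ≤ C' * (5 * Real.exp (112 * B) * 2 ^ (12 * B * v) *
            (C ^ (κ : ℝ) * |E₁ - E₂| ^ (κ : ℝ))) := by
          apply mul_le_mul_of_nonneg_left _ hC'.le
          exact k.trans (mul_le_mul_of_nonneg_left k2 (by positivity))
      _ = _ := by ring

/-! ### sign changes -/

/-- a sign change -/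
def sgc (a b : ℝ) (s : P3) : P3 := ⟨a * s.u, b * s.x, a * b * s.y⟩

/-- exchange the two `B` symbols -/
def flp : Sym → Sym
  | .a => .a
  | .p => .m
  | .m => .p

/-- the signs along an itinerary -/
noncomputable def sgnSeq (c : ℕ → Sym) (a b : ℝ) : ℕ → ℝ × ℝ
  | 0 => (a, b)
  | k + 1 => if c k = .a then sgnSeq c a b k else
      ((sgnSeq c a b k).1 * (sgnSeq c a b k).2, (sgnSeq c a b k).1)

lemma sgnSeq_spec (c : ℕ → Sym) {a b : ℝ} (ha : a = 1 ∨ a = -1) (hb : b = 1 ∨ b = -1) (k : ℕ) :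
    ((sgnSeq c a b k).1 = 1 ∨ (sgnSeq c a b k).1 = -1) ∧
      ((sgnSeq c a b k).2 = 1 ∨ (sgnSeq c a b k).2 = -1) := by
  induction k with
  | zero => exact ⟨ha, hb⟩
  | succ k ih =>
    obtain ⟨h1, h2⟩ := ih
    rw [sgnSeq]
    split_ifs
    · exact ⟨h1, h2⟩
    · refine ⟨?_, h1⟩
      rcases h1 with h1 | h1 <;> rcases h2 with h2 | h2 <;> rw [h1, h2] <;> norm_num

lemma sgc_stepB {a b : ℝ} (ha : a = 1 ∨ a = -1) (hb : b = 1 ∨ b = -1) (s : P3) :
    stepB (sgc a b s) = sgc (a * b) a (stepB s) := by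
  rcases ha with ha | ha <;> rcases hb with hb | hb <;> subst ha <;> subst hb <;>
    (simp only [stepB, sgc]; ext <;> ring)

lemma sgc_stepA {a b : ℝ} (ha : a = 1 ∨ a = -1) (hb : b = 1 ∨ b = -1) (s : P3) :
    stepA (sgc a b s) = sgc a b (stepA s) := by
  rcases ha with ha | ha <;> rcases hb with hb | hb <;> subst ha <;> subst hb <;>
    (simp only [stepA, sgc]; ext <;> ring)

lemma inv_sgc {a b : ℝ} (ha : a = 1 ∨ a = -1) (hb : b = 1 ∨ b = -1) (s : P3) :
    inv (sgc a b s) = inv s := by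
  rcases ha with ha | ha <;> rcases hb with hb | hb <;> subst ha <;> subst hb <;>
    (simp only [inv, sgc]; ring)

lemma abs_sgn_mul {a x : ℝ} (ha : a = 1 ∨ a = -1) : |a * x| = |x| := by
  rcases ha with ha | ha <;> rw [ha] <;> simp

/-- the itinerary of the state with changed signs -/
noncomputable def flipItin (c : ℕ → Sym) (a b : ℝ) : ℕ → Sym := fun k =>
  if (sgnSeq c a b k).1 * (sgnSeq c a b k).2 = 1 then c k else flp (c k)

lemma orb_flip {c : ℕ → Sym} {a b : ℝ} (ha : a = 1 ∨ a = -1) (hb : b = 1 ∨ b = -1) (s : P3)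
    (k : ℕ) : orb (flipItin c a b) k (sgc a b s) =
      sgc (sgnSeq c a b k).1 (sgnSeq c a b k).2 (orb c k s) := by
  induction k with
  | zero => rfl
  | succ k ih =>
    obtain ⟨h1, h2⟩ := sgnSeq_spec c ha hb k
    rw [orb, ih, orb]
    have hstep : ∀ t, step (flipItin c a b k) t = step (c k) t := by
      intro t
      unfold flipItin
      split_ifs with hh
      · rfl
      · cases c k <;> rfl
    rw [hstep, sgnSeq]
    by_cases hc : c k = .a
    · rw [if_pos hc, hc]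
      exact sgc_stepA h1 h2 _
    · rw [if_neg hc]
      have : ∀ t, step (c k) t = stepB t := by
        intro t
        cases hck : c k
        · exact absurd hck hc
        · rfl
        · rfl
      rw [this, this]
      exact sgc_stepB h1 h2 _

lemma adm_flip {c : Sym} {a b : ℝ} (ha : a = 1 ∨ a = -1) (hb : b = 1 ∨ b = -1) {s : P3}
    (h : Adm c s) : Adm (if a * b = 1 then c else flp c) (sgc a b s) := by
  have hab : a * b = 1 ∨ a * b = -1 := by
    rcases ha with ha | ha <;> rcases hb with hb | hb <;> rw [ha, hb] <;> norm_num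
  cases c
  · have e : (if a * b = 1 then Sym.a else flp Sym.a) = Sym.a := by split_ifs <;> rfl
    rw [e]
    obtain ⟨h1, h2⟩ := h
    refine ⟨?_, ?_⟩
    · change |(stepA (sgc a b s)).u| ≤ 1
      rw [sgc_stepA ha hb]
      change |a * (stepA s).u| ≤ 1
      rw [abs_sgn_mul ha]; exact h1
    · rw [sgc_stepA ha hb]
      change |a * b * (stepA s).y| ≤ 1
      rw [abs_sgn_mul hab]; exact h2
  · obtain ⟨h1, h2⟩ := h
    have h3 : |(stepB (sgc a b s)).y| ≤ 1 := by
      rw [sgc_stepB ha hb]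
      change |a * b * a * (stepB s).y| ≤ 1
      rw [show a * b * a * (stepB s).y = (a * b) * (a * (stepB s).y) by ring, abs_sgn_mul hab,
        abs_sgn_mul ha]
      exact h2
    rcases hab with hab | hab
    · rw [if_pos hab]
      exact ⟨by change 0 < a * b * s.y; rw [hab, one_mul]; exact h1, h3⟩
    · rw [if_neg (by rw [hab]; norm_num)]
      exact ⟨by change a * b * s.y < 0; rw [hab]; linarith, h3⟩
  · obtain ⟨h1, h2⟩ := h
    have h3 : |(stepB (sgc a b s)).y| ≤ 1 := by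
      rw [sgc_stepB ha hb]
      change |a * b * a * (stepB s).y| ≤ 1
      rw [show a * b * a * (stepB s).y = (a * b) * (a * (stepB s).y) by ring, abs_sgn_mul hab,
        abs_sgn_mul ha]
      exact h2
    rcases hab with hab | hab
    · rw [if_pos hab]
      exact ⟨by change a * b * s.y < 0; rw [hab, one_mul]; exact h1, h3⟩
    · rw [if_neg (by rw [hab]; norm_num)]
      exact ⟨by change 0 < a * b * s.y; rw [hab]; linarith, h3⟩

lemma exists_foll_sgc {a b : ℝ} (ha : a = 1 ∨ a = -1) (hb : b = 1 ∨ b = -1) {s : P3}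
    (h : ∃ c, FollAll c s) : ∃ c, FollAll c (sgc a b s) := by
  obtain ⟨c, hc⟩ := h
  refine ⟨flipItin c a b, ?_⟩
  intro k
  rw [orb_flip ha hb]
  obtain ⟨h1, h2⟩ := sgnSeq_spec c ha hb k
  exact adm_flip h1 h2 (hc k)

lemma sgc_sgc {a b : ℝ} (ha : a = 1 ∨ a = -1) (hb : b = 1 ∨ b = -1) (s : P3) :
    sgc a b (sgc a b s) = s := by
  rcases ha with ha | ha <;> rcases hb with hb | hb <;> subst ha <;> subst hb <;>
    (simp only [sgc]; ext <;> ring)

lemma lam_sgc {a b : ℝ} (ha : a = 1 ∨ a = -1) (hb : b = 1 ∨ b = -1) (g : ℝ → P3) (l r : ℝ) :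
    Lam (fun E => sgc a b (g E)) l r = Lam g l r := by
  ext E
  constructor
  · rintro ⟨h1, h2⟩
    refine ⟨h1, ?_⟩
    have := exists_foll_sgc ha hb h2
    rwa [sgc_sgc ha hb] at this
  · rintro ⟨h1, h2⟩
    exact ⟨h1, exists_foll_sgc ha hb h2⟩

lemma Arc.sgc {R B : ℝ} {g : ℝ → P3} {l r : ℝ} (h : Arc R B g l r) :
    Arc R B (fun E => Fib.sgc 1 (-1) (g E)) l r := by
  have e1 : ∀ E, (Fib.sgc 1 (-1) (g E)).u = (g E).u := fun E => one_mul _
  have e2 : ∀ E, (Fib.sgc 1 (-1) (g E)).x = -(g E).x := fun E => by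
    change -1 * (g E).x = _; ring
  have e3 : ∀ E, (Fib.sgc 1 (-1) (g E)).y = -(g E).y := fun E => by
    change 1 * -1 * (g E).y = _; ring
  have e4 : ∀ E, inv (Fib.sgc 1 (-1) (g E)) = inv (g E) := fun E =>
    inv_sgc (Or.inl rfl) (Or.inr rfl) _
  refine ⟨h.lr, ?_, ?_, ?_, ?_, ?_, ?_, ?_, ?_, ?_⟩
  · simp only [e1]; exact h.cu
  · simp only [e2]; exact h.cx.neg
  · simp only [e3]; exact h.cy.neg
  · intro E hE
    have := h.reg E hE
    refine ⟨?_, ?_, ?_⟩
    · rw [e1]; exact this.hu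
    · rw [e3, abs_neg]; exact this.hy
    · rw [e4]; exact this.hV
  · intro E hE; rw [e4]; exact h.bnd E hE
  · intro E hE E' hE'
    rw [e2, e2, neg_mul_neg]; exact h.sgn E hE E' hE'
  · intro E hE E' hE'
    have := h.cone E hE E' hE'
    have e5 : |(Fib.sgc 1 (-1) (g E)).y - (Fib.sgc 1 (-1) (g E')).y| = |(g E).y - (g E').y| := by
      rw [e3, e3, neg_sub_neg, abs_sub_comm]
    exact ⟨by rw [e1, e1, e5]; exact this.hu, by rw [e4, e4, e5]; exact this.hv⟩
  · obtain ⟨C, hC, hC2⟩ := h.lip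
    refine ⟨C, hC, ?_⟩
    intro E hE E' hE'
    have e5 : |(Fib.sgc 1 (-1) (g E)).y - (Fib.sgc 1 (-1) (g E')).y| = |(g E).y - (g E').y| := by
      rw [e3, e3, neg_sub_neg, abs_sub_comm]
    rw [e5]
    exact hC2 E hE E' hE'
  · rw [e3, e3]
    rcases h.cross with ⟨q1, q2⟩ | ⟨q1, q2⟩
    · right; rw [q1, q2]; norm_num
    · left; rw [q1, q2]; norm_num

/-- comparison of two arcs -/
theorem compare {R B v : ℝ} {g g' : ℝ → P3} {l r l' r' : ℝ} (hR : 100 ≤ R) (hB : 100 ≤ B)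
    (hv : 0 ≤ v) (h : Arc R B g l r) (h' : Arc R B g' l' r')
    (hvv : ∀ E ∈ Icc l r, ∀ E' ∈ Icc l' r', |inv (g E) - inv (g' E')| ≤ v)
    {κ : ℝ≥0} (hκ : 0 < κ) (hκ2 : (κ : ℝ) = 1 - 12 * B * v) :
    dimH (Lam g' l' r') ≤ dimH (Lam g l r) / κ := by
  have hflip : (∀ E ∈ Icc l r, ∀ E' ∈ Icc l' r', (g E).x * (g' E').x < 0) →
      dimH (Lam g' l' r') ≤ dimH (Lam g l r) / κ := by
    intro hh
    rw [← lam_sgc (a := 1) (b := -1) (Or.inl rfl) (Or.inr rfl) g' l' r']
    refine compare_same hR hB hv h h'.sgc ?_ ?_ hκ hκ2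
    · intro E hE E' hE'
      have := hh E hE E' hE'
      change 0 < (g E).x * (-1 * (g' E').x)
      linarith
    · intro E hE E' hE'
      rw [inv_sgc (Or.inl rfl) (Or.inr rfl)]
      exact hvv E hE E' hE'
  rcases h.side hR with s1 | s1 <;> rcases h'.side hR with s2 | s2
  · refine compare_same hR hB hv h h' ?_ hvv hκ hκ2
    intro E hE E' hE'
    have := s1 E hE
    have := s2 E' hE'
    exact mul_pos (by linarith) (by linarith)
  · apply hflip
    intro E hE E' hE'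
    have := s1 E hE
    have := s2 E' hE'
    exact mul_neg_of_pos_of_neg (by linarith) (by linarith)
  · apply hflip
    intro E hE E' hE'
    have := s1 E hE
    have := s2 E' hE'
    exact mul_neg_of_neg_of_pos (by linarith) (by linarith)
  · refine compare_same hR hB hv h h' ?_ hvv hκ hκ2
    intro E hE E' hE'
    have := s1 E hE
    have := s2 E' hE'
    exact mul_pos_of_neg_of_neg (by linarith) (by linarith)

end Pool.Agent.W811.Fib
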