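import Pool.Agent.W811.Fib.Compare

/-!
The dimension of an arc is positive, and small when `x` is large; small sub-arcs.
-/

set_option autoImplicit false

namespace Pool.Agent.W811.Fib

open Set
open scoped NNReal ENNReal

/-! ### small sub-arcs -/

lemma orb_cons (c : Sym) (d : ℕ → Sym) (s : P3) (k : ℕ) :
    orb (fun n => Nat.casesOn n c d) (k + 1) s = orb d k (step c s) := by
  induction k with
  | zero => rfl
  | succ k ih => rw [orb, ih, orb]

lemma foll_cons {c : Sym} {d : ℕ → Sym} {s : P3} (h : Adm c s) (hd : FollAll d (step c s)) :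
    ∃ e, FollAll e s := by
  refine ⟨fun n => Nat.casesOn n c d, ?_⟩
  intro k
  cases k with
  | zero => exact h
  | succ k =>
    rw [orb_cons]
    exact hd k

/-- a sub-arc on which the invariant is almost constant -/
theorem Arc.small {R B : ℝ} {g : ℝ → P3} {l r : ℝ} (h : Arc R B g l r) (hR : 100 ≤ R)
    (hB : 100 ≤ B) (n : ℕ) : ∃ (g' : ℝ → P3) (l' r' : ℝ), l ≤ l' ∧ l' ≤ r' ∧ r' ≤ r ∧
      Arc R B g' l' r' ∧ Lam g' l' r' ⊆ Lam g l r ∧ (∀ E, inv (g' E) = inv (g E)) ∧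
      ∀ E ∈ Icc l' r', ∀ E' ∈ Icc l' r',
        (R - 2) ^ n * |(g E).y - (g E').y| ≤ |(g' E).y - (g' E').y| := by
  induction n with
  | zero =>
    exact ⟨g, l, r, le_refl _, h.lr, le_refl _, h, subset_refl _, fun _ => rfl, fun E _ E' _ => by
      rw [pow_zero, one_mul]⟩
  | succ n ih =>
    obtain ⟨g', l', r', h1, h2, h3, h4, h5, h6, h7⟩ := ih
    obtain ⟨l₂, r₂, k1, k2, k3, k4, k5⟩ := h4.sub hR hB .p
    have hsub : Icc l₂ r₂ ⊆ Icc l' r' := Icc_subset_Icc k1 k3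
    refine ⟨fun E => step .p (g' E), l₂, r₂, h1.trans k1, k2, k3.trans h3, k5, ?_, ?_, ?_⟩
    · refine subset_trans ?_ h5
      rintro E ⟨hE, d, hd⟩
      exact ⟨hsub hE, foll_cons (k4 E hE) hd⟩
    · intro E; rw [inv_step]; exact h6 E
    · intro E hE E' hE'
      have q1 := h7 E (hsub hE) E' (hsub hE')
      have q2 := ((h4.cone E (hsub hE) E' (hsub hE')).step hR (h4.reg E (hsub hE))
        (h4.reg E' (hsub hE')) (k4 E hE) (k4 E' hE') (h4.sgn E (hsub hE) E' (hsub hE'))).2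
      refine le_trans ?_ q2
      rw [pow_succ, mul_comm ((R - 2) ^ n), mul_assoc]
      exact mul_le_mul_of_nonneg_left q1 (by linarith)

/-- a sub-arc on which the invariant varies by at most `δ` -/
theorem Arc.small' {R B : ℝ} {g : ℝ → P3} {l r : ℝ} (h : Arc R B g l r) (hR : 100 ≤ R)
    (hB : 100 ≤ B) {δ : ℝ} (hδ : 0 < δ) : ∃ (g' : ℝ → P3) (l' r' : ℝ), l ≤ l' ∧ l' ≤ r' ∧
      r' ≤ r ∧ Arc R B g' l' r' ∧ Lam g' l' r' ⊆ Lam g l r ∧ (∀ E, inv (g' E) = inv (g E)) ∧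
      ∀ E ∈ Icc l' r', ∀ E' ∈ Icc l' r', |inv (g E) - inv (g E')| ≤ δ := by
  obtain ⟨n, hn⟩ := pow_unbounded_of_one_lt (2 / δ) (by linarith : (1 : ℝ) < R - 2)
  obtain ⟨g', l', r', h1, h2, h3, h4, h5, h6, h7⟩ := h.small hR hB n
  refine ⟨g', l', r', h1, h2, h3, h4, h5, h6, ?_⟩
  intro E hE E' hE'
  have hsub : Icc l' r' ⊆ Icc l r := Icc_subset_Icc h1 h3
  have q1 := h7 E hE E' hE'
  have q2 := abs_sub_le_two (h4.reg E hE).hy (h4.reg E' hE').hy
  have q3 := (h.cone E (hsub hE) E' (hsub hE')).hv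
  refine q3.trans ?_
  have hP : 0 < (R - 2) ^ n := by
    have : 0 < R - 2 := by linarith
    positivity
  rw [div_lt_iff₀ hδ] at hn
  by_contra hc
  push Not at hc
  have : (R - 2) ^ n * δ < (R - 2) ^ n * |(g E).y - (g E').y| := mul_lt_mul_of_pos_left hc hP
  linarith

/-! ### upper bound -/

/-- base `4` digits -/
def dig4 : Sym → Fin 4
  | .a => 0
  | .p => 1
  | .m => 2

/-- base `4` code -/
noncomputable def code4 (c : ℕ → Sym) : ℝ := Real.ofDigits (fun k => dig4 (c k))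

lemma ofDigits4_le {d : ℕ → Fin 4} (h : ∀ k, (d k : ℕ) ≤ 2) : Real.ofDigits d ≤ 2 / 3 := by
  have h1 : Real.ofDigits d = ∑' i, Real.ofDigitsTerm d i := rfl
  rw [h1]
  have h2 : ∀ i, Real.ofDigitsTerm d i ≤ 1 / 2 * (1 / 4 : ℝ) ^ i := by
    intro i
    unfold Real.ofDigitsTerm
    have h3 : ((d i : ℕ) : ℝ) ≤ 2 := by exact_mod_cast h i
    have h4 : (((4 : ℕ) : ℝ) ^ (i + 1))⁻¹ = 1 / 4 * (1 / 4 : ℝ) ^ i := by
      rw [pow_succ]; push_cast; rw [one_div_pow]; field_simp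
    rw [h4]
    have h5 : (0 : ℝ) ≤ (1 / 4 : ℝ) ^ i := by positivity
    nlinarith
  have h3 : HasSum (fun i : ℕ => 1 / 2 * (1 / 4 : ℝ) ^ i) (1 / 2 * (1 - 1 / 4)⁻¹) :=
    (hasSum_geometric_of_lt_one (by norm_num) (by norm_num)).mul_left _
  have h4 := Summable.tsum_le_tsum h2 Real.summable_ofDigitsTerm h3.summable
  rw [h3.tsum_eq] at h4
  refine h4.trans (by norm_num)

lemma dig4_le (c : Sym) : (dig4 c : ℕ) ≤ 2 := by cases c <;> decide

lemma dig4_inj {c d : Sym} (h : (dig4 c : ℕ) = dig4 d) : c = d := by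
  cases c <;> cases d <;> first | rfl | (exfalso; revert h; decide)

/-- the codes are separated -/
lemma code4_sep {c d : ℕ → Sym} {m : ℕ} (h : ∀ k < m, c k = d k) (hm : c m ≠ d m) :
    1 / 12 * (1 / 4 : ℝ) ^ m ≤ |code4 c - code4 d| := by
  unfold code4
  rw [Real.ofDigits_eq_sum_add_ofDigits (fun k => dig4 (c k)) (m + 1),
    Real.ofDigits_eq_sum_add_ofDigits (fun k => dig4 (d k)) (m + 1), Finset.sum_range_succ,
    Finset.sum_range_succ]
  have e1 : ∑ i ∈ Finset.range m, Real.ofDigitsTerm (fun k => dig4 (c k)) i =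
      ∑ i ∈ Finset.range m, Real.ofDigitsTerm (fun k => dig4 (d k)) i := by
    apply Finset.sum_congr rfl
    intro i hi
    simp only [Real.ofDigitsTerm, h i (Finset.mem_range.1 hi)]
  rw [e1]
  set X := Real.ofDigits (fun i => dig4 (c (i + (m + 1))))
  set Y := Real.ofDigits (fun i => dig4 (d (i + (m + 1))))
  have x1 : X ≤ 2 / 3 := ofDigits4_le (fun k => dig4_le _)
  have x0 : 0 ≤ X := Real.ofDigits_nonneg _
  have y1 : Y ≤ 2 / 3 := ofDigits4_le (fun k => dig4_le _)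
  have y0 : 0 ≤ Y := Real.ofDigits_nonneg _
  have e2 : (((4 : ℕ) : ℝ) ^ (m + 1))⁻¹ = 1 / 4 * (1 / 4 : ℝ) ^ m := by
    rw [pow_succ]; push_cast; rw [one_div_pow]; field_simp
  have hpos : (0 : ℝ) < (1 / 4 : ℝ) ^ m := by positivity
  have e3 : (∑ i ∈ Finset.range m, Real.ofDigitsTerm (fun k => dig4 (d k)) i +
      Real.ofDigitsTerm (fun k => dig4 (c k)) m + (((4 : ℕ) : ℝ) ^ (m + 1))⁻¹ * X) -
      (∑ i ∈ Finset.range m, Real.ofDigitsTerm (fun k => dig4 (d k)) i +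
      Real.ofDigitsTerm (fun k => dig4 (d k)) m + (((4 : ℕ) : ℝ) ^ (m + 1))⁻¹ * Y) =
      (1 / 4 * (1 / 4 : ℝ) ^ m) * ((((dig4 (c m) : ℕ) : ℝ) - ((dig4 (d m) : ℕ) : ℝ)) + (X - Y)) := by
    unfold Real.ofDigitsTerm
    rw [e2]; ring
  rw [e3, abs_mul, abs_of_pos (by positivity)]
  have hne : (dig4 (c m) : ℕ) ≠ dig4 (d m) := fun hh => hm (dig4_inj hh)
  have e4 : 1 ≤ |(((dig4 (c m) : ℕ) : ℝ) - ((dig4 (d m) : ℕ) : ℝ))| := by
    rcases lt_or_gt_of_ne hne with q | q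
    · have : ((dig4 (c m) : ℕ) : ℝ) + 1 ≤ ((dig4 (d m) : ℕ) : ℝ) := by exact_mod_cast q
      rw [le_abs]; right; linarith
    · have : ((dig4 (d m) : ℕ) : ℝ) + 1 ≤ ((dig4 (c m) : ℕ) : ℝ) := by exact_mod_cast q
      rw [le_abs]; left; linarith
  have e5 : |X - Y| ≤ 2 / 3 := by rw [abs_le]; constructor <;> linarith
  have e6 : 1 / 3 ≤ |(((dig4 (c m) : ℕ) : ℝ) - ((dig4 (d m) : ℕ) : ℝ)) + (X - Y)| := by
    have := abs_sub_abs_le_abs_sub (((dig4 (c m) : ℕ) : ℝ) - ((dig4 (d m) : ℕ) : ℝ)) (-(X - Y))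
    rw [sub_neg_eq_add, abs_neg] at this
    linarith
  nlinarith

lemma itin_ne_of_ne {R : ℝ} {s t : P3} {c : ℕ → Sym} (hR : 100 ≤ R) (hs : Reg R s)
    (ht : Reg R t) (hc : Cone s t) (hsg : 0 < s.x * t.x) (h1 : FollAll c s) (h2 : FollAll c t)
    (hne : s.y ≠ t.y) : False := by
  apply pow_bdd_contra (a := R - 2) (by linarith) (abs_pos.2 (sub_ne_zero.2 hne))
  intro n
  exact ((hc.orb hR hs ht (h1.foll n) (h2.foll n) hsg).2).trans
    (abs_sub_le_two (hs.orb (h1.foll n)).hy (ht.orb (h2.foll n)).hy)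

/-- the dimension of an arc is small when `R` is large -/
theorem Arc.dim_le {R B : ℝ} {g : ℝ → P3} {l r : ℝ} (h : Arc R B g l r) (hR : 100 ≤ R)
    {ρ : ℝ≥0} (hρ : 0 < ρ) (hρ2 : (4 : ℝ) ^ (ρ : ℝ) ≤ R - 2) :
    dimH (Lam g l r) ≤ 1 / ρ := by
  classical
  obtain ⟨C, hC, hCl⟩ := h.lip
  have key := dimH_le_of_rel (S := (univ : Set ℝ)) (T := Lam g l r) (r := ρ)
    (fun s E => E ∈ Icc l r ∧ ∃ c, FollAll c (g E) ∧ s = code4 c)
    (C := 2 * C * 12 ^ (ρ : ℝ)) (by positivity) hρ ?_ ?_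
  · rw [Real.dimH_univ] at key
    exact key
  · rintro E ⟨hE, c, hc⟩
    exact ⟨code4 c, mem_univ _, hE, c, hc, rfl⟩
  · rintro s s' E E' ⟨hE, c, hc, rfl⟩ ⟨hE', d, hd, rfl⟩
    obtain ⟨q1, q2⟩ := hCl E hE E' hE'
    by_cases n1 : (g E).y = (g E').y
    · rw [n1, sub_self, abs_zero, mul_zero] at q2
      have : 0 ≤ 2 * C * 12 ^ (ρ : ℝ) * |code4 c - code4 d| ^ (ρ : ℝ) := by positivity
      linarith
    have hne : ∃ k, c k ≠ d k := by
      by_contra hcd
      push Not at hcd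
      have hcd : c = d := funext hcd
      subst hcd
      exact itin_ne_of_ne hR (h.reg E hE) (h.reg E' hE') (h.cone E hE E' hE')
        (h.sgn E hE E' hE') hc hd n1
    have h1 := Nat.find_spec hne
    have h2 : ∀ k < Nat.find hne, c k = d k := fun k hk => by
      have := Nat.find_min hne hk; push Not at this; exact this
    set m := Nat.find hne
    have k1 := code4_sep h2 h1
    have fc : Foll c m (g E') := (hd.foll m).congr (fun k hk => (h2 k hk).symm)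
    have k5 := ((h.cone E hE E' hE').orb hR (h.reg E hE) (h.reg E' hE') (hc.foll m) fc
      (h.sgn E hE E' hE')).2
    have k6 := abs_sub_le_two ((h.reg E hE).orb (hc.foll m)).hy ((h.reg E' hE').orb fc).hy
    -- `(R - 2)^(-m) ≤ (12 |Δcode|)^ρ`
    have k7 : ((1 / 4 : ℝ) ^ m) ^ (ρ : ℝ) ≤ 12 ^ (ρ : ℝ) * |code4 c - code4 d| ^ (ρ : ℝ) := by
      rw [← Real.mul_rpow (by norm_num) (abs_nonneg _)]
      apply Real.rpow_le_rpow (by positivity) _ (NNReal.coe_nonneg ρ)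
      linarith
    have hP : 0 < (R - 2) ^ m := by
      have : 0 < R - 2 := by linarith
      positivity
    have k8 : 1 ≤ ((1 / 4 : ℝ) ^ m) ^ (ρ : ℝ) * (R - 2) ^ m := by
      have e1 : ((1 / 4 : ℝ) ^ m) ^ (ρ : ℝ) = (((4 : ℝ) ^ (ρ : ℝ)) ^ m)⁻¹ := by
        rw [one_div_pow, Real.div_rpow (by norm_num) (by positivity), Real.one_rpow,
          ← Real.rpow_natCast, ← Real.rpow_mul (by norm_num), mul_comm, Real.rpow_mul (by norm_num),
          Real.rpow_natCast, one_div]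
      rw [e1]
      have e2 : ((4 : ℝ) ^ (ρ : ℝ)) ^ m ≤ (R - 2) ^ m :=
        pow_le_pow_left₀ (by positivity) hρ2 m
      have e3 : 0 < ((4 : ℝ) ^ (ρ : ℝ)) ^ m := by positivity
      calc (1 : ℝ) = (((4 : ℝ) ^ (ρ : ℝ)) ^ m)⁻¹ * ((4 : ℝ) ^ (ρ : ℝ)) ^ m := by field_simp
        _ ≤ _ := mul_le_mul_of_nonneg_left e2 (by positivity)
    have k9 : |(g E).y - (g E').y| ≤ 2 * ((1 / 4 : ℝ) ^ m) ^ (ρ : ℝ) := by
      have e4 : (R - 2) ^ m * |(g E).y - (g E').y| ≤ 2 := k5.trans k6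
      have e5 : 0 ≤ ((1 / 4 : ℝ) ^ m) ^ (ρ : ℝ) := by positivity
      calc |(g E).y - (g E').y| = 1 * |(g E).y - (g E').y| := (one_mul _).symm
        _ ≤ (((1 / 4 : ℝ) ^ m) ^ (ρ : ℝ) * (R - 2) ^ m) * |(g E).y - (g E').y| :=
            mul_le_mul_of_nonneg_right k8 (abs_nonneg _)
        _ = ((1 / 4 : ℝ) ^ m) ^ (ρ : ℝ) * ((R - 2) ^ m * |(g E).y - (g E').y|) := by ring
        _ ≤ ((1 / 4 : ℝ) ^ m) ^ (ρ : ℝ) * 2 := mul_le_mul_of_nonneg_left e4 e5
        _ = _ := by ring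
    calc |E - E'| ≤ C * |(g E).y - (g E').y| := q2
      _ ≤ C * (2 * (12 ^ (ρ : ℝ) * |code4 c - code4 d| ^ (ρ : ℝ))) := by
          apply mul_le_mul_of_nonneg_left _ hC.le
          linarith
      _ = _ := by ring

/-! ### lower bound -/

/-- symbols from bits -/
def bit (b : Fin 2) : Sym := if b = 0 then .p else .m

lemma bit_inj {a b : Fin 2} (h : bit a = bit b) : a = b := by
  revert h; revert a b; decide

/-- the dimension of an arc is positive -/
theorem Arc.dim_pos {R B : ℝ} {g : ℝ → P3} {l r : ℝ} (h : Arc R B g l r) (hR : 100 ≤ R)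
    (hB : 100 ≤ B) {ρ : ℝ≥0} (hρ : 0 < ρ) (hρ2 : (200 * B ^ 2) ^ (ρ : ℝ) ≤ 2) :
    (ρ : ℝ≥0∞) ≤ dimH (Lam g l r) := by
  classical
  obtain ⟨C, hC, hCl⟩ := h.lip
  have hL : 0 < 200 * B ^ 2 := by positivity
  have key := dimH_le_of_rel (S := Lam g l r) (T := Icc (0 : ℝ) 1) (r := ρ)
    (fun E t => E ∈ Icc l r ∧ ∃ b : ℕ → Fin 2, FollAll (fun k => bit (b k)) (g E) ∧
      t = Real.ofDigits b)
    (C := (C / 0.4) ^ (ρ : ℝ)) (by positivity) hρ ?_ ?_
  · have e1 : dimH (Icc (0 : ℝ) 1) = 1 := by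
      rw [Real.dimH_of_nonempty_interior (by rw [interior_Icc]; exact ⟨1 / 2, by norm_num⟩)]
      simp
    rw [e1] at key
    have e2 : (ρ : ℝ≥0∞) ≠ 0 := by simpa using hρ.ne'
    have e3 : (ρ : ℝ≥0∞) ≠ ⊤ := ENNReal.coe_ne_top
    have := (ENNReal.le_div_iff_mul_le (Or.inl e2) (Or.inl e3)).1 key
    rwa [one_mul] at this
  · intro t ht
    obtain ⟨b, -, hb⟩ := Real.ofDigits_SurjOn (b := 2) (by norm_num) ht
    obtain ⟨E, hE, hE2⟩ := h.exists_itin hR hB (fun k => bit (b k))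
    exact ⟨E, ⟨hE, _, hE2⟩, hE, b, hE2, hb.symm⟩
  · rintro E E' t t' ⟨hE, b, hb, rfl⟩ ⟨hE', b', hb', rfl⟩
    by_cases hbb : b = b'
    · rw [hbb, sub_self, abs_zero]; positivity
    have hne : ∃ k, b k ≠ b' k := by
      by_contra hcd
      push Not at hcd
      exact hbb (funext hcd)
    have h1 := Nat.find_spec hne
    have h2 : ∀ k < Nat.find hne, b k = b' k := fun k hk => by
      have := Nat.find_min hne hk; push Not at this; exact this
    set m := Nat.find hne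
    have k1 := Real.abs_ofDigits_sub_ofDigits_le h2
    have fc : Foll (fun k => bit (b k)) m (g E') :=
      (hb'.foll m).congr (fun k hk => by simp only [h2 k hk])
    have sg := h.sgn E hE E' hE'
    have ee : orb (fun k => bit (b k)) m (g E') = orb (fun k => bit (b' k)) m (g E') :=
      orb_congr (fun k hk => by simp only [h2 k hk]) _
    have k2 : 0.4 ≤ |(orb (fun k => bit (b k)) m (g E)).y -
        (orb (fun k => bit (b k)) m (g E')).y| := by
      rw [ee]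
      exact sep hR ((h.reg E hE).orb (hb.foll m)) ((h.reg E' hE').orb (hb'.foll m)) (hb m)
        (hb' m) (fun hh => h1 (bit_inj hh))
    have k3 : ∀ j ≤ m, |(orb (fun k => bit (b k)) j (g E)).y -
        (orb (fun k => bit (b k)) j (g E')).y| ≤ (200 * B ^ 2) ^ j * |(g E).y - (g E').y| := by
      intro j
      induction j with
      | zero => intro _; simp only [orb, pow_zero, one_mul]; exact le_refl _
      | succ j ih =>
        intro hj
        have i1 := ih (by omega)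
        have r1 := (h.reg E hE).orb (hb.foll j)
        have r2 := (h.reg E' hE').orb (fc.mono (by omega : j ≤ m))
        have s1 := sign_orb hR (h.reg E hE) (h.reg E' hE') (hb.foll j)
          (fc.mono (by omega : j ≤ m)) sg
        have c1 := ((h.cone E hE E' hE').orb hR (h.reg E hE) (h.reg E' hE') (hb.foll j)
          (fc.mono (by omega : j ≤ m)) sg).1
        have k := lip_step c1 hR r1 r2 s1 (by linarith : 1 ≤ B)
          (r1.x_le (by linarith) (by rw [inv_orb]; exact h.bnd E hE))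
          (r2.x_le (by linarith) (by rw [inv_orb]; exact h.bnd E' hE')) (hb j)
          (fc j (by omega))
        rw [orb, orb]
        refine k.trans ?_
        have k' := mul_le_mul_of_nonneg_left i1 hL.le
        refine k'.trans (le_of_eq ?_)
        ring
    have k4 := k3 m (le_refl _)
    obtain ⟨q1, q2⟩ := hCl E hE E' hE'
    have k5 : ((200 * B ^ 2) ^ m)⁻¹ ≤ C / 0.4 * |E - E'| := by
      rw [inv_le_iff_one_le_mul₀ (by positivity)]
      have : 0.4 ≤ (200 * B ^ 2) ^ m * (C * |E - E'|) :=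
        (k2.trans k4).trans (mul_le_mul_of_nonneg_left q1 (by positivity))
      have e : C / 0.4 * |E - E'| * (200 * B ^ 2) ^ m =
        ((200 * B ^ 2) ^ m * (C * |E - E'|)) / 0.4 := by ring
      rw [e, le_div_iff₀ (by norm_num)]
      linarith
    have k6 : (((2 : ℕ) : ℝ) ^ m)⁻¹ ≤ (((200 * B ^ 2) ^ m)⁻¹) ^ (ρ : ℝ) := by
      rw [Real.inv_rpow (by positivity)]
      apply inv_anti₀ (by positivity)
      rw [← Real.rpow_natCast, ← Real.rpow_mul hL.le, mul_comm (m : ℝ), Real.rpow_mul hL.le,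
        Real.rpow_natCast]
      push_cast
      exact pow_le_pow_left₀ (by positivity) hρ2 m
    calc |Real.ofDigits b - Real.ofDigits b'| ≤ (((2 : ℕ) : ℝ) ^ m)⁻¹ := k1
      _ ≤ _ := k6
      _ ≤ (C / 0.4 * |E - E'|) ^ (ρ : ℝ) :=
          Real.rpow_le_rpow (by positivity) k5 (NNReal.coe_nonneg ρ)
      _ = _ := Real.mul_rpow (by positivity) (abs_nonneg _)

end Pool.Agent.W811.Fib
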