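import Pool.Agent.W811.Fib.Orbit

/-!
Comparison of the expansion factors along two pairs of states with the same itineraries.
-/

set_option autoImplicit false

namespace Pool.Agent.W811.Fib

lemma abs_add3 (a b c : ℝ) : |a + b + c| ≤ |a| + |b| + |c| :=
  (abs_add_le _ _).trans (by gcongr; exact abs_add_le _ _)

lemma abs_add4 (a b c d : ℝ) : |a + b + c + d| ≤ |a| + |b| + |c| + |d| :=
  (abs_add_le _ _).trans (by gcongr; exact abs_add3 _ _ _)

lemma le_mul_exp {f g h : ℝ} (hg : 98 ≤ |g|) (h1 : |f - g| ≤ 98 * h) (hh : 0 ≤ h) :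
    |f| ≤ |g| * Real.exp h := by
  have h2 : |f| ≤ |g| + |f - g| := by
    have := abs_add_le g (f - g)
    rwa [add_sub_cancel] at this
  have h3 : h + 1 ≤ Real.exp h := Real.add_one_le_exp h
  calc |f| ≤ |g| + 98 * h := by linarith
    _ ≤ |g| + |g| * h := by nlinarith
    _ = |g| * (h + 1) := by ring
    _ ≤ _ := mul_le_mul_of_nonneg_left h3 (abs_nonneg _)

/-- the `B` branch -/
lemma fact_b {B D e y σ χ x z ζ f y' σ' χ' x' z' ζ' f' : ℝ} (hB : 100 ≤ B) (hD : 0 ≤ D)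
    (hy : |y| ≤ 1) (hy' : |y'| ≤ 1) (hσ' : |σ'| ≤ 1) (hχ' : |χ'| ≤ 5) (hx' : |x'| ≤ B)
    (dy : |y - y'| ≤ D) (dx : |x - x'| ≤ D) (dz : |z - z'| ≤ D)
    (he : |σ - σ'| + |χ - χ'| ≤ e)
    (h1 : ζ = 2 * y * χ + 2 * x - σ) (h1' : ζ' = 2 * y' * χ' + 2 * x' - σ')
    (h2 : f = 2 * y * ζ + 2 * z - χ) (h2' : f' = 2 * y' * ζ' + 2 * z' - χ')
    (hf : 98 ≤ |f|) (hf' : 98 ≤ |f'|) (hq : |ζ' / f'| ≤ 5) :
    |1 / f - 1 / f'| + |ζ / f - ζ' / f'| ≤ e / 2 + B * D ∧ |f| ≤ |f'| * Real.exp (e + B * D) := by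
  have s0 : 0 ≤ |σ - σ'| := abs_nonneg _
  have s1 : 0 ≤ |χ - χ'| := abs_nonneg _
  have he0 : 0 ≤ e := by linarith
  have hBD : 100 * D ≤ B * D := mul_le_mul_of_nonneg_right hB hD
  have z1 : |ζ - ζ'| ≤ 2 * e + 12 * D := by
    have k : ζ - ζ' = 2 * y * (χ - χ') + 2 * χ' * (y - y') + 2 * (x - x') + (-(σ - σ')) := by
      rw [h1, h1']; ring
    rw [k]
    refine (abs_add4 _ _ _ _).trans ?_
    rw [abs_neg, abs_mul, abs_mul 2, abs_mul (2 * χ'), abs_mul 2 χ', abs_mul 2 (x - x'), abs_two]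
    have f1 : 2 * |y| * |χ - χ'| ≤ 2 * |χ - χ'| := by nlinarith [abs_nonneg y]
    have f2 : 2 * |χ'| * |y - y'| ≤ 2 * 5 * D :=
      mul_le_mul (by linarith) dy (abs_nonneg _) (by norm_num)
    linarith
  have z2 : |ζ'| ≤ 3 * B := by
    rw [h1']
    have : 2 * y' * χ' + 2 * x' - σ' = 2 * y' * χ' + 2 * x' + (-σ') := by ring
    rw [this]
    refine (abs_add3 _ _ _).trans ?_
    rw [abs_neg, abs_mul, abs_mul 2, abs_mul 2 x', abs_two]
    have f1 : 2 * |y'| * |χ'| ≤ 2 * 1 * 5 :=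
      mul_le_mul (by linarith) hχ' (abs_nonneg _) (by norm_num)
    linarith
  have z3 : |f - f'| ≤ 5 * e + 7 * (B * D) := by
    have k : f - f' = 2 * y * (ζ - ζ') + 2 * ζ' * (y - y') + 2 * (z - z') + (-(χ - χ')) := by
      rw [h2, h2']; ring
    rw [k]
    refine (abs_add4 _ _ _ _).trans ?_
    rw [abs_neg, abs_mul, abs_mul 2, abs_mul (2 * ζ'), abs_mul 2 ζ', abs_mul 2 (z - z'), abs_two]
    have f1 : 2 * |y| * |ζ - ζ'| ≤ 2 * |ζ - ζ'| := by nlinarith [abs_nonneg y, abs_nonneg (ζ - ζ')]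
    have f2 : 2 * |ζ'| * |y - y'| ≤ 2 * (3 * B) * D :=
      mul_le_mul (by linarith) dy (abs_nonneg _) (by positivity)
    linarith
  have fp : 0 < |f| := by linarith
  have fp' : 0 < |f'| := by linarith
  have hf0 : f ≠ 0 := abs_pos.1 fp
  have hf0' : f' ≠ 0 := abs_pos.1 fp'
  constructor
  · have g1 : |1 / f - 1 / f'| ≤ |f - f'| / 98 := by
      have k : 1 / f - 1 / f' = (f' - f) / (f * f') := by field_simp
      rw [k, abs_div, abs_mul, abs_sub_comm f' f]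
      apply div_le_div_of_nonneg_left (abs_nonneg _) (by norm_num)
      nlinarith
    have g2 : |ζ / f - ζ' / f'| ≤ |ζ - ζ'| / 98 + 5 * (|f - f'| / 98) := by
      have k : ζ / f - ζ' / f' = (ζ - ζ') / f + (ζ' / f') * ((f' - f) / f) := by
        field_simp; ring
      rw [k]
      refine (abs_add_le _ _).trans ?_
      rw [abs_mul, abs_div (ζ - ζ') f, abs_div (f' - f), abs_sub_comm f' f]
      have g3 : |ζ - ζ'| / |f| ≤ |ζ - ζ'| / 98 :=
        div_le_div_of_nonneg_left (abs_nonneg _) (by norm_num) hf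
      have g4 : |f - f'| / |f| ≤ |f - f'| / 98 :=
        div_le_div_of_nonneg_left (abs_nonneg _) (by norm_num) hf
      have g5 : |ζ' / f'| * (|f - f'| / |f|) ≤ 5 * (|f - f'| / 98) :=
        mul_le_mul hq g4 (by positivity) (by norm_num)
      linarith
    linarith
  · apply le_mul_exp hf' _ (by positivity)
    have : 0 ≤ B * D := by positivity
    linarith

/-- the `A` branch -/
lemma fact_a {B D e y σ χ x z w ζ ω f y' σ' χ' x' z' w' ζ' ω' f' : ℝ} (hB : 100 ≤ B)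
    (hD : 0 ≤ D)
    (hy : |y| ≤ 0.01) (hy' : |y'| ≤ 0.01) (hz : |z| ≤ 0.01) (hz' : |z'| ≤ 0.01)
    (hσ : |σ| ≤ 1) (hχ : |χ| ≤ 5) (hσ' : |σ'| ≤ 1)
    (hχ' : |χ'| ≤ 5) (hx : 100 ≤ |x|) (hx' : 100 ≤ |x'|) (hw : 100 ≤ |w|) (hw' : 100 ≤ |w'|)
    (dy : |y - y'| ≤ D) (dx : |x - x'| ≤ D) (dz : |z - z'| ≤ D) (dw : |w - w'| ≤ D)
    (he : |σ - σ'| + |χ - χ'| ≤ e)
    (h1 : ζ = 2 * y * χ + 2 * x - σ) (h1' : ζ' = 2 * y' * χ' + 2 * x' - σ')
    (h2 : ω = 2 * y * ζ + 2 * z - χ) (h2' : ω' = 2 * y' * ζ' + 2 * z' - χ')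
    (h3 : f = 2 * w * ζ + 2 * z * ω - 1) (h3' : f' = 2 * w' * ζ' + 2 * z' * ω' - 1) :
    |ζ / f - ζ' / f'| + |ω / f - ω' / f'| ≤ e / 2 + B * D ∧
      |f| ≤ |f'| * Real.exp (e + B * D) := by
  have s0 : 0 ≤ |σ - σ'| := abs_nonneg _
  have s1 : 0 ≤ |χ - χ'| := abs_nonneg _
  have he0 : 0 ≤ e := by linarith
  have hBD : 100 * D ≤ B * D := mul_le_mul_of_nonneg_right hB hD
  have zlow : ∀ y σ χ x : ℝ, |y| ≤ 0.01 → |σ| ≤ 1 → |χ| ≤ 5 → 100 ≤ |x| →
      198 ≤ |2 * y * χ + 2 * x - σ| := by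
    intro y σ χ x hy hσ hχ hx
    have k := abs_sub_abs_le_abs_sub (2 * x) (-(2 * y * χ) + σ)
    have k2 : 2 * x - (-(2 * y * χ) + σ) = 2 * y * χ + 2 * x - σ := by ring
    rw [k2, abs_mul 2 x, abs_two] at k
    have k3 : |-(2 * y * χ) + σ| ≤ 2 := by
      refine (abs_add_le _ _).trans ?_
      rw [abs_neg, abs_mul, abs_mul, abs_two]
      have : 2 * |y| * |χ| ≤ 2 * 0.01 * 5 :=
        mul_le_mul (by linarith) hχ (abs_nonneg _) (by norm_num)
      linarith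
    linarith
  have l1 : 198 ≤ |ζ| := by rw [h1]; exact zlow y σ χ x hy hσ hχ hx
  have l1' : 198 ≤ |ζ'| := by rw [h1']; exact zlow y' σ' χ' x' hy' hσ' hχ' hx'
  have z1 : |ζ - ζ'| ≤ e + 12 * D := by
    have k : ζ - ζ' = 2 * y * (χ - χ') + 2 * χ' * (y - y') + 2 * (x - x') + (-(σ - σ')) := by
      rw [h1, h1']; ring
    rw [k]
    refine (abs_add4 _ _ _ _).trans ?_
    rw [abs_neg, abs_mul, abs_mul 2, abs_mul (2 * χ'), abs_mul 2 χ', abs_mul 2 (x - x'), abs_two]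
    have f1 : 2 * |y| * |χ - χ'| ≤ |χ - χ'| := by nlinarith [abs_nonneg y]
    have f2 : 2 * |χ'| * |y - y'| ≤ 2 * 5 * D :=
      mul_le_mul (by linarith) dy (abs_nonneg _) (by norm_num)
    linarith
  have ζ0 : ζ ≠ 0 := by
    intro h; rw [h, abs_zero] at l1; linarith
  have ζ0' : ζ' ≠ 0 := by
    intro h; rw [h, abs_zero] at l1'; linarith
  set ρ := 1 / ζ with hρ
  set ρ' := 1 / ζ' with hρ'
  have r1 : |ρ| ≤ 1 / 198 := by
    rw [hρ, abs_div, abs_one]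
    exact div_le_div_of_nonneg_left (by norm_num) (by norm_num) l1
  have r1' : |ρ'| ≤ 1 / 198 := by
    rw [hρ', abs_div, abs_one]
    exact div_le_div_of_nonneg_left (by norm_num) (by norm_num) l1'
  have r2 : |ρ - ρ'| ≤ 0.001 * (e + 12 * D) := by
    have k : ρ - ρ' = (ζ' - ζ) / (ζ * ζ') := by rw [hρ, hρ']; field_simp
    rw [k, abs_div, abs_mul, abs_sub_comm ζ' ζ]
    have k2 : 1000 ≤ |ζ| * |ζ'| := by nlinarith
    calc |ζ - ζ'| / (|ζ| * |ζ'|) ≤ |ζ - ζ'| / 1000 :=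
          div_le_div_of_nonneg_left (abs_nonneg _) (by norm_num) k2
      _ ≤ _ := by linarith
  set τ := 2 * y + (2 * z - χ) * ρ with hτ
  set τ' := 2 * y' + (2 * z' - χ') * ρ' with hτ'
  have c1 : |2 * z - χ| ≤ 5.02 := by
    refine (abs_sub _ _).trans ?_
    rw [abs_mul, abs_two]; linarith
  have c1' : |2 * z' - χ'| ≤ 5.02 := by
    refine (abs_sub _ _).trans ?_
    rw [abs_mul, abs_two]; linarith
  have t1 : |τ'| ≤ 0.1 := by
    rw [hτ']
    refine (abs_add_le _ _).trans ?_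
    rw [abs_mul, abs_two, abs_mul]
    have : |2 * z' - χ'| * |ρ'| ≤ 5.02 * (1 / 198) :=
      mul_le_mul c1' r1' (abs_nonneg _) (by norm_num)
    linarith
  have t2 : |τ - τ'| ≤ 0.02 * e + 3 * D := by
    have k : τ - τ' = 2 * (y - y') + (2 * z' - χ') * (ρ - ρ') + 2 * ρ * (z - z') +
      (-(ρ * (χ - χ'))) := by rw [hτ, hτ']; ring
    rw [k]
    refine (abs_add4 _ _ _ _).trans ?_
    rw [abs_neg, abs_mul 2 (y - y'), abs_mul (2 * z' - χ'), abs_mul (2 * ρ), abs_mul 2 ρ,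
      abs_mul ρ (χ - χ'), abs_two]
    have f1 : |2 * z' - χ'| * |ρ - ρ'| ≤ 5.02 * (0.001 * (e + 12 * D)) :=
      mul_le_mul c1' r2 (abs_nonneg _) (by norm_num)
    have f2 : 2 * |ρ| * |z - z'| ≤ 2 * (1 / 198) * D :=
      mul_le_mul (by linarith) dz (abs_nonneg _) (by norm_num)
    have f3 : |ρ| * |χ - χ'| ≤ 1 / 198 * |χ - χ'| :=
      mul_le_mul_of_nonneg_right r1 (abs_nonneg _)
    linarith
  have e2 : ω = τ * ζ := by rw [h2, hτ, hρ]; field_simp; ring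
  have e2' : ω' = τ' * ζ' := by rw [h2', hτ', hρ']; field_simp; ring
  set φ := 2 * w + 2 * z * τ - ρ with hφ
  set φ' := 2 * w' + 2 * z' * τ' - ρ' with hφ'
  have e3 : f = φ * ζ := by
    have : ρ * ζ = 1 := by rw [hρ]; field_simp
    rw [h3, e2, hφ]; linear_combination this
  have e3' : f' = φ' * ζ' := by
    have : ρ' * ζ' = 1 := by rw [hρ']; field_simp
    rw [h3', e2', hφ']; linear_combination this
  have t1b : |τ| ≤ 0.1 := by
    rw [hτ]
    refine (abs_add_le _ _).trans ?_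
    rw [abs_mul, abs_two, abs_mul]
    have : |2 * z - χ| * |ρ| ≤ 5.02 * (1 / 198) :=
      mul_le_mul c1 r1 (abs_nonneg _) (by norm_num)
    linarith
  have plow : ∀ w z τ ρ : ℝ, 100 ≤ |w| → |z| ≤ 0.01 → |τ| ≤ 0.1 → |ρ| ≤ 1 / 198 →
      199 ≤ |2 * w + 2 * z * τ - ρ| := by
    intro w z τ ρ hw hz hτ hρ
    have k := abs_sub_abs_le_abs_sub (2 * w) (-(2 * z * τ) + ρ)
    have k2 : 2 * w - (-(2 * z * τ) + ρ) = 2 * w + 2 * z * τ - ρ := by ring
    rw [k2, abs_mul 2 w, abs_two] at k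
    have k3 : |-(2 * z * τ) + ρ| ≤ 1 := by
      refine (abs_add_le _ _).trans ?_
      rw [abs_neg, abs_mul, abs_mul, abs_two]
      have : 2 * |z| * |τ| ≤ 2 * 0.01 * 0.1 :=
        mul_le_mul (by linarith) hτ (abs_nonneg _) (by norm_num)
      linarith
    linarith
  have p1 : 199 ≤ |φ| := plow w z τ ρ hw hz t1b r1
  have p1' : 199 ≤ |φ'| := plow w' z' τ' ρ' hw' hz' t1 r1'
  have p2 : |φ - φ'| ≤ 0.01 * e + 3 * D := by
    have k : φ - φ' = 2 * (w - w') + 2 * z * (τ - τ') + 2 * τ' * (z - z') +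
      (-(ρ - ρ')) := by rw [hφ, hφ']; ring
    rw [k]
    refine (abs_add4 _ _ _ _).trans ?_
    rw [abs_neg, abs_mul 2 (w - w'), abs_mul (2 * z), abs_mul 2 z, abs_mul (2 * τ'),
      abs_mul 2 τ', abs_two]
    have f1 : 2 * |z| * |τ - τ'| ≤ 2 * 0.01 * (0.02 * e + 3 * D) :=
      mul_le_mul (by linarith) t2 (abs_nonneg _) (by norm_num)
    have f2 : 2 * |τ'| * |z - z'| ≤ 2 * 0.1 * D :=
      mul_le_mul (by linarith) dz (abs_nonneg _) (by norm_num)
    linarith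
  have φ0 : φ ≠ 0 := by
    intro h; rw [h, abs_zero] at p1; linarith
  have φ0' : φ' ≠ 0 := by
    intro h; rw [h, abs_zero] at p1'; linarith
  have g1 : ζ / f = 1 / φ := by rw [e3]; field_simp
  have g1' : ζ' / f' = 1 / φ' := by rw [e3']; field_simp
  have g2 : ω / f = τ / φ := by rw [e3, e2]; field_simp
  have g2' : ω' / f' = τ' / φ' := by rw [e3', e2']; field_simp
  have hq : |1 / φ - 1 / φ'| ≤ |φ - φ'| / 199 := by
    have k : 1 / φ - 1 / φ' = (φ' - φ) / (φ * φ') := by field_simp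
    rw [k, abs_div, abs_mul, abs_sub_comm φ' φ]
    apply div_le_div_of_nonneg_left (abs_nonneg _) (by norm_num)
    nlinarith
  constructor
  · rw [g1, g1', g2, g2']
    have hq2 : |τ / φ - τ' / φ'| ≤ |τ - τ'| / 199 + 0.1 * (|φ - φ'| / 199) := by
      have k : τ / φ - τ' / φ' = (τ - τ') / φ + τ' * (1 / φ - 1 / φ') := by ring
      rw [k]
      refine (abs_add_le _ _).trans ?_
      rw [abs_mul, abs_div (τ - τ')]
      have k1 : |τ - τ'| / |φ| ≤ |τ - τ'| / 199 :=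
        div_le_div_of_nonneg_left (abs_nonneg _) (by norm_num) p1
      have k2 : |τ'| * |1 / φ - 1 / φ'| ≤ 0.1 * (|φ - φ'| / 199) :=
        mul_le_mul t1 hq (abs_nonneg _) (by norm_num)
      linarith
    linarith
  · have k1 : |ζ| ≤ |ζ'| * Real.exp ((e + 12 * D) / 98) := by
      apply le_mul_exp (by linarith) _ (by positivity)
      linarith
    have k2 : |φ| ≤ |φ'| * Real.exp ((0.01 * e + 3 * D) / 98) := by
      apply le_mul_exp (by linarith) _ (by positivity)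
      linarith
    rw [e3, e3', abs_mul, abs_mul]
    calc |φ| * |ζ| ≤ (|φ'| * Real.exp ((0.01 * e + 3 * D) / 98)) *
          (|ζ'| * Real.exp ((e + 12 * D) / 98)) :=
          mul_le_mul k2 k1 (abs_nonneg _) (by positivity)
      _ = |φ'| * |ζ'| * Real.exp ((0.01 * e + 3 * D) / 98 + (e + 12 * D) / 98) := by
          rw [Real.exp_add]; ring
      _ ≤ _ := by
          apply mul_le_mul_of_nonneg_left _ (by positivity)
          apply Real.exp_le_exp.2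
          linarith

end Pool.Agent.W811.Fib
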