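import Mathlib

/-!
Three consecutive half traces `(u, x, y)` of the trace map, the induced maps on the states with
`|u| ≤ 1`, `|y| ≤ 1` and `x` large, and their hyperbolicity.
-/

set_option autoImplicit false

namespace Pool.Agent.W811.Fib

/-- three consecutive half traces -/
@[ext] structure P3 where
  u : ℝ
  x : ℝ
  y : ℝ

/-- two steps of the trace map -/
def stepB (s : P3) : P3 :=
  ⟨s.y, 2 * s.y * s.x - s.u, 2 * s.y * (2 * s.y * s.x - s.u) - s.x⟩

/-- three steps of the trace map -/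
def stepA (s : P3) : P3 :=
  ⟨2 * s.y * s.x - s.u, 2 * s.y * (2 * s.y * s.x - s.u) - s.x,
    2 * (2 * s.y * (2 * s.y * s.x - s.u) - s.x) * (2 * s.y * s.x - s.u) - s.y⟩

/-- the invariant -/
def inv (s : P3) : ℝ := s.u ^ 2 + s.x ^ 2 + s.y ^ 2 - 2 * s.u * s.x * s.y

/-- the three symbols -/
inductive Sym
  | a
  | p
  | m
deriving DecidableEq

/-- the induced map for a symbol -/
def step : Sym → P3 → P3
  | .a, s => stepA s
  | .p, s => stepB s
  | .m, s => stepB s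

/-- the symbol is allowed at the state -/
def Adm : Sym → P3 → Prop
  | .a, s => |2 * s.y * s.x - s.u| ≤ 1 ∧ |(stepA s).y| ≤ 1
  | .p, s => 0 < s.y ∧ |(stepB s).y| ≤ 1
  | .m, s => s.y < 0 ∧ |(stepB s).y| ≤ 1

lemma inv_stepB (s : P3) : inv (stepB s) = inv s := by
  simp only [inv, stepB]; ring

lemma inv_stepA (s : P3) : inv (stepA s) = inv s := by
  simp only [inv, stepA]; ring

lemma inv_step (c : Sym) (s : P3) : inv (step c s) = inv s := by
  cases c
  · exact inv_stepA s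
  · exact inv_stepB s
  · exact inv_stepB s

/-- the states under consideration -/
structure Reg (R : ℝ) (s : P3) : Prop where
  hu : |s.u| ≤ 1
  hy : |s.y| ≤ 1
  hV : (R + 2) ^ 2 ≤ inv s

lemma Reg.x_ge {R : ℝ} {s : P3} (hR : 0 ≤ R) (h : Reg R s) : R ≤ |s.x| := by
  obtain ⟨u1, u2⟩ := abs_le.1 h.hu
  obtain ⟨y1, y2⟩ := abs_le.1 h.hy
  have hV := h.hV
  by_contra hc
  push Not at hc
  obtain ⟨x1, x2⟩ := abs_lt.1 hc
  have h1 : (s.x - s.u * s.y) ^ 2 = inv s - (s.u ^ 2 + s.y ^ 2 - s.u ^ 2 * s.y ^ 2) := by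
    simp only [inv]; ring
  have hu2 : s.u ^ 2 ≤ 1 := by nlinarith
  have hy2 : s.y ^ 2 ≤ 1 := by nlinarith
  have h2 : s.u ^ 2 + s.y ^ 2 - s.u ^ 2 * s.y ^ 2 ≤ 1 := by nlinarith
  have h3 : |s.u * s.y| ≤ 1 := by
    rw [abs_mul]
    calc |s.u| * |s.y| ≤ 1 * 1 := mul_le_mul h.hu h.hy (abs_nonneg _) zero_le_one
      _ = 1 := one_mul 1
  obtain ⟨p1, p2⟩ := abs_le.1 h3
  have h4 : (s.x - s.u * s.y) ^ 2 ≤ (R + 1) ^ 2 := by
    apply sq_le_sq'
    · linarith
    · linarith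
  nlinarith

lemma Reg.x_le {R B : ℝ} {s : P3} (h : Reg R s) (hB : 1 ≤ B) (hV : inv s ≤ (B - 1) ^ 2) :
    |s.x| ≤ B := by
  obtain ⟨u1, u2⟩ := abs_le.1 h.hu
  obtain ⟨y1, y2⟩ := abs_le.1 h.hy
  have h1 : (s.x - s.u * s.y) ^ 2 = inv s - (s.u ^ 2 + s.y ^ 2 * (1 - s.u ^ 2)) := by
    simp only [inv]; ring
  have hu2 : s.u ^ 2 ≤ 1 := by nlinarith
  have h2 : (s.x - s.u * s.y) ^ 2 ≤ (B - 1) ^ 2 := by
    have : 0 ≤ s.y ^ 2 * (1 - s.u ^ 2) := mul_nonneg (sq_nonneg _) (by linarith)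
    nlinarith [sq_nonneg s.u]
  have h3 : |s.u * s.y| ≤ 1 := by
    rw [abs_mul]
    calc |s.u| * |s.y| ≤ 1 * 1 := mul_le_mul h.hu h.hy (abs_nonneg _) zero_le_one
      _ = 1 := one_mul 1
  obtain ⟨p1, p2⟩ := abs_le.1 h3
  have h4 := abs_le_of_sq_le_sq' h2 (by linarith)
  rw [abs_le]
  constructor <;> linarith [h4.1, h4.2]

/-! ### consequences of admissibility -/

lemma sq_y_of_B {R : ℝ} {s : P3} (hR : 100 ≤ R) (h : Reg R s) (hb : |(stepB s).y| ≤ 1) :
    |4 * s.y ^ 2 - 1| ≤ 3 / 100 := by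
  have hx := h.x_ge (by linarith)
  have e : (stepB s).y = s.x * (4 * s.y ^ 2 - 1) - 2 * s.u * s.y := by
    simp only [stepB]; ring
  have h3 : |s.u * s.y| ≤ 1 := by
    rw [abs_mul]
    calc |s.u| * |s.y| ≤ 1 * 1 := mul_le_mul h.hu h.hy (abs_nonneg _) zero_le_one
      _ = 1 := one_mul 1
  have h4 : |s.x * (4 * s.y ^ 2 - 1)| ≤ 3 := by
    have : s.x * (4 * s.y ^ 2 - 1) = (stepB s).y + 2 * (s.u * s.y) := by rw [e]; ring
    rw [this]
    calc |(stepB s).y + 2 * (s.u * s.y)| ≤ |(stepB s).y| + |2 * (s.u * s.y)| := abs_add_le _ _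
      _ ≤ 1 + 2 := by
          rw [abs_mul 2, abs_two]; linarith
      _ = 3 := by norm_num
  rw [abs_mul] at h4
  have h5 : 100 * |4 * s.y ^ 2 - 1| ≤ |s.x| * |4 * s.y ^ 2 - 1| :=
    mul_le_mul_of_nonneg_right (by linarith) (abs_nonneg _)
  linarith

lemma y_of_p {R : ℝ} {s : P3} (hR : 100 ≤ R) (h : Reg R s) (hb : Adm .p s) :
    0.49 ≤ s.y ∧ s.y ≤ 0.51 := by
  obtain ⟨h0, h1⟩ := hb
  obtain ⟨h2, h3⟩ := abs_le.1 (sq_y_of_B hR h h1)
  constructor <;> nlinarith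

lemma y_of_m {R : ℝ} {s : P3} (hR : 100 ≤ R) (h : Reg R s) (hb : Adm .m s) :
    -0.51 ≤ s.y ∧ s.y ≤ -0.49 := by
  obtain ⟨h0, h1⟩ := hb
  obtain ⟨h2, h3⟩ := abs_le.1 (sq_y_of_B hR h h1)
  constructor <;> nlinarith

lemma y_of_a {R : ℝ} {s : P3} (hR : 100 ≤ R) (h : Reg R s) (hb : Adm .a s) :
    |s.y| ≤ 0.01 := by
  have hx := h.x_ge (by linarith)
  obtain ⟨h0, h1⟩ := hb
  have h2 : |2 * s.y * s.x| ≤ 2 := by
    have : 2 * s.y * s.x = (2 * s.y * s.x - s.u) + s.u := by ring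
    rw [this]
    exact (abs_add_le _ _).trans (by linarith [h.hu])
  rw [abs_mul, abs_mul, abs_two] at h2
  have h3 : 100 * |s.y| ≤ |s.x| * |s.y| :=
    mul_le_mul_of_nonneg_right (by linarith) (abs_nonneg _)
  nlinarith

lemma z_of_a {R : ℝ} {s : P3} (hR : 100 ≤ R) (h : Reg R s) (hb : Adm .a s) :
    |2 * s.y * s.x - s.u| ≤ 0.01 := by
  have hx := h.x_ge (by linarith)
  have hy := y_of_a hR h hb
  obtain ⟨h0, h1⟩ := hb
  set z := 2 * s.y * s.x - s.u with hz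
  have e : (stepA s).y = 2 * (2 * s.y * z - s.x) * z - s.y := rfl
  rw [e] at h1
  have h2 : |2 * (2 * s.y * z - s.x) * z| ≤ 1.01 := by
    have : 2 * (2 * s.y * z - s.x) * z = (2 * (2 * s.y * z - s.x) * z - s.y) + s.y := by ring
    rw [this]
    exact (abs_add_le _ _).trans (by linarith)
  have h3 : 99 ≤ |2 * s.y * z - s.x| := by
    have h4 : |2 * s.y * z| ≤ 0.02 := by
      rw [abs_mul, abs_mul, abs_two]
      nlinarith [abs_nonneg s.y, abs_nonneg z]
    have h5 := abs_sub_abs_le_abs_sub s.x (2 * s.y * z)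
    rw [abs_sub_comm] at h5
    linarith
  rw [abs_mul, abs_mul, abs_two] at h2
  nlinarith [abs_nonneg z]

/-- the next state is again of the same kind -/
lemma Reg.step {R : ℝ} {s : P3} {c : Sym} (h : Reg R s) (hb : Adm c s) : Reg R (step c s) := by
  refine ⟨?_, ?_, ?_⟩
  · cases c
    · exact hb.1
    · exact h.hy
    · exact h.hy
  · cases c
    · exact hb.2
    · exact hb.2
    · exact hb.2
  · rw [inv_step]; exact h.hV

/-- the sign of `x` after a step -/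
lemma sign_step {R : ℝ} {s t : P3} {c : Sym} (hR : 100 ≤ R) (hs : Reg R s) (ht : Reg R t)
    (as : Adm c s) (at' : Adm c t) (h : 0 < s.x * t.x) :
    0 < (step c s).x * (step c t).x := by
  have xs := hs.x_ge (by linarith)
  have xt := ht.x_ge (by linarith)
  obtain ⟨us1, us2⟩ := abs_le.1 hs.hu
  obtain ⟨ut1, ut2⟩ := abs_le.1 ht.hu
  have key : (100 ≤ s.x ∧ 100 ≤ t.x) ∨ (s.x ≤ -100 ∧ t.x ≤ -100) := by
    rcases le_or_gt 0 s.x with h1 | h1
    · left
      have h2 : 0 < t.x := by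
        by_contra hc; push Not at hc; nlinarith
      rw [abs_of_nonneg h1] at xs
      rw [abs_of_pos h2] at xt
      constructor <;> linarith
    · right
      have h2 : t.x < 0 := by
        by_contra hc; push Not at hc; nlinarith
      rw [abs_of_neg h1] at xs
      rw [abs_of_neg h2] at xt
      constructor <;> linarith
  cases c
  · have zs := z_of_a hR hs as
    have zt := z_of_a hR ht at'
    have ys := y_of_a hR hs as
    have yt := y_of_a hR ht at'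
    change 0 < (2 * s.y * (2 * s.y * s.x - s.u) - s.x) * (2 * t.y * (2 * t.y * t.x - t.u) - t.x)
    set z := 2 * s.y * s.x - s.u
    set w := 2 * t.y * t.x - t.u
    have e1 : |2 * s.y * z| ≤ 1 := by
      rw [abs_mul, abs_mul, abs_two]; nlinarith [abs_nonneg s.y, abs_nonneg z]
    have e2 : |2 * t.y * w| ≤ 1 := by
      rw [abs_mul, abs_mul, abs_two]; nlinarith [abs_nonneg t.y, abs_nonneg w]
    obtain ⟨e3, e4⟩ := abs_le.1 e1
    obtain ⟨e5, e6⟩ := abs_le.1 e2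
    rcases key with ⟨k1, k2⟩ | ⟨k1, k2⟩
    · exact mul_pos_of_neg_of_neg (by linarith) (by linarith)
    · exact mul_pos (by linarith) (by linarith)
  · obtain ⟨ys1, ys2⟩ := y_of_p hR hs as
    obtain ⟨yt1, yt2⟩ := y_of_p hR ht at'
    change 0 < (2 * s.y * s.x - s.u) * (2 * t.y * t.x - t.u)
    rcases key with ⟨k1, k2⟩ | ⟨k1, k2⟩
    · exact mul_pos (by nlinarith) (by nlinarith)
    · exact mul_pos_of_neg_of_neg (by nlinarith) (by nlinarith)
  · obtain ⟨ys1, ys2⟩ := y_of_m hR hs as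
    obtain ⟨yt1, yt2⟩ := y_of_m hR ht at'
    change 0 < (2 * s.y * s.x - s.u) * (2 * t.y * t.x - t.u)
    rcases key with ⟨k1, k2⟩ | ⟨k1, k2⟩
    · exact mul_pos_of_neg_of_neg (by nlinarith) (by nlinarith)
    · exact mul_pos (by nlinarith) (by nlinarith)

end Pool.Agent.W811.Fib
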