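import Pool.Agent.W811.Fib.Cluster

/-!
Local dimension at a point of constant itinerary; real-valued comparison of dimensions.
-/

set_option autoImplicit false

namespace Pool.Agent.W811.Fib

open Set
open scoped NNReal ENNReal

/-- the dimension as a real number -/
noncomputable def dr (S : Set ℝ) : ℝ := (dimH S).toReal

lemma dimH_le_one (S : Set ℝ) : dimH S ≤ 1 := by
  have := dimH_mono (subset_univ S)
  rwa [Real.dimH_univ] at this

lemma dimH_ne_top' (S : Set ℝ) : dimH S ≠ ⊤ := by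
  have := dimH_le_one S
  intro h
  rw [h] at this
  exact absurd this (by simp)

lemma dr_nonneg (S : Set ℝ) : 0 ≤ dr S := ENNReal.toReal_nonneg

lemma dr_le_one (S : Set ℝ) : dr S ≤ 1 := by
  have := ENNReal.toReal_mono (by simp) (dimH_le_one S)
  simpa [dr] using this

lemma dr_mono {S T : Set ℝ} (h : S ⊆ T) : dr S ≤ dr T :=
  ENNReal.toReal_mono (dimH_ne_top' T) (dimH_mono h)

lemma dr_union (S T : Set ℝ) : dr (S ∪ T) = max (dr S) (dr T) := by
  unfold dr
  rw [dimH_union]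
  exact ENNReal.toReal_max (dimH_ne_top' S) (dimH_ne_top' T)

lemma dr_of_div {S T : Set ℝ} {κ : ℝ≥0} (hκ : 0 < κ) (h : dimH T ≤ dimH S / κ) :
    dr T * κ ≤ dr S := by
  have h1 : dimH T * κ ≤ dimH S := by
    rwa [ENNReal.le_div_iff_mul_le (Or.inl (by simpa using hκ.ne')) (Or.inl ENNReal.coe_ne_top)]
      at h
  have h2 := ENNReal.toReal_mono (dimH_ne_top' S) h1
  rw [ENNReal.toReal_mul, ENNReal.coe_toReal] at h2
  exact h2

/-- real form of the comparison -/
theorem compareR {R B v : ℝ} {g g' : ℝ → P3} {l r l' r' : ℝ} (hR : 100 ≤ R) (hB : 100 ≤ B)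
    (hv : 0 ≤ v) (h : Arc R B g l r) (h' : Arc R B g' l' r')
    (hvv : ∀ E ∈ Icc l r, ∀ E' ∈ Icc l' r', |inv (g E) - inv (g' E')| ≤ v)
    (hs : 12 * B * v < 1) :
    dr (Lam g' l' r') * (1 - 12 * B * v) ≤ dr (Lam g l r) := by
  have hpos : 0 < 1 - 12 * B * v := by linarith
  set κ : ℝ≥0 := Real.toNNReal (1 - 12 * B * v) with hκ
  have hκ2 : (κ : ℝ) = 1 - 12 * B * v := Real.coe_toNNReal _ hpos.le
  have hκ0 : 0 < κ := by rw [hκ]; exact Real.toNNReal_pos.2 hpos
  have := dr_of_div hκ0 (compare hR hB hv h h' hvv hκ0 hκ2)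
  rwa [hκ2] at this

lemma Arc.mono {R B R' B' : ℝ} {g : ℝ → P3} {l r : ℝ} (h : Arc R B g l r) (hR : 0 ≤ R')
    (hRR : R' ≤ R) (hB : 1 ≤ B) (hBB : B ≤ B') : Arc R' B' g l r := by
  refine ⟨h.lr, h.cu, h.cx, h.cy, ?_, ?_, h.sgn, h.cone, h.lip, h.cross⟩
  · intro E hE
    have := h.reg E hE
    refine ⟨this.hu, this.hy, ?_⟩
    refine le_trans ?_ this.hV
    apply pow_le_pow_left₀ (by linarith)
    linarith
  · intro E hE
    refine (h.bnd E hE).trans ?_
    apply pow_le_pow_left₀ (by linarith)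
    linarith

/-! ### constant itineraries -/

lemma orb_const (c : Sym) (s : P3) (k : ℕ) :
    orb (fun _ => c) (k + 1) s = orb (fun _ => c) k (step c s) := by
  induction k with
  | zero => rfl
  | succ k ih => rw [orb, ih, orb]

lemma foll_const_cons {c : Sym} {s : P3} (h : Adm c s) (hd : FollAll (fun _ => c) (step c s)) :
    FollAll (fun _ => c) s := by
  intro k
  cases k with
  | zero => exact h
  | succ k =>
    rw [orb_const]
    exact hd k

lemma foll_const_tail {c : Sym} {s : P3} (h : FollAll (fun _ => c) s) :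
    FollAll (fun _ => c) (step c s) := by
  intro k
  rw [← orb_const]
  exact h (k + 1)

/-- small sub-arcs around the point of constant itinerary -/
theorem Arc.small_at {R B : ℝ} {g : ℝ → P3} {l r : ℝ} (h : Arc R B g l r) (hR : 100 ≤ R)
    (hB : 100 ≤ B) {E₀ : ℝ} (hE₀ : E₀ ∈ Icc l r) (hf : FollAll (fun _ => Sym.p) (g E₀)) (n : ℕ) :
    ∃ (g' : ℝ → P3) (l' r' : ℝ), l ≤ l' ∧ l' ≤ r' ∧ r' ≤ r ∧
      Arc R B g' l' r' ∧ Lam g' l' r' ⊆ Lam g l r ∧ (∀ E, inv (g' E) = inv (g E)) ∧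
      E₀ ∈ Icc l' r' ∧ FollAll (fun _ => Sym.p) (g' E₀) ∧
      ∀ E ∈ Icc l' r', ∀ E' ∈ Icc l' r',
        (R - 2) ^ n * |(g E).y - (g E').y| ≤ |(g' E).y - (g' E').y| := by
  induction n with
  | zero =>
    exact ⟨g, l, r, le_refl _, h.lr, le_refl _, h, subset_refl _, fun _ => rfl, hE₀, hf,
      fun E _ E' _ => by rw [pow_zero, one_mul]⟩
  | succ n ih =>
    obtain ⟨g', l', r', h1, h2, h3, h4, h5, h6, h7, h8, h9⟩ := ih
    obtain ⟨l₂, r₂, k1, k2, k3, k4, k5⟩ := h4.sub hR hB .p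
    have hsub : Icc l₂ r₂ ⊆ Icc l' r' := Icc_subset_Icc k1 k3
    have hmem : E₀ ∈ Icc l₂ r₂ := by
      obtain ⟨E, hE, hE2⟩ := k5.exists_itin hR hB (fun _ => Sym.p)
      have hE3 : FollAll (fun _ => Sym.p) (g' E) := foll_const_cons (k4 E hE) hE2
      have hy : (g' E).y = (g' E₀).y := by
        by_contra hne
        exact itin_ne_of_ne hR (h4.reg E (hsub hE)) (h4.reg E₀ h7) (h4.cone E (hsub hE) E₀ h7)
          (h4.sgn E (hsub hE) E₀ h7) hE3 h8 hne
      obtain ⟨C, hC, hCl⟩ := h4.lip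
      have := (hCl E (hsub hE) E₀ h7).2
      rw [hy, sub_self, abs_zero, mul_zero] at this
      have : E = E₀ := by
        have := abs_nonpos_iff.1 this; linarith
      rw [← this]; exact hE
    refine ⟨fun E => step .p (g' E), l₂, r₂, h1.trans k1, k2, k3.trans h3, k5, ?_, ?_, hmem,
      foll_const_tail h8, ?_⟩
    · refine subset_trans ?_ h5
      rintro E ⟨hE, d, hd⟩
      exact ⟨hsub hE, foll_cons (k4 E hE) hd⟩
    · intro E; rw [inv_step]; exact h6 E
    · intro E hE E' hE'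
      have q1 := h9 E (hsub hE) E' (hsub hE')
      have q2 := ((h4.cone E (hsub hE) E' (hsub hE')).step hR (h4.reg E (hsub hE))
        (h4.reg E' (hsub hE')) (k4 E hE) (k4 E' hE') (h4.sgn E (hsub hE) E' (hsub hE'))).2
      refine le_trans ?_ q2
      rw [pow_succ, mul_comm ((R - 2) ^ n), mul_assoc]
      exact mul_le_mul_of_nonneg_left q1 (by linarith)

/-- **Lower bound by the dimension of the arcs with constant invariant.** -/
theorem lb_arc {R B : ℝ} {g : ℝ → P3} {l r : ℝ} (h : Arc R B g l r) (hR : 100 ≤ R)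
    (hB : 100 ≤ B) : ∃ E₀ ∈ Icc l r, ∀ (B' : ℝ) (g' : ℝ → P3) (l' r' : ℝ), B ≤ B' →
      Arc R B' g' l' r' →
      (∀ E ∈ Icc l' r', inv (g' E) = inv (g E₀)) → dr (Lam g' l' r') ≤ dr (Lam g l r) := by
  obtain ⟨E₀, hE₀, hf⟩ := h.exists_itin hR hB (fun _ => Sym.p)
  refine ⟨E₀, hE₀, ?_⟩
  intro B' g' l' r' hBB h' hinv
  have hB' : 100 ≤ B' := hB.trans hBB
  have hm : Arc R B' g l r := h.mono (by linarith) (le_refl _) (by linarith) hBB
  apply le_of_forall_pos_le_add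
  intro ε hε
  -- choose `δ`
  set δ := min (ε / (12 * B')) (1 / (24 * B')) with hδ
  have hδ0 : 0 < δ := by rw [hδ]; positivity
  have hδ1 : 12 * B' * δ ≤ ε := by
    have : δ ≤ ε / (12 * B') := min_le_left _ _
    calc 12 * B' * δ ≤ 12 * B' * (ε / (12 * B')) := mul_le_mul_of_nonneg_left this (by positivity)
      _ = ε := by field_simp
  have hδ2 : 12 * B' * δ < 1 := by
    have : δ ≤ 1 / (24 * B') := min_le_right _ _
    calc 12 * B' * δ ≤ 12 * B' * (1 / (24 * B')) := mul_le_mul_of_nonneg_left this (by positivity)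
      _ = 1 / 2 := by field_simp; norm_num
      _ < 1 := by norm_num
  obtain ⟨n, hn⟩ := pow_unbounded_of_one_lt (2 / δ) (by linarith : (1 : ℝ) < R - 2)
  obtain ⟨g₁, l₁, r₁, a1, a2, a3, a4, a5, a6, a7, a8, a9⟩ := hm.small_at hR hB' hE₀ hf n
  have hsub : Icc l₁ r₁ ⊆ Icc l r := Icc_subset_Icc a1 a3
  have osc : ∀ E ∈ Icc l₁ r₁, |inv (g E) - inv (g E₀)| ≤ δ := by
    intro E hE
    have q1 := a9 E hE E₀ a7
    have q2 := abs_sub_le_two (a4.reg E hE).hy (a4.reg E₀ a7).hy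
    have q3 := (h.cone E (hsub hE) E₀ hE₀).hv
    refine q3.trans ?_
    have hP : 0 < (R - 2) ^ n := by
      have : 0 < R - 2 := by linarith
      positivity
    rw [div_lt_iff₀ hδ0] at hn
    by_contra hc
    push Not at hc
    have : (R - 2) ^ n * δ < (R - 2) ^ n * |(g E).y - (g E₀).y| := mul_lt_mul_of_pos_left hc hP
    linarith
  have k := compareR hR hB' hδ0.le a4 h' (by
    intro E hE E' hE'
    rw [a6, hinv E' hE']
    exact osc E hE) hδ2
  have k2 := k.trans (dr_mono a5)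
  have k3 := dr_le_one (Lam g' l' r')
  have k4 := dr_nonneg (Lam g' l' r')
  nlinarith

/-! ### the spectrum as a set of non-escaping energies -/

/-- energies whose half traces do not escape -/
def Sp (p q : ℝ) : Set ℝ := {E | ∀ k, ¬ Bad (X p q E) k}

lemma Sp_eq {p q : ℝ} (hp : 1000 ≤ p) {lp rp lm rm lo ro : ℝ}
    (hc : Clus p q lp rp lm rm lo ro) :
    Sp p q = Lam (fun E => st p q E 0) lp rp ∪
      Lam (fun E => st p q E 0) lm rm ∪ Lam (fun E => st p q E 1) lo ro := by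
  have hp0 : p ≠ 0 := by linarith
  apply Subset.antisymm
  · intro E hE
    exact hc.all E hE
  · have key : ∀ (k : ℕ) (l r : ℝ), Arc (p / 4) (p + 1) (fun E => st p q E k) l r →
        Lam (fun E => st p q E k) l r ⊆ Sp p q := by
      rintro k l r harc E ⟨hE, c, hcE⟩ j hb
      obtain ⟨m, hm, hm2⟩ := small_of_foll (X_trec hp0 q E) (harc.reg E hE) hcE (j + 1)
      have := hb.forever (X_trec hp0 q E) (j := m) (by omega)
      linarith
    apply union_subset (union_subset ?_ ?_)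
    · exact key 1 lo ro hc.ao
    · exact key 0 lp rp hc.ap
    · exact key 0 lm rm hc.am

/-- the dimension function -/
noncomputable def DD (p q : ℝ) : ℝ := dr (Sp p q)

/-- the value of the invariant at `q = 0` -/
noncomputable def cc (p : ℝ) : ℝ := 1 + (p ^ 2 - 1) ^ 2 / (4 * p ^ 2)

lemma V_zero (p E : ℝ) : V p 0 E = cc p := by
  unfold V cc
  ring

lemma DD_le_one (p q : ℝ) : DD p q ≤ 1 := dr_le_one _

/-- comparison of the whole spectrum at `(p', 0)` with an arc -/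
lemma DD_zero_le {p' : ℝ} (hp' : 1000 ≤ p') {R B v : ℝ} {g : ℝ → P3} {l r : ℝ} (hR : 100 ≤ R)
    (hRp : R ≤ p' / 4)
    (hB : 100 ≤ B) (hBp : p' + 1 ≤ B) (hv : 0 ≤ v) (h : Arc R B g l r)
    (hvv : ∀ E ∈ Icc l r, |inv (g E) - cc p'| ≤ v)
    (hs : 12 * B * v < 1) :
    DD p' 0 * (1 - 12 * B * v) ≤ dr (Lam g l r) := by
  have hp0 : p' ≠ 0 := by linarith
  obtain ⟨lp, rp, lm, rm, lo, ro, hc⟩ := exists_clus (q := 0) hp' (by norm_num)
  have key : ∀ (k : ℕ) (l' r' : ℝ), Arc (p' / 4) (p' + 1) (fun E => st p' 0 E k) l' r' →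
      dr (Lam (fun E => st p' 0 E k) l' r') * (1 - 12 * B * v) ≤ dr (Lam g l r) := by
    intro k l' r' harc
    have h' : Arc R B (fun E => st p' 0 E k) l' r' :=
      harc.mono (by linarith) hRp (by linarith) hBp
    apply compareR hR hB hv h h' _ hs
    intro E hE E' _
    rw [inv_st hp0, V_zero]
    exact hvv E hE
  unfold DD
  rw [Sp_eq hp' hc, dr_union, dr_union]
  have k1 := key 0 lp rp hc.ap
  have k2 := key 0 lm rm hc.am
  have k3 := key 1 lo ro hc.ao
  rcases max_choice (max (dr (Lam (fun E => st p' 0 E 0) lp rp))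
    (dr (Lam (fun E => st p' 0 E 0) lm rm))) (dr (Lam (fun E => st p' 0 E 1) lo ro)) with e | e
  · rw [e]
    rcases max_choice (dr (Lam (fun E => st p' 0 E 0) lp rp))
      (dr (Lam (fun E => st p' 0 E 0) lm rm)) with e2 | e2
    · rw [e2]; exact k1
    · rw [e2]; exact k2
  · rw [e]; exact k3

lemma DD_zero_le_of_lb {p' : ℝ} (hp' : 1000 ≤ p') {R B : ℝ} {g : ℝ → P3} {l r : ℝ}
    (hR : 100 ≤ R) (hRp : R ≤ p' / 4) {E₀ : ℝ}
    (hlb : ∀ (B' : ℝ) (g' : ℝ → P3) (l' r' : ℝ), B ≤ B' → Arc R B' g' l' r' →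
      (∀ E ∈ Icc l' r', inv (g' E) = inv (g E₀)) → dr (Lam g' l' r') ≤ dr (Lam g l r))
    (hinv : inv (g E₀) = cc p') : DD p' 0 ≤ dr (Lam g l r) := by
  have hp0 : p' ≠ 0 := by linarith
  obtain ⟨lp, rp, lm, rm, lo, ro, hc⟩ := exists_clus (q := 0) hp' (by norm_num)
  have key : ∀ (k : ℕ) (l' r' : ℝ), Arc (p' / 4) (p' + 1) (fun E => st p' 0 E k) l' r' →
      dr (Lam (fun E => st p' 0 E k) l' r') ≤ dr (Lam g l r) := by
    intro k l' r' harc
    have h' : Arc R (max B (p' + 1)) (fun E => st p' 0 E k) l' r' :=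
      harc.mono (by linarith) hRp (by linarith) (le_max_right _ _)
    apply hlb _ _ _ _ (le_max_left _ _) h'
    intro E _
    rw [inv_st hp0, V_zero, hinv]
  unfold DD
  rw [Sp_eq hp' hc, dr_union, dr_union]
  exact max_le (max_le (key 0 lp rp hc.ap) (key 0 lm rm hc.am)) (key 1 lo ro hc.ao)

/-- **Lower bounds for the dimension at `(p, q)`.** -/
theorem lb_DD {p q : ℝ} (hp : 1000 ≤ p) (hq : |q| ≤ 1) :
    (∃ E, p - 2 ≤ E ∧ E ≤ p + 2 ∧ ∀ p', 1000 ≤ p' → cc p' = V p q E → DD p' 0 ≤ DD p q) ∧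
    (∃ E, -p - 2 ≤ E ∧ E ≤ -p + 2 ∧ ∀ p', 1000 ≤ p' → cc p' = V p q E → DD p' 0 ≤ DD p q) := by
  have hp0 : p ≠ 0 := by linarith
  obtain ⟨lp, rp, lm, rm, lo, ro, hc⟩ := exists_clus hp hq
  constructor
  · have ha : Arc 100 (p + 1) (fun E => st p q E 0) lp rp :=
      hc.ap.mono (by norm_num) (by linarith) (by linarith) (le_refl _)
    obtain ⟨E₀, hE₀, hlb⟩ := lb_arc ha (le_refl _) (by linarith)
    refine ⟨E₀, (hc.bp E₀ hE₀).1, (hc.bp E₀ hE₀).2, ?_⟩
    intro p' hp' hV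
    have hi : inv (st p q E₀ 0) = cc p' := by rw [inv_st hp0, hV]
    have h4 : (100 : ℝ) ≤ p' / 4 := by linarith
    have := DD_zero_le_of_lb (g := fun E => st p q E 0) (E₀ := E₀) hp' (le_refl _) h4 hlb hi
    refine this.trans ?_
    unfold DD
    rw [Sp_eq hp hc]
    exact dr_mono (subset_union_left.trans subset_union_left)
  · have ha : Arc 100 (p + 1) (fun E => st p q E 0) lm rm :=
      hc.am.mono (by norm_num) (by linarith) (by linarith) (le_refl _)
    obtain ⟨E₀, hE₀, hlb⟩ := lb_arc ha (le_refl _) (by linarith)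
    refine ⟨E₀, (hc.bm E₀ hE₀).1, (hc.bm E₀ hE₀).2, ?_⟩
    intro p' hp' hV
    have hi : inv (st p q E₀ 0) = cc p' := by rw [inv_st hp0, hV]
    have h4 : (100 : ℝ) ≤ p' / 4 := by linarith
    have := DD_zero_le_of_lb (g := fun E => st p q E 0) (E₀ := E₀) hp' (le_refl _) h4 hlb hi
    refine this.trans ?_
    unfold DD
    rw [Sp_eq hp hc]
    exact dr_mono (subset_union_right.trans subset_union_left)

/-- local Lipschitz comparison at `q = 0` -/
theorem DD_zero_compare {p p' : ℝ} (hp : 1000 ≤ p) (hp' : 1000 ≤ p') {B : ℝ} (hB : p + 1 ≤ B)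
    (hB' : p' + 1 ≤ B) (hs : 12 * B * |cc p - cc p'| < 1) :
    DD p' 0 * (1 - 12 * B * |cc p - cc p'|) ≤ DD p 0 := by
  have hp0 : p ≠ 0 := by linarith
  obtain ⟨lp, rp, lm, rm, lo, ro, hc⟩ := exists_clus (q := 0) hp (by norm_num)
  have ha : Arc 100 B (fun E => st p 0 E 0) lp rp :=
    hc.ap.mono (by norm_num) (by linarith) (by linarith) hB
  have := DD_zero_le hp' (le_refl _) (by linarith) (by linarith) hB' (abs_nonneg _) ha (by
    intro E _
    rw [inv_st hp0, V_zero]) hs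
  refine this.trans ?_
  unfold DD
  rw [Sp_eq hp hc]
  exact dr_mono (subset_union_left.trans subset_union_left)

/-- positivity -/
theorem DD_pos {p : ℝ} (hp : 1000 ≤ p) : 0 < DD p 0 := by
  obtain ⟨lp, rp, lm, rm, lo, ro, hc⟩ := exists_clus (q := 0) hp (by norm_num)
  have hL : 1 < 200 * (p + 1) ^ 2 := by nlinarith
  have hlog : 0 < Real.log (200 * (p + 1) ^ 2) := Real.log_pos hL
  set ρ : ℝ≥0 := Real.toNNReal (Real.log 2 / Real.log (200 * (p + 1) ^ 2)) with hρ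
  have hpos : 0 < Real.log 2 / Real.log (200 * (p + 1) ^ 2) :=
    div_pos (Real.log_pos (by norm_num)) hlog
  have hρ0 : 0 < ρ := by rw [hρ]; exact Real.toNNReal_pos.2 hpos
  have hρr : (ρ : ℝ) = Real.log 2 / Real.log (200 * (p + 1) ^ 2) := Real.coe_toNNReal _ hpos.le
  have h1 := hc.ap.dim_pos (by linarith) (by linarith) hρ0 (by
    rw [hρr, Real.rpow_def_of_pos (by linarith)]
    rw [mul_div_cancel₀ _ hlog.ne', Real.exp_log (by norm_num)])
  have h2 : (ρ : ℝ) ≤ dr (Lam (fun E => st p 0 E 0) lp rp) := by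
    have := ENNReal.toReal_mono (dimH_ne_top' _) h1
    rwa [ENNReal.coe_toReal] at this
  have h3 : dr (Lam (fun E => st p 0 E 0) lp rp) ≤ DD p 0 := by
    unfold DD
    rw [Sp_eq hp hc]
    exact dr_mono (subset_union_left.trans subset_union_left)
  have h4 : (0 : ℝ) < ρ := by exact_mod_cast hρ0
  linarith

/-- smallness for large `p` -/
theorem DD_small {p ρ : ℝ} (hp : 1000 ≤ p) (hρ : 0 < ρ) (hρ2 : (4 : ℝ) ^ ρ ≤ p / 4 - 2) :
    DD p 0 ≤ 1 / ρ := by
  obtain ⟨lp, rp, lm, rm, lo, ro, hc⟩ := exists_clus (q := 0) hp (by norm_num)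
  set r : ℝ≥0 := Real.toNNReal ρ with hr
  have hr0 : 0 < r := by rw [hr]; exact Real.toNNReal_pos.2 hρ
  have hrr : (r : ℝ) = ρ := Real.coe_toNNReal _ hρ.le
  have key : ∀ (k : ℕ) (l' r' : ℝ), Arc (p / 4) (p + 1) (fun E => st p 0 E k) l' r' →
      dr (Lam (fun E => st p 0 E k) l' r') ≤ 1 / ρ := by
    intro k l' r' harc
    have h1 := harc.dim_le (by linarith) hr0 (by rw [hrr]; exact hρ2)
    have h2 : (1 : ℝ≥0∞) / r ≠ ⊤ := by
      apply ENNReal.div_ne_top (by simp)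
      simpa using hr0.ne'
    have h3 := ENNReal.toReal_mono h2 h1
    rw [ENNReal.toReal_div, ENNReal.coe_toReal, hrr] at h3
    simpa [dr] using h3
  unfold DD
  rw [Sp_eq hp hc, dr_union, dr_union]
  exact max_le (max_le (key 0 lp rp hc.ap) (key 0 lm rm hc.am)) (key 1 lo ro hc.ao)

end Pool.Agent.W811.Fib
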