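import Pool.Agent.W811.Fib.Local

/-!
The dimension is not differentiable in `q` at `q = 0`.
-/

set_option autoImplicit false

namespace Pool.Agent.W811.Fib

open Set Filter Topology

/-! ### a lemma on one-sided slopes -/

lemma le_of_right {h : ℝ → ℝ} {a b : ℝ} (hab : a ≤ b) (hc : ContinuousOn h (Icc a b))
    (hr : ∀ x ∈ Ico a b, ∀ ε > 0, ∀ δ > 0, ∃ z, x < z ∧ z < x + δ ∧ h z ≤ h x + ε * (z - x)) :
    h b ≤ h a := by
  refine image_le_of_liminf_slope_right_le_deriv_boundary (f := h) (a := a) (b := b) hc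
    (B := fun _ => h a) (B' := fun _ => 0) (le_refl _) continuousOn_const
    (fun x _ => hasDerivWithinAt_const _ _ _) ?_ ⟨hab, le_refl b⟩
  intro x hx r hr0
  rw [Filter.frequently_iff]
  intro U hU
  rw [mem_nhdsGT_iff_exists_Ioo_subset] at hU
  obtain ⟨w, hw, hwU⟩ := hU
  have hw' : x < w := hw
  obtain ⟨z, z1, z2, z3⟩ := hr x hx (r / 2) (by linarith) (w - x) (by linarith)
  refine ⟨z, hwU ⟨z1, by linarith⟩, ?_⟩
  rw [slope_def_field, div_lt_iff₀ (by linarith)]
  nlinarith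

lemma const_of_slopes {h : ℝ → ℝ} {a b : ℝ} (hab : a ≤ b) (hc : ContinuousOn h (Icc a b))
    (hr : ∀ x ∈ Icc a b, ∀ ε > 0, ∀ δ > 0, ∃ z, x < z ∧ z < x + δ ∧ h z ≤ h x + ε * (z - x))
    (hl : ∀ x ∈ Icc a b, ∀ ε > 0, ∀ δ > 0, ∃ z, z < x ∧ x - δ < z ∧ h z ≤ h x + ε * (x - z)) :
    h b = h a := by
  apply le_antisymm
  · exact le_of_right hab hc (fun x hx => hr x (Ico_subset_Icc_self hx))
  · have k := le_of_right (h := fun t => h (-t)) (a := -b) (b := -a) (by linarith) (by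
      apply hc.comp continuous_neg.continuousOn
      intro t ht
      exact ⟨by linarith [ht.2], by linarith [ht.1]⟩) (by
      intro x hx ε hε δ hδ
      obtain ⟨z, z1, z2, z3⟩ := hl (-x) ⟨by linarith [hx.2], by linarith [hx.1]⟩ ε hε δ hδ
      refine ⟨-z, by linarith, by linarith, ?_⟩
      simp only [neg_neg]
      have : -z - x = -x - z := by ring
      rw [this]
      exact z3)
    simpa using k

/-! ### inversion of `cc` -/

/-- the inverse of `cc` -/
noncomputable def pp (x : ℝ) : ℝ := Real.sqrt (x - 1) + Real.sqrt x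

lemma cc_eq {p : ℝ} (hp : 0 < p) : cc p = 1 + ((p - 1 / p) / 2) ^ 2 := by
  unfold cc
  field_simp
  ring

lemma cc_strictMono {p p' : ℝ} (hp : 1 ≤ p) (h : p < p') : cc p < cc p' := by
  rw [cc_eq (by linarith), cc_eq (by linarith)]
  have h1 : 1 / p' < 1 / p := one_div_lt_one_div_of_lt (by linarith) h
  have h2 : 0 ≤ p - 1 / p := by
    rw [sub_nonneg, div_le_iff₀ (by linarith)]; nlinarith
  have h3 : p - 1 / p < p' - 1 / p' := by linarith
  have : ((p - 1 / p) / 2) ^ 2 < ((p' - 1 / p') / 2) ^ 2 := by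
    apply pow_lt_pow_left₀ (by linarith) (by linarith) (by norm_num)
  linarith

lemma cc_pp {x : ℝ} (hx : 1 < x) : cc (pp x) = x := by
  have h1 : 0 < Real.sqrt (x - 1) := Real.sqrt_pos.2 (by linarith)
  have h2 : 0 < Real.sqrt x := Real.sqrt_pos.2 (by linarith)
  have e1 : Real.sqrt (x - 1) ^ 2 = x - 1 := Real.sq_sqrt (by linarith)
  have e2 : Real.sqrt x ^ 2 = x := Real.sq_sqrt (by linarith)
  have hp : 0 < pp x := by unfold pp; positivity
  rw [cc_eq hp]
  have hinv : 1 / pp x = Real.sqrt x - Real.sqrt (x - 1) := by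
    rw [div_eq_iff hp.ne']
    unfold pp
    nlinarith
  rw [hinv]
  unfold pp
  have : (Real.sqrt (x - 1) + Real.sqrt x - (Real.sqrt x - Real.sqrt (x - 1))) / 2 =
      Real.sqrt (x - 1) := by ring
  rw [this, e1]
  ring

lemma pp_pos {x : ℝ} (hx : 1 < x) : 0 < pp x := by
  have h1 : 0 < Real.sqrt (x - 1) := Real.sqrt_pos.2 (by linarith)
  unfold pp; positivity

lemma pp_one_le {x : ℝ} (hx : 1 < x) : 1 ≤ pp x := by
  have h2 : 1 ≤ Real.sqrt x := Real.one_le_sqrt.2 (by linarith)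
  unfold pp
  have := Real.sqrt_nonneg (x - 1)
  linarith

lemma le_pp {p x : ℝ} (hp : 1 ≤ p) (hx : 1 < x) (h : cc p ≤ x) : p ≤ pp x := by
  by_contra hc
  push Not at hc
  have := cc_strictMono (pp_one_le hx) hc
  rw [cc_pp hx] at this
  linarith

lemma lt_pp {p x : ℝ} (hp : 1 ≤ p) (hx : 1 < x) (h : cc p < x) : p < pp x := by
  rcases lt_or_eq_of_le (le_pp hp hx h.le) with h1 | h1
  · exact h1
  · rw [h1, cc_pp hx] at h
    exact absurd h (lt_irrefl _)

lemma pp_le {x : ℝ} (hx : 1 < x) : pp x ≤ 2 * x := by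
  unfold pp
  have h1 : Real.sqrt x ≤ x := by
    rw [Real.sqrt_le_left (by linarith)]; nlinarith
  have h2 : Real.sqrt (x - 1) ≤ x := by
    rw [Real.sqrt_le_left (by linarith)]; nlinarith
  linarith

lemma cc_gt_one {p : ℝ} (hp : 1 < p) : 1 < cc p := by
  rw [cc_eq (by linarith)]
  have h1 : 1 / p < 1 := by rw [div_lt_one (by linarith)]; exact hp
  have : 0 < ((p - 1 / p) / 2) ^ 2 := by
    apply pow_pos
    linarith
  linarith

/-- the function `x ↦ dim` at constant invariant -/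
noncomputable def hh (x : ℝ) : ℝ := DD (pp x) 0

lemma hh_cont {a b : ℝ} (ha : cc 1000 ≤ a) : ContinuousOn hh (Icc a b) := by
  have h1000 : 1 < cc 1000 := cc_gt_one (by norm_num)
  intro x hx
  rw [Metric.continuousWithinAt_iff]
  intro ε hε
  have hxb : x ≤ b := hx.2
  have hb1 : 1 < b := by linarith [hx.1, hx.2]
  set B := 2 * b + 1 with hB
  have hB0 : 0 < B := by linarith
  refine ⟨min (ε / (12 * B)) (1 / (12 * B)), by positivity, ?_⟩
  intro y hy hxy
  rw [Real.dist_eq] at hxy ⊢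
  have hx1 : 1 < x := by linarith [hx.1]
  have hy1 : 1 < y := by linarith [hy.1]
  have px : 1000 ≤ pp x := le_pp (by norm_num) hx1 (by linarith [hx.1])
  have py : 1000 ≤ pp y := le_pp (by norm_num) hy1 (by linarith [hy.1])
  have bx : pp x + 1 ≤ B := by have := pp_le hx1; linarith
  have by' : pp y + 1 ≤ B := by have := pp_le hy1; linarith [hy.2]
  have s1 : |y - x| < ε / (12 * B) := lt_of_lt_of_le hxy (min_le_left _ _)
  have s2 : |y - x| < 1 / (12 * B) := lt_of_lt_of_le hxy (min_le_right _ _)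
  rw [lt_div_iff₀ (by positivity)] at s1 s2
  have e1 : cc (pp x) = x := cc_pp hx1
  have e2 : cc (pp y) = y := cc_pp hy1
  have k1 := DD_zero_compare (B := B) px py bx by' (by
    rw [e1, e2, abs_sub_comm]; linarith)
  have k2 := DD_zero_compare (B := B) py px by' bx (by
    rw [e1, e2]; linarith)
  rw [e1, e2] at k1 k2
  rw [abs_sub_comm x y] at k1
  have d1 := DD_le_one (pp x) 0
  have d2 := DD_le_one (pp y) 0
  have hn : 0 ≤ 12 * B * |y - x| := by positivity
  have m1 : DD (pp y) 0 * (12 * B * |y - x|) ≤ 1 * (12 * B * |y - x|) :=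
    mul_le_mul_of_nonneg_right d2 hn
  have m2 : DD (pp x) 0 * (12 * B * |y - x|) ≤ 1 * (12 * B * |y - x|) :=
    mul_le_mul_of_nonneg_right d1 hn
  unfold hh
  rw [abs_lt]
  constructor <;> linarith

/-- size of the shift of the invariant -/
lemma shift_bounds {p q E : ℝ} (hp : 1000 ≤ p) (hq : |q| ≤ 1)
    (hs : p - 2 ≤ |E|) (hE : |E| ≤ p + 2) :
    (0 < q * E → |q| ≤ V p q E - cc p ∧ V p q E - cc p ≤ |q| * p) ∧
    (q * E < 0 → |q| ≤ cc p - V p q E ∧ cc p - V p q E ≤ |q| * p) := by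
  have e : V p q E - cc p = (q * (p ^ 2 - 1) * E + q ^ 2) / (4 * p ^ 2) := by
    unfold V cc; ring
  have e' : cc p - V p q E = (-(q * E) * (p ^ 2 - 1) - q ^ 2) / (4 * p ^ 2) := by
    unfold V cc; ring
  have hp2 : 0 < 4 * p ^ 2 := by positivity
  have hq2 : q ^ 2 = |q| * |q| := by rw [← sq_abs]; ring
  have hq3 : q ^ 2 ≤ |q| := by
    rw [hq2]; have := abs_nonneg q; nlinarith
  have q0 := abs_nonneg q
  have hqE : |q * E| = |q| * |E| := abs_mul q E
  have l1 : |q| * (p - 2) ≤ |q| * |E| := mul_le_mul_of_nonneg_left hs q0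
  have l2 : |q| * |E| ≤ |q| * (p + 2) := mul_le_mul_of_nonneg_left hE q0
  have hp1 : 0 ≤ p ^ 2 - 1 := by nlinarith
  have poly1 : 4 * p ^ 2 + 1 ≤ (p - 2) * (p ^ 2 - 1) := by nlinarith [mul_pos (by linarith : 0 < p) (by linarith : 0 < p)]
  have poly2 : (p + 2) * (p ^ 2 - 1) + 1 ≤ p * (4 * p ^ 2) := by nlinarith
  constructor
  · intro hpos
    have a1 : q * E = |q| * |E| := by rw [← hqE, abs_of_pos hpos]
    have a2 : q * (p ^ 2 - 1) * E = (|q| * |E|) * (p ^ 2 - 1) := by rw [← a1]; ring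
    have u1 : (|q| * (p - 2)) * (p ^ 2 - 1) ≤ (|q| * |E|) * (p ^ 2 - 1) :=
      mul_le_mul_of_nonneg_right l1 hp1
    have u2 : (|q| * |E|) * (p ^ 2 - 1) ≤ (|q| * (p + 2)) * (p ^ 2 - 1) :=
      mul_le_mul_of_nonneg_right l2 hp1
    have w1 : |q| * (4 * p ^ 2 + 1) ≤ |q| * ((p - 2) * (p ^ 2 - 1)) :=
      mul_le_mul_of_nonneg_left poly1 q0
    have w2 : |q| * ((p + 2) * (p ^ 2 - 1) + 1) ≤ |q| * (p * (4 * p ^ 2)) :=
      mul_le_mul_of_nonneg_left poly2 q0
    rw [e, a2]
    constructor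
    · rw [le_div_iff₀ hp2]; nlinarith
    · rw [div_le_iff₀ hp2]; nlinarith
  · intro hneg
    have a1 : -(q * E) = |q| * |E| := by rw [← hqE, abs_of_neg hneg]
    have u1 : (|q| * (p - 2)) * (p ^ 2 - 1) ≤ (|q| * |E|) * (p ^ 2 - 1) :=
      mul_le_mul_of_nonneg_right l1 hp1
    have u2 : (|q| * |E|) * (p ^ 2 - 1) ≤ (|q| * (p + 2)) * (p ^ 2 - 1) :=
      mul_le_mul_of_nonneg_right l2 hp1
    have w1 : |q| * (4 * p ^ 2 + 1) ≤ |q| * ((p - 2) * (p ^ 2 - 1)) :=
      mul_le_mul_of_nonneg_left poly1 q0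
    have w2 : |q| * ((p + 2) * (p ^ 2 - 1) + 1) ≤ |q| * (p * (4 * p ^ 2)) :=
      mul_le_mul_of_nonneg_left poly2 q0
    rw [e', a1]
    constructor
    · rw [le_div_iff₀ hp2]; nlinarith
    · rw [div_le_iff₀ hp2]; nlinarith [sq_nonneg q]

/-- both kinds of shifts are available for every small `q ≠ 0` -/
lemma shifts {p q : ℝ} (hp : 1000 ≤ p) (hq : |q| ≤ 1) (hq0 : q ≠ 0)
    (hroom : cc 1000 + |q| * p ≤ cc p) :
    (∃ z, cc p + |q| ≤ z ∧ z ≤ cc p + |q| * p ∧ hh z ≤ DD p q) ∧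
    (∃ z, z ≤ cc p - |q| ∧ cc p - |q| * p ≤ z ∧ hh z ≤ DD p q) := by
  have h1000 : 1 < cc 1000 := cc_gt_one (by norm_num)
  have hqpos : 0 < |q| := abs_pos.2 hq0
  obtain ⟨⟨E₁, a1, a2, a3⟩, ⟨E₂, b1, b2, b3⟩⟩ := lb_DD hp hq
  have A1 : |E₁| = E₁ := abs_of_pos (by linarith)
  have A2 : |E₂| = -E₂ := abs_of_neg (by linarith)
  have s1 := shift_bounds (E := E₁) hp hq (by rw [A1]; exact a1) (by rw [A1]; exact a2)
  have s2 := shift_bounds (E := E₂) hp hq (by rw [A2]; linarith) (by rw [A2]; linarith)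
  have fin : ∀ E, (∀ p', 1000 ≤ p' → cc p' = V p q E → DD p' 0 ≤ DD p q) →
      cc 1000 ≤ V p q E → hh (V p q E) ≤ DD p q := by
    intro E hE hV
    have h1 : 1 < V p q E := by linarith
    exact hE (pp (V p q E)) (le_pp (by norm_num) h1 hV) (cc_pp h1)
  rcases lt_or_gt_of_ne hq0 with hneg | hpos
  · -- `q < 0`
    have t1 := s1.2 (mul_neg_of_neg_of_pos hneg (by linarith))
    have t2 := s2.1 (mul_pos_of_neg_of_neg hneg (by linarith))
    refine ⟨⟨V p q E₂, by linarith [t2.1], by linarith [t2.2], fin E₂ b3 ?_⟩,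
      ⟨V p q E₁, by linarith [t1.1], by linarith [t1.2], fin E₁ a3 ?_⟩⟩
    · have : 0 ≤ |q| * p := by positivity
      linarith [t2.1]
    · linarith [t1.2]
  · have t1 := s1.1 (mul_pos hpos (by linarith))
    have t2 := s2.2 (mul_neg_of_pos_of_neg hpos (by linarith))
    refine ⟨⟨V p q E₁, by linarith [t1.1], by linarith [t1.2], fin E₁ a3 ?_⟩,
      ⟨V p q E₂, by linarith [t2.1], by linarith [t2.2], fin E₂ b3 ?_⟩⟩
    · have : 0 ≤ |q| * p := by positivity
      linarith [t1.1]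
    · linarith [t2.2]

/-- differentiability at `0` forces flatness -/
lemma flat_of_diff {x : ℝ} (hx : cc 1000 < x) (hd : DifferentiableAt ℝ (fun q => DD (pp x) q) 0)
    {ε δ : ℝ} (hε : 0 < ε) (hδ : 0 < δ) :
    (∃ z, x < z ∧ z < x + δ ∧ hh z ≤ hh x + ε * (z - x)) ∧
    (∃ z, z < x ∧ x - δ < z ∧ hh z ≤ hh x + ε * (x - z)) := by
  have h1000 : 1 < cc 1000 := cc_gt_one (by norm_num)
  have hx1 : 1 < x := by linarith
  set p := pp x with hp
  have hp1000 : 1000 < p := lt_pp (by norm_num) hx1 hx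
  have hcc : cc p = x := cc_pp hx1
  obtain ⟨d, hd⟩ : ∃ d, HasDerivAt (fun q => DD p q) d 0 := ⟨_, hd.hasDerivAt⟩
  rw [hasDerivAt_iff_isLittleO, Asymptotics.isLittleO_iff] at hd
  have hd2 := hd hε
  rw [Metric.eventually_nhds_iff] at hd2
  obtain ⟨η, hη, hd3⟩ := hd2
  have key : ∀ q, |q| < η → DD p q ≤ hh x + d * q + ε * |q| := by
    intro q hq
    have h1 := hd3 (y := q) (by rw [Real.dist_eq, sub_zero]; exact hq)
    rw [Real.norm_eq_abs, Real.norm_eq_abs, sub_zero, smul_eq_mul] at h1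
    have h2 := (abs_le.1 h1).2
    have h3 : hh x = DD p 0 := rfl
    rw [h3]; linarith
  -- choice of `q`
  set t := min (min (η / 2) 1) (min (δ / (2 * p)) ((x - cc 1000) / p)) with ht
  have ht0 : 0 < t := by
    rw [ht]
    have : 0 < (x - cc 1000) / p := div_pos (by linarith) (by linarith)
    positivity
  have t1 : t ≤ η / 2 := (min_le_left _ _).trans (min_le_left _ _)
  have t2 : t ≤ 1 := (min_le_left _ _).trans (min_le_right _ _)
  have t3 : t ≤ δ / (2 * p) := (min_le_right _ _).trans (min_le_left _ _)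
  have t4 : t ≤ (x - cc 1000) / p := (min_le_right _ _).trans (min_le_right _ _)
  rw [le_div_iff₀ (by positivity)] at t3 t4
  have main : ∀ q, |q| = t → d * q ≤ 0 →
      (∃ z, x < z ∧ z < x + δ ∧ hh z ≤ hh x + ε * (z - x)) ∧
      (∃ z, z < x ∧ x - δ < z ∧ hh z ≤ hh x + ε * (x - z)) := by
    intro q hq hdq
    have hq0 : q ≠ 0 := by
      intro h; rw [h, abs_zero] at hq; linarith
    have hk := key q (by rw [hq]; linarith)
    obtain ⟨⟨z, z1, z2, z3⟩, ⟨w, w1, w2, w3⟩⟩ := shifts hp1000.le (by rw [hq]; exact t2) hq0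
      (by rw [hq, hcc]; linarith)
    rw [hcc, hq] at z1 z2 w1 w2
    rw [hq] at hk
    have htp : t * p < δ := by linarith
    refine ⟨⟨z, by linarith, by linarith, ?_⟩, ⟨w, by linarith, by linarith, ?_⟩⟩
    · have : ε * t ≤ ε * (z - x) := mul_le_mul_of_nonneg_left (by linarith) hε.le
      linarith
    · have : ε * t ≤ ε * (x - w) := mul_le_mul_of_nonneg_left (by linarith) hε.le
      linarith
  rcases le_or_gt d 0 with hd0 | hd0
  · exact main t (abs_of_pos ht0) (mul_nonpos_of_nonpos_of_nonneg hd0 ht0.le)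
  · exact main (-t) (by rw [abs_neg]; exact abs_of_pos ht0)
      (mul_nonpos_of_nonneg_of_nonpos hd0.le (by linarith))

/-- **There are arbitrarily large `p` for which the dimension is not differentiable in `q` at
`q = 0`.** -/
theorem exists_corner (P : ℝ) : ∃ p, P < p ∧ 1000 < p ∧
    ¬ DifferentiableAt ℝ (fun q => DD p q) 0 := by
  by_contra hcon
  push Not at hcon
  have h1000 : 1 < cc 1000 := cc_gt_one (by norm_num)
  set P' := max P 1000 + 1 with hP'
  have hPP : P < P' := by rw [hP']; linarith [le_max_left P 1000]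
  have hPP2 : 1000 < P' := by rw [hP']; linarith [le_max_right P 1000]
  set a := cc P' with ha
  have ha1 : cc 1000 < a := cc_strictMono (by norm_num) hPP2
  have ppa : ∀ x, a ≤ x → P' ≤ pp x := fun x hx => le_pp (by linarith) (by linarith) hx
  have const : ∀ b, a ≤ b → hh b = hh a := by
    intro b hb
    apply const_of_slopes hb (hh_cont ha1.le)
    · intro x hx ε hε δ hδ
      have := ppa x hx.1
      exact (flat_of_diff (by linarith [hx.1]) (hcon (pp x) (by linarith) (by linarith))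
        hε hδ).1
    · intro x hx ε hε δ hδ
      have := ppa x hx.1
      exact (flat_of_diff (by linarith [hx.1]) (hcon (pp x) (by linarith) (by linarith))
        hε hδ).2
  have pos : 0 < hh a := DD_pos (by linarith [ppa a (le_refl _)])
  -- choose a large `b`
  set ρ := 2 / hh a with hρ
  have hρ0 : 0 < ρ := by positivity
  have h4 : 0 < (4 : ℝ) ^ ρ := Real.rpow_pos_of_pos (by norm_num) _
  set p₁ := max P' (4 * ((4 : ℝ) ^ ρ + 2)) with hp₁
  have q1 : P' ≤ p₁ := le_max_left _ _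
  have q2 : 4 * ((4 : ℝ) ^ ρ + 2) ≤ p₁ := le_max_right _ _
  set b := cc p₁ with hb
  have hab : a ≤ b := by
    rcases eq_or_lt_of_le q1 with e | e
    · rw [ha, hb, ← e]
    · exact (cc_strictMono (by linarith) e).le
  have hb1 : 1 < b := by linarith
  have hpb : p₁ ≤ pp b := le_pp (by linarith) hb1 (le_refl _)
  have small := DD_small (p := pp b) (ρ := ρ) (by linarith) hρ0 (by linarith)
  have e := const b hab
  have e2 : hh b = DD (pp b) 0 := rfl
  rw [← e2, e, hρ] at small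
  rw [one_div_div] at small
  linarith

end Pool.Agent.W811.Fib
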