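import Pool.Agent.W811.Fib.Trace
import Pool.Agent.H221R3.StA

/-!
The tridiagonal operators and finitely supported test vectors.
-/

set_option autoImplicit false

namespace Pool.Agent.W811.Fib

open Pool.Agent.Helper434.PSCplx (L2 SS MM SS_adj MM_adj)
open scoped ENNReal

/-- `H` is the tridiagonal operator of the sequence `ω` with parameters `(p, q)` -/
def IsOp (p q : ℝ) (ω : ℤ → Letter) (H : L2 →L[ℂ] L2) : Prop :=
  ∀ (φ : L2) (n : ℤ), H φ n = (pc p (ω n) : ℂ) * φ (n - 1) + (pc p (ω (n + 1)) : ℂ) * φ (n + 1) +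
    (qc q (ω n) : ℂ) * φ n

lemma pc_bdd (p : ℝ) (ω : ℤ → Letter) (m : ℤ) : |pc p (ω m)| ≤ 1 + |p| := by
  cases ω m
  · simp only [pc, abs_one]
    linarith [abs_nonneg p]
  · simp only [pc]
    linarith [abs_nonneg p]

lemma qc_bdd (q : ℝ) (ω : ℤ → Letter) (m : ℤ) : |qc q (ω m)| ≤ |q| := by
  cases ω m
  · simp only [qc, abs_zero]
    exact abs_nonneg q
  · simp only [qc]
    exact le_refl _

/-- the operator exists, and is self-adjoint -/
theorem exists_op (p q : ℝ) (ω : ℤ → Letter) :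
    ∃ H : L2 →L[ℂ] L2, IsOp p q ω H ∧ IsSelfAdjoint H := by
  refine ⟨(MM (fun m => pc p (ω m)) (pc_bdd p ω)).comp (SS (-1)) +
    (SS 1).comp (MM (fun m => pc p (ω m)) (pc_bdd p ω)) +
    MM (fun m => qc q (ω m)) (qc_bdd q ω), ?_, ?_⟩
  · intro φ n
    rfl
  · rw [ContinuousLinearMap.isSelfAdjoint_iff_isSymmetric]
    intro ψ χ
    change inner ℂ (MM (fun m => pc p (ω m)) (pc_bdd p ω) (SS (-1) ψ) +
      SS 1 (MM (fun m => pc p (ω m)) (pc_bdd p ω) ψ) +
      MM (fun m => qc q (ω m)) (qc_bdd q ω) ψ) χ =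
      inner ℂ ψ (MM (fun m => pc p (ω m)) (pc_bdd p ω) (SS (-1) χ) +
      SS 1 (MM (fun m => pc p (ω m)) (pc_bdd p ω) χ) +
      MM (fun m => qc q (ω m)) (qc_bdd q ω) χ)
    rw [inner_add_left, inner_add_left, inner_add_right, inner_add_right, MM_adj, SS_adj, SS_adj,
      MM_adj, MM_adj, neg_neg]
    ring

theorem IsOp.unique {p q : ℝ} {ω : ℤ → Letter} {H H' : L2 →L[ℂ] L2} (h : IsOp p q ω H)
    (h' : IsOp p q ω H') : H = H' := by
  ext φ n
  rw [h φ n, h' φ n]

theorem IsOp.isSelfAdjoint {p q : ℝ} {ω : ℤ → Letter} {H : L2 →L[ℂ] L2} (h : IsOp p q ω H) :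
    IsSelfAdjoint H := by
  obtain ⟨H', h', hs⟩ := exists_op p q ω
  rw [h.unique h']
  exact hs

lemma norm_sq_eq (χ : L2) : ‖χ‖ ^ 2 = ∑' m, ‖χ m‖ ^ 2 := by
  have h1 := lp.norm_rpow_eq_tsum (p := 2) Pool.Agent.Helper434.PSCplx.two_pos χ
  have h5 : (2 : ℝ≥0∞).toReal = ((2 : ℕ) : ℝ) := by norm_num
  rw [h5] at h1
  simp only [Real.rpow_natCast] at h1
  exact h1

/-- the norm of a vector with support in a window -/
lemma norm_sq_window (χ : L2) (m : ℤ) (k : ℕ) (h : ∀ j, (∀ n < k, j ≠ m + (n : ℤ)) → χ j = 0) :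
    ‖χ‖ ^ 2 = ∑ n ∈ Finset.range k, ‖χ (m + (n : ℤ))‖ ^ 2 := by
  rw [norm_sq_eq]
  have e : ∑ n ∈ Finset.range k, ‖χ (m + (n : ℤ))‖ ^ 2 =
      ∑ j ∈ (Finset.range k).map ⟨fun n : ℕ => m + (n : ℤ), fun a b hab => by
        simp only [add_right_inj, Nat.cast_inj] at hab; exact hab⟩, ‖χ j‖ ^ 2 := by
    rw [Finset.sum_map]
    rfl
  rw [e]
  apply tsum_eq_sum
  intro j hj
  rw [h j, norm_zero]
  · norm_num
  · intro n hn hj2
    apply hj
    rw [Finset.mem_map]
    exact ⟨n, Finset.mem_range.2 hn, hj2.symm⟩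

/-- the vector with values `F n` at the sites `m + n` -/
noncomputable def vec (m : ℤ) (k : ℕ) (F : ℕ → ℂ) : L2 :=
  ∑ n ∈ Finset.range k, lp.single 2 (m + (n : ℤ)) (F n)

lemma vec_apply (m : ℤ) (k : ℕ) (F : ℕ → ℂ) (j : ℤ) :
    vec m k F j = ∑ n ∈ Finset.range k, if j = m + (n : ℤ) then F n else 0 := by
  unfold vec
  rw [lp.coeFn_sum, Finset.sum_apply]
  apply Finset.sum_congr rfl
  intro n _
  split_ifs with h
  · rw [h]; exact lp.single_apply_self 2 _ _
  · exact lp.single_apply_ne 2 _ _ h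

lemma vec_at (m : ℤ) (k : ℕ) {F : ℕ → ℂ} (hF : ∀ n, k ≤ n → F n = 0) (n : ℕ) :
    vec m k F (m + (n : ℤ)) = F n := by
  rw [vec_apply]
  by_cases hn : n < k
  · rw [Finset.sum_eq_single n]
    · rw [if_pos rfl]
    · intro b _ hb
      rw [if_neg]
      intro h
      apply hb
      have : (n : ℤ) = b := by linarith
      exact_mod_cast this.symm
    · intro h
      exact absurd (Finset.mem_range.2 hn) h
  · rw [hF n (by omega)]
    apply Finset.sum_eq_zero
    intro b hb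
    rw [if_neg]
    intro h
    have : (n : ℤ) = b := by linarith
    have : n = b := by exact_mod_cast this
    have := Finset.mem_range.1 hb
    omega

lemma vec_below (m : ℤ) (k : ℕ) (F : ℕ → ℂ) {j : ℤ} (hj : j < m) : vec m k F j = 0 := by
  rw [vec_apply]
  apply Finset.sum_eq_zero
  intro b _
  rw [if_neg]
  intro h
  have : (0 : ℤ) ≤ b := Int.natCast_nonneg b
  linarith

/-- the formal action in a window -/
noncomputable def hopN (p q E : ℝ) (c : ℕ → Letter) (F : ℕ → ℂ) (n : ℕ) : ℂ :=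
  (pc p (c (n + 1)) : ℂ) * F n + (pc p (c (n + 2)) : ℂ) * F (n + 2) +
    ((qc q (c (n + 1)) : ℂ) - E) * F (n + 1)

/-- the operator minus the energy is bounded below on the test vectors of a window -/
def BB (p q E : ℝ) (c : ℕ → Letter) (k : ℕ) (ε : ℝ) : Prop :=
  ∀ F : ℕ → ℂ, F 0 = 0 → F 1 = 0 → (∀ n, k ≤ n → F n = 0) →
    ε * ∑ n ∈ Finset.range k, ‖F n‖ ^ 2 ≤ ∑ n ∈ Finset.range k, ‖hopN p q E c F n‖ ^ 2

section

variable {p q E : ℝ} {ω : ℤ → Letter} {H : L2 →L[ℂ] L2}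

lemma vec_norm (m : ℤ) (k : ℕ) {F : ℕ → ℂ} (hF : ∀ n, k ≤ n → F n = 0) :
    ‖vec m k F‖ ^ 2 = ∑ n ∈ Finset.range k, ‖F n‖ ^ 2 := by
  rw [norm_sq_window (vec m k F) m k]
  · apply Finset.sum_congr rfl
    intro n _
    rw [vec_at m k hF]
  · intro j hj
    rw [vec_apply]
    apply Finset.sum_eq_zero
    intro b hb
    rw [if_neg (hj b (Finset.mem_range.1 hb))]

lemma op_vec (h : IsOp p q ω H) (m : ℤ) (k : ℕ) {F : ℕ → ℂ} (h0 : F 0 = 0) (h1 : F 1 = 0)
    (hF : ∀ n, k ≤ n → F n = 0) :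
    ‖H (vec m k F) - (E : ℂ) • vec m k F‖ ^ 2 =
      ∑ n ∈ Finset.range k, ‖hopN p q E (fun n => ω (m + n)) F n‖ ^ 2 := by
  have val : ∀ j, (H (vec m k F) - (E : ℂ) • vec m k F) j =
      (pc p (ω j) : ℂ) * vec m k F (j - 1) + (pc p (ω (j + 1)) : ℂ) * vec m k F (j + 1) +
        ((qc q (ω j) : ℂ) - E) * vec m k F j := by
    intro j
    rw [lp.coeFn_sub, Pi.sub_apply, h, lp.coeFn_smul, Pi.smul_apply, smul_eq_mul]
    ring
  have val2 : ∀ n : ℕ, (H (vec m k F) - (E : ℂ) • vec m k F) (m + 1 + (n : ℤ)) =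
      hopN p q E (fun n => ω (m + n)) F n := by
    intro n
    rw [val]
    have e1 : m + 1 + (n : ℤ) - 1 = m + (n : ℤ) := by ring
    have e2 : m + 1 + (n : ℤ) + 1 = m + ((n + 2 : ℕ) : ℤ) := by push_cast; ring
    have e3 : m + 1 + (n : ℤ) = m + ((n + 1 : ℕ) : ℤ) := by push_cast; ring
    rw [e1, e2, e3, vec_at m k hF, vec_at m k hF, vec_at m k hF]
    rfl
  rw [norm_sq_window _ (m + 1) k]
  · apply Finset.sum_congr rfl
    intro n _
    rw [val2]
  · intro j hj
    rcases lt_or_ge j (m + 1) with hlt | hge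
    · rw [val]
      rw [vec_below m k F (by linarith : j - 1 < m)]
      have e4 : vec m k F j = 0 := by
        rcases lt_or_ge j m with h2 | h2
        · exact vec_below m k F h2
        · have : j = m + ((0 : ℕ) : ℤ) := by push_cast; linarith
          rw [this, vec_at m k hF, h0]
      have e5 : vec m k F (j + 1) = 0 := by
        rcases lt_or_ge (j + 1) m with h2 | h2
        · exact vec_below m k F h2
        · rcases lt_or_ge j m with h3 | h3
          · have : j + 1 = m + ((0 : ℕ) : ℤ) := by push_cast; linarith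
            rw [this, vec_at m k hF, h0]
          · have : j + 1 = m + ((1 : ℕ) : ℤ) := by push_cast; linarith
            rw [this, vec_at m k hF, h1]
      rw [e4, e5]
      ring
    · obtain ⟨n, hn⟩ := Int.eq_ofNat_of_zero_le (by linarith : 0 ≤ j - (m + 1))
      have hj2 : j = m + 1 + (n : ℤ) := by linarith
      rw [hj2, val2]
      have hk : k ≤ n := by
        by_contra hc
        exact hj n (by omega) hj2
      unfold hopN
      rw [hF n hk, hF (n + 1) (by omega), hF (n + 2) (by omega)]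
      ring

/-- an energy outside the spectrum gives lower bounds on all the windows -/
theorem bb_of_not_mem (h : IsOp p q ω H) (hE : (E : ℂ) ∉ spectrum ℂ H) :
    ∃ ε > 0, ∀ (m : ℤ) (k : ℕ), BB p q E (fun n => ω (m + n)) k ε := by
  have hu : IsUnit (algebraMap ℂ (L2 →L[ℂ] L2) (E : ℂ) - H) := by
    by_contra hc
    exact hE hc
  obtain ⟨u, hu⟩ := hu
  set R : L2 →L[ℂ] L2 := ((u⁻¹ : (L2 →L[ℂ] L2)ˣ) : L2 →L[ℂ] L2) with hR
  have key : ∀ φ : L2, ‖φ‖ ≤ ‖R‖ * ‖H φ - (E : ℂ) • φ‖ := by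
    intro φ
    have h1 : R ((E : ℂ) • φ - H φ) = φ := by
      have h2 : (R * (u : L2 →L[ℂ] L2)) φ = φ := by
        rw [hR, Units.inv_mul]; rfl
      have h3 : (u : L2 →L[ℂ] L2) φ = (E : ℂ) • φ - H φ := by
        rw [hu, Algebra.algebraMap_eq_smul_one]
        rfl
      rw [← h3]
      exact h2
    calc ‖φ‖ = ‖R ((E : ℂ) • φ - H φ)‖ := by rw [h1]
      _ ≤ ‖R‖ * ‖(E : ℂ) • φ - H φ‖ := R.le_opNorm _
      _ = _ := by rw [norm_sub_rev]
  refine ⟨1 / (‖R‖ + 1) ^ 2, by positivity, ?_⟩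
  intro m k F h0 h1 hF
  rw [← vec_norm m k hF, ← op_vec h m k h0 h1 hF]
  have h2 := key (vec m k F)
  have h3 : ‖vec m k F‖ ≤ (‖R‖ + 1) * ‖H (vec m k F) - (E : ℂ) • vec m k F‖ := by
    refine h2.trans ?_
    apply mul_le_mul_of_nonneg_right (by linarith) (norm_nonneg _)
  rw [div_mul_eq_mul_div, one_mul, div_le_iff₀ (by positivity), mul_comm, ← mul_pow]
  exact pow_le_pow_left₀ (norm_nonneg _) h3 2

/-- uniform lower bounds on all the windows exclude the energy from the spectrum -/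
theorem not_mem_of_bb (h : IsOp p q ω H) {ε : ℝ} (hε : 0 < ε)
    (hb : ∀ (m : ℤ) (k : ℕ), BB p q E (fun n => ω (m + n)) k ε) :
    (E : ℂ) ∉ spectrum ℂ H := by
  apply H221R3.Sturm.isUnit_of_below h.isSelfAdjoint (c := Real.sqrt ε) (Real.sqrt_pos.2 hε)
  intro ψ
  -- truncations
  let F : ℕ → ℕ → ℂ := fun N n => if 2 ≤ n ∧ n < 2 * N + 3 then ψ (-(N : ℤ) - 2 + (n : ℤ)) else 0
  let φ : ℕ → L2 := fun N => vec (-(N : ℤ) - 2) (2 * N + 3) (F N)
  have hφ : ∀ N, φ N = ∑ i ∈ Finset.Icc (-(N : ℤ)) N, lp.single 2 i (ψ i) := by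
    intro N
    ext j
    rw [lp.coeFn_sum, Finset.sum_apply]
    change vec (-(N : ℤ) - 2) (2 * N + 3) (F N) j = _
    have e1 : ∑ i ∈ Finset.Icc (-(N : ℤ)) N, (lp.single 2 i (ψ i) : L2) j =
        if j ∈ Finset.Icc (-(N : ℤ)) N then ψ j else 0 := by
      split_ifs with hj
      · rw [Finset.sum_eq_single j]
        · exact lp.single_apply_self 2 _ _
        · intro b _ hb
          exact lp.single_apply_ne 2 _ _ (Ne.symm hb)
        · intro h; exact absurd hj h
      · apply Finset.sum_eq_zero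
        intro b hb
        apply lp.single_apply_ne 2
        rintro rfl
        exact hj hb
    rw [e1]
    have hF : ∀ n, 2 * N + 3 ≤ n → F N n = 0 := by
      intro n hn
      simp only [F]
      rw [if_neg]
      omega
    rcases lt_or_ge j (-(N : ℤ) - 2) with hlt | hge
    · rw [vec_below _ _ _ hlt, if_neg]
      rw [Finset.mem_Icc]; omega
    · obtain ⟨n, hn⟩ := Int.eq_ofNat_of_zero_le (by linarith : 0 ≤ j - (-(N : ℤ) - 2))
      have hj2 : j = -(N : ℤ) - 2 + (n : ℤ) := by linarith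
      rw [hj2, vec_at _ _ hF]
      simp only [F]
      by_cases hc : 2 ≤ n ∧ n < 2 * N + 3
      · rw [if_pos hc, if_pos]
        rw [Finset.mem_Icc]; omega
      · rw [if_neg hc, if_neg]
        rw [Finset.mem_Icc]; omega
  have hlim : Filter.Tendsto φ Filter.atTop (nhds ψ) := by
    have h1 := lp.hasSum_single (p := 2) (by norm_num) ψ
    have h2 : Filter.Tendsto (fun N : ℕ => Finset.Icc (-(N : ℤ)) N) Filter.atTop
        Filter.atTop := by
      apply Filter.tendsto_atTop_finset_of_monotone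
      · intro a b hab
        apply Finset.Icc_subset_Icc
        · have : (a : ℤ) ≤ b := by exact_mod_cast hab
          linarith
        · exact_mod_cast hab
      · intro x
        refine ⟨x.natAbs, ?_⟩
        rw [Finset.mem_Icc]
        omega
    have h3 := h1.comp h2
    refine h3.congr ?_
    intro N
    rw [hφ]
    rfl
  have hin : ∀ N, Real.sqrt ε * ‖φ N‖ ≤ ‖H (φ N) - (E : ℂ) • φ N‖ := by
    intro N
    have hF : ∀ n, 2 * N + 3 ≤ n → F N n = 0 := by
      intro n hn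
      simp only [F]
      rw [if_neg]
      omega
    have h0 : F N 0 = 0 := by simp [F]
    have h1 : F N 1 = 0 := by simp [F]
    have k := hb (-(N : ℤ) - 2) (2 * N + 3) (F N) h0 h1 hF
    rw [← vec_norm (-(N : ℤ) - 2) (2 * N + 3) hF,
      ← op_vec h (-(N : ℤ) - 2) (2 * N + 3) h0 h1 hF] at k
    apply le_of_sq_le_sq _ (norm_nonneg _)
    rw [mul_pow, Real.sq_sqrt hε.le]
    exact k
  have c1 : Filter.Tendsto (fun N => Real.sqrt ε * ‖φ N‖) Filter.atTop
      (nhds (Real.sqrt ε * ‖ψ‖)) := (hlim.norm).const_mul _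
  have c2 : Filter.Tendsto (fun N => ‖H (φ N) - (E : ℂ) • φ N‖) Filter.atTop
      (nhds ‖H ψ - (E : ℂ) • ψ‖) :=
    (((H.continuous.tendsto ψ).comp hlim).sub (hlim.const_smul _)).norm
  exact le_of_tendsto_of_tendsto' c1 c2 hin

end

end Pool.Agent.W811.Fib
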