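import Pool.Agent.W811.Fib.Pair

/-!
Orbits with a given itinerary; two states with the same infinite itinerary are close.
-/

set_option autoImplicit false

namespace Pool.Agent.W811.Fib

/-- the orbit along an itinerary -/
def orb (c : ℕ → Sym) : ℕ → P3 → P3
  | 0, s => s
  | n + 1, s => step (c n) (orb c n s)

/-- the first `n` symbols are admissible -/
def Foll (c : ℕ → Sym) (n : ℕ) (s : P3) : Prop := ∀ k < n, Adm (c k) (orb c k s)

/-- all the symbols are admissible -/
def FollAll (c : ℕ → Sym) (s : P3) : Prop := ∀ k, Adm (c k) (orb c k s)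

lemma FollAll.foll {c : ℕ → Sym} {s : P3} (h : FollAll c s) (n : ℕ) : Foll c n s :=
  fun k _ => h k

lemma Foll.mono {c : ℕ → Sym} {s : P3} {m n : ℕ} (h : Foll c n s) (hmn : m ≤ n) : Foll c m s :=
  fun k hk => h k (lt_of_lt_of_le hk hmn)

lemma inv_orb (c : ℕ → Sym) (n : ℕ) (s : P3) : inv (orb c n s) = inv s := by
  induction n with
  | zero => rfl
  | succ n ih => rw [orb, inv_step, ih]

lemma orb_congr {c d : ℕ → Sym} {n : ℕ} (h : ∀ k < n, c k = d k) (s : P3) :
    orb c n s = orb d n s := by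
  induction n with
  | zero => rfl
  | succ n ih =>
    rw [orb, orb, ih (fun k hk => h k (by omega)), h n (by omega)]

lemma Reg.orb {R : ℝ} {s : P3} {c : ℕ → Sym} {n : ℕ} (h : Reg R s) (hf : Foll c n s) :
    Reg R (orb c n s) := by
  induction n with
  | zero => exact h
  | succ n ih => exact (ih (hf.mono (by omega))).step (hf n (by omega))

lemma sign_orb {R : ℝ} {s t : P3} {c : ℕ → Sym} {n : ℕ} (hR : 100 ≤ R) (hs : Reg R s)
    (ht : Reg R t) (fs : Foll c n s) (ft : Foll c n t) (h : 0 < s.x * t.x) :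
    0 < (Fib.orb c n s).x * (Fib.orb c n t).x := by
  induction n with
  | zero => exact h
  | succ n ih =>
    exact sign_step hR (hs.orb (fs.mono (by omega))) (ht.orb (ft.mono (by omega)))
      (fs n (by omega)) (ft n (by omega)) (ih (fs.mono (by omega)) (ft.mono (by omega)))

lemma abs_sub_le_two {a b : ℝ} (ha : |a| ≤ 1) (hb : |b| ≤ 1) : |a - b| ≤ 2 :=
  (abs_sub _ _).trans (by linarith)

section close

variable {R : ℝ} {s t : P3} {c : ℕ → Sym}

lemma rec_aux {R a b a' b' v e : ℝ} (hR : 100 ≤ R) (ha : 0 ≤ a) (hb : 0 ≤ b)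
    (hb' : 0 ≤ b') (hv : 0 ≤ v) (he : 0 ≤ e) (h1 : R * a ≤ a' + b + v)
    (h2 : R * b' ≤ a' + b + v) (h3 : a' - 0.02 * (b' + v) ≤ e) :
    a - 0.02 * (b + v) ≤ e / 50 := by
  have r1 : 100 * a ≤ R * a := mul_le_mul_of_nonneg_right hR ha
  have r2 : 100 * b' ≤ R * b' := mul_le_mul_of_nonneg_right hR hb'
  linarith

/-- the unstable coordinate is slaved to the stable one and to the invariant -/
lemma close_aux (hR : 100 ≤ R) (hs : Reg R s) (ht : Reg R t) (h : 0 < s.x * t.x)
    (fs : FollAll c s) (ft : FollAll c t) (n : ℕ) : ∀ j,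
    |(orb c j s).y - (orb c j t).y| -
      0.02 * (|(orb c j s).u - (orb c j t).u| + |inv s - inv t|) ≤ 2 / 50 ^ n := by
  induction n with
  | zero =>
    intro j
    have h1 := hs.orb (fs.foll j)
    have h2 := ht.orb (ft.foll j)
    have h3 := abs_sub_le_two h1.hy h2.hy
    have h4 : 0 ≤ |(orb c j s).u - (orb c j t).u| := abs_nonneg _
    have h5 : 0 ≤ |inv s - inv t| := abs_nonneg _
    norm_num
    linarith
  | succ n ih =>
    intro j
    have h1 := hs.orb (fs.foll j)
    have h2 := ht.orb (ft.foll j)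
    have h3 := sign_orb hR hs ht (fs.foll j) (ft.foll j) h
    have h4 := pair_bound hR h1 h2 (fs j) (ft j) h3
    have h5 := ih (j + 1)
    rw [orb, orb] at h5
    rw [inv_orb, inv_orb] at h4
    have h6 := rec_aux hR (abs_nonneg _) (abs_nonneg _) (abs_nonneg _) (abs_nonneg _)
      (by positivity) h4.1 h4.2 h5
    refine h6.trans (le_of_eq ?_)
    rw [pow_succ]; field_simp

lemma close_y (hR : 100 ≤ R) (hs : Reg R s) (ht : Reg R t) (h : 0 < s.x * t.x)
    (fs : FollAll c s) (ft : FollAll c t) (j : ℕ) :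
    |(orb c j s).y - (orb c j t).y| ≤
      0.02 * (|(orb c j s).u - (orb c j t).u| + |inv s - inv t|) := by
  have h1 : Filter.Tendsto (fun n : ℕ => (2 : ℝ) / 50 ^ n) Filter.atTop (nhds 0) := by
    have h2 := (tendsto_pow_atTop_nhds_zero_of_lt_one (r := (1 : ℝ) / 50) (by norm_num)
      (by norm_num)).const_mul 2
    rw [mul_zero] at h2
    refine h2.congr (fun n => ?_)
    rw [div_pow, one_pow]; ring
  have h3 := ge_of_tendsto' h1 (fun n => close_aux hR hs ht h fs ft n j)
  linarith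

lemma close_u (hR : 100 ≤ R) (hs : Reg R s) (ht : Reg R t) (h : 0 < s.x * t.x)
    (fs : FollAll c s) (ft : FollAll c t) (j : ℕ) :
    |(orb c j s).u - (orb c j t).u| ≤ 2 / 50 ^ j + 0.03 * |inv s - inv t| := by
  have hv : 0 ≤ |inv s - inv t| := abs_nonneg _
  induction j with
  | zero =>
    have := abs_sub_le_two hs.hu ht.hu
    simp only [orb]
    norm_num
    linarith
  | succ j ih =>
    have h1 := hs.orb (fs.foll j)
    have h2 := ht.orb (ft.foll j)
    have h3 := sign_orb hR hs ht (fs.foll j) (ft.foll j) h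
    have h4 := (pair_bound hR h1 h2 (fs j) (ft j) h3).2
    rw [inv_orb, inv_orb] at h4
    have h5 := close_y hR hs ht h fs ft (j + 1)
    rw [orb, orb] at h5 ⊢
    have r2 : 100 * |(step (c j) (orb c j s)).u - (step (c j) (orb c j t)).u| ≤
      R * |(step (c j) (orb c j s)).u - (step (c j) (orb c j t)).u| :=
      mul_le_mul_of_nonneg_right hR (abs_nonneg _)
    have e1 : (2 : ℝ) / 50 ^ (j + 1) = 2 / 50 ^ j / 50 := by rw [pow_succ]; field_simp
    have e2 : (0 : ℝ) ≤ 2 / 50 ^ j := by positivity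
    rw [e1]
    linarith

/-- the distance between two states -/
def dst (s t : P3) : ℝ := |s.u - t.u| + |s.x - t.x| + |s.y - t.y|

lemma dst_nonneg (s t : P3) : 0 ≤ dst s t := by unfold dst; positivity

lemma close (hR : 100 ≤ R) (hs : Reg R s) (ht : Reg R t) (h : 0 < s.x * t.x)
    (fs : FollAll c s) (ft : FollAll c t) (j : ℕ) :
    dst (orb c j s) (orb c j t) ≤ 10 / 50 ^ j + |inv s - inv t| := by
  have h1 := hs.orb (fs.foll j)
  have h2 := ht.orb (ft.foll j)
  have h3 := sign_orb hR hs ht (fs.foll j) (ft.foll j) h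
  have h4 := dx_bound hR h1 h2 h3
  rw [inv_orb, inv_orb] at h4
  have h5 := close_y hR hs ht h fs ft j
  have h6 := close_u hR hs ht h fs ft j
  have hv : 0 ≤ |inv s - inv t| := abs_nonneg _
  have e2 : (0 : ℝ) ≤ 1 / 50 ^ j := by positivity
  have e3 : (2 : ℝ) / 50 ^ j = 2 * (1 / 50 ^ j) := by ring
  have e4 : (10 : ℝ) / 50 ^ j = 10 * (1 / 50 ^ j) := by ring
  rw [e3] at h6
  rw [e4]
  unfold dst
  linarith

end close

/-! ### the cone -/

/-- the cone condition for a pair of states -/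
structure Cone (s t : P3) : Prop where
  hu : |s.u - t.u| ≤ |s.y - t.y|
  hv : |inv s - inv t| ≤ |s.y - t.y|

lemma Cone.dx {R : ℝ} {s t : P3} (hc : Cone s t) (hR : 100 ≤ R) (hs : Reg R s) (ht : Reg R t)
    (h : 0 < s.x * t.x) : |s.x - t.x| ≤ 5 * |s.y - t.y| := by
  have h1 := dx_bound hR hs ht h
  have h2 := hc.hu
  have h3 := hc.hv
  have h4 : 0 ≤ |s.y - t.y| := abs_nonneg _
  linarith

/-- the cone is invariant and its vectors are expanded -/
lemma Cone.step {R : ℝ} {s t : P3} {c : Sym} (hc : Cone s t) (hR : 100 ≤ R) (hs : Reg R s)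
    (ht : Reg R t) (as : Adm c s) (at' : Adm c t) (h : 0 < s.x * t.x) :
    Cone (Fib.step c s) (Fib.step c t) ∧
      (R - 2) * |s.y - t.y| ≤ |(Fib.step c s).y - (Fib.step c t).y| := by
  obtain ⟨h1, h2⟩ := pair_bound hR hs ht as at' h
  have h3 := hc.hu
  have h4 := hc.hv
  have h5 : 0 ≤ |s.y - t.y| := abs_nonneg _
  have h6 : (R - 2) * |s.y - t.y| = R * |s.y - t.y| - 2 * |s.y - t.y| := by ring
  have r1 : 100 * |s.y - t.y| ≤ R * |s.y - t.y| := mul_le_mul_of_nonneg_right hR h5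
  have h7 : (R - 2) * |s.y - t.y| ≤ |(Fib.step c s).y - (Fib.step c t).y| := by
    rw [h6]; linarith
  refine ⟨⟨?_, ?_⟩, h7⟩
  · have r2 : 100 * |(Fib.step c s).u - (Fib.step c t).u| ≤
      R * |(Fib.step c s).u - (Fib.step c t).u| := mul_le_mul_of_nonneg_right hR (abs_nonneg _)
    linarith
  · rw [inv_step, inv_step]
    linarith

lemma Cone.orb {R : ℝ} {s t : P3} {c : ℕ → Sym} {n : ℕ} (hc : Cone s t) (hR : 100 ≤ R)
    (hs : Reg R s) (ht : Reg R t) (fs : Foll c n s) (ft : Foll c n t) (h : 0 < s.x * t.x) :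
    Cone (Fib.orb c n s) (Fib.orb c n t) ∧
      (R - 2) ^ n * |s.y - t.y| ≤ |(Fib.orb c n s).y - (Fib.orb c n t).y| := by
  induction n with
  | zero => refine ⟨hc, ?_⟩; simp only [pow_zero, one_mul]; exact le_refl _
  | succ n ih =>
    obtain ⟨i1, i2⟩ := ih (fs.mono (by omega)) (ft.mono (by omega))
    obtain ⟨j1, j2⟩ := i1.step hR (hs.orb (fs.mono (by omega))) (ht.orb (ft.mono (by omega)))
      (fs n (by omega)) (ft n (by omega))
      (sign_orb hR hs ht (fs.mono (by omega)) (ft.mono (by omega)) h)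
    refine ⟨j1, ?_⟩
    refine le_trans ?_ j2
    rw [pow_succ, mul_assoc, mul_comm (R - 2) |s.y - t.y|, ← mul_assoc, mul_comm _ (R - 2)]
    exact mul_le_mul_of_nonneg_left i2 (by linarith)

/-- a crude Lipschitz bound for a step -/
lemma lip_step {R B : ℝ} {s t : P3} {c : Sym} (hc : Cone s t) (hR : 100 ≤ R) (hs : Reg R s)
    (ht : Reg R t) (h : 0 < s.x * t.x) (hB : 1 ≤ B) (Bs : |s.x| ≤ B) (Bt : |t.x| ≤ B)
    (as : Adm c s) (at' : Adm c t) :
    |(Fib.step c s).y - (Fib.step c t).y| ≤ 200 * B ^ 2 * |s.y - t.y| := by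
  have hx := hc.dx hR hs ht h
  have hu := hc.hu
  set a := |s.y - t.y| with ha
  have ha0 : 0 ≤ a := abs_nonneg _
  have zz : |(2 * s.y * s.x - s.u) - (2 * t.y * t.x - t.u)| ≤ (2 * B + 11) * a := by
    have k : (2 * s.y * s.x - s.u) - (2 * t.y * t.x - t.u) =
      2 * s.x * (s.y - t.y) + 2 * t.y * (s.x - t.x) + (-(s.u - t.u)) := by ring
    rw [k]
    have f1 : |2 * s.x * (s.y - t.y)| ≤ 2 * B * a := by
      rw [abs_mul, abs_mul, abs_two]
      exact mul_le_mul_of_nonneg_right (by linarith) ha0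
    have f2 : |2 * t.y * (s.x - t.x)| ≤ 10 * a := by
      rw [abs_mul, abs_mul, abs_two]
      nlinarith [ht.hy, abs_nonneg (s.x - t.x), abs_nonneg t.y]
    have f3 : |-(s.u - t.u)| ≤ a := by rw [abs_neg]; exact hu
    calc _ ≤ |2 * s.x * (s.y - t.y) + 2 * t.y * (s.x - t.x)| + |-(s.u - t.u)| := abs_add_le _ _
      _ ≤ |2 * s.x * (s.y - t.y)| + |2 * t.y * (s.x - t.x)| + |-(s.u - t.u)| := by
          gcongr; exact abs_add_le _ _
      _ ≤ _ := by linarith
  have zb : ∀ r : P3, |r.u| ≤ 1 → |r.y| ≤ 1 → |r.x| ≤ B → |2 * r.y * r.x - r.u| ≤ 3 * B := by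
    intro r h1 h2 h3
    have : |2 * r.y * r.x| ≤ 2 * B := by
      rw [abs_mul, abs_mul, abs_two]
      nlinarith [abs_nonneg r.y, abs_nonneg r.x]
    calc _ ≤ |2 * r.y * r.x| + |r.u| := abs_sub _ _
      _ ≤ _ := by linarith
  have ws : |(2 * s.y * (2 * s.y * s.x - s.u) - s.x) - (2 * t.y * (2 * t.y * t.x - t.u) - t.x)|
      ≤ (10 * B + 27) * a := by
    set z := 2 * s.y * s.x - s.u with hz
    set w := 2 * t.y * t.x - t.u with hw
    have k : (2 * s.y * z - s.x) - (2 * t.y * w - t.x) =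
      2 * z * (s.y - t.y) + 2 * t.y * (z - w) + (-(s.x - t.x)) := by ring
    rw [k]
    have f1 : |2 * z * (s.y - t.y)| ≤ 6 * B * a := by
      rw [abs_mul, abs_mul, abs_two]
      exact mul_le_mul_of_nonneg_right (by linarith [zb s hs.hu hs.hy Bs]) ha0
    have f2 : |2 * t.y * (z - w)| ≤ 2 * ((2 * B + 11) * a) := by
      rw [abs_mul, abs_mul, abs_two]
      nlinarith [ht.hy, abs_nonneg (z - w), abs_nonneg t.y]
    have f3 : |-(s.x - t.x)| ≤ 5 * a := by rw [abs_neg]; exact hx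
    calc _ ≤ |2 * z * (s.y - t.y) + 2 * t.y * (z - w)| + |-(s.x - t.x)| := abs_add_le _ _
      _ ≤ |2 * z * (s.y - t.y)| + |2 * t.y * (z - w)| + |-(s.x - t.x)| := by
          gcongr; exact abs_add_le _ _
      _ ≤ _ := by linarith
  have hBa : B * a ≤ B ^ 2 * a := mul_le_mul_of_nonneg_right (by nlinarith) ha0
  have hBb : a ≤ B ^ 2 * a := by nlinarith
  have hfin : (10 * B + 27) * a ≤ 200 * B ^ 2 * a := by nlinarith
  cases c
  · -- a
    have zs := z_of_a hR hs as
    have zt := z_of_a hR ht at'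
    change |(2 * (2 * s.y * (2 * s.y * s.x - s.u) - s.x) * (2 * s.y * s.x - s.u) - s.y) -
      (2 * (2 * t.y * (2 * t.y * t.x - t.u) - t.x) * (2 * t.y * t.x - t.u) - t.y)| ≤ _
    set z := 2 * s.y * s.x - s.u with hz
    set w := 2 * t.y * t.x - t.u with hw
    have gb : |2 * s.y * z - s.x| ≤ 2 * B := by
      have : |2 * s.y * z| ≤ 1 := by
        rw [abs_mul, abs_mul, abs_two]
        nlinarith [hs.hy, abs_nonneg s.y, abs_nonneg z]
      calc _ ≤ |2 * s.y * z| + |s.x| := abs_sub _ _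
        _ ≤ _ := by linarith
    set g := 2 * s.y * z - s.x with hg
    set k := 2 * t.y * w - t.x with hk
    have kk : (2 * g * z - s.y) - (2 * k * w - t.y) =
      2 * g * (z - w) + 2 * w * (g - k) + (-(s.y - t.y)) := by ring
    rw [kk]
    have f1 : |2 * g * (z - w)| ≤ 4 * B * ((2 * B + 11) * a) := by
      rw [abs_mul, abs_mul, abs_two]
      exact mul_le_mul (by linarith) zz (abs_nonneg _) (by linarith)
    have f2 : |2 * w * (g - k)| ≤ (10 * B + 27) * a := by
      rw [abs_mul, abs_mul, abs_two]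
      have : 2 * |w| ≤ 1 := by linarith
      calc 2 * |w| * |g - k| ≤ 1 * |g - k| := mul_le_mul_of_nonneg_right this (abs_nonneg _)
        _ = |g - k| := one_mul _
        _ ≤ _ := ws
    have f3 : |-(s.y - t.y)| ≤ a := by rw [abs_neg]
    calc _ ≤ |2 * g * (z - w) + 2 * w * (g - k)| + |-(s.y - t.y)| := abs_add_le _ _
      _ ≤ |2 * g * (z - w)| + |2 * w * (g - k)| + |-(s.y - t.y)| := by
          gcongr; exact abs_add_le _ _
      _ ≤ 4 * B * ((2 * B + 11) * a) + (10 * B + 27) * a + a := by linarith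
      _ = 8 * (B ^ 2 * a) + 54 * (B * a) + 28 * a := by ring
      _ ≤ _ := by nlinarith
  · exact ws.trans hfin
  · exact ws.trans hfin

end Pool.Agent.W811.Fib
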