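import Pool.Agent.W811.Fib.Horse

/-!
Estimates for pairs of states with the same symbol.
-/

set_option autoImplicit false

namespace Pool.Agent.W811.Fib

lemma same_sign_abs {a b : ℝ} (h : 0 < a * b) : |a + b| = |a| + |b| := by
  rcases le_or_gt 0 a with h1 | h1
  · have h2 : 0 ≤ b := by
      by_contra hc; push Not at hc; nlinarith
    rw [abs_of_nonneg h1, abs_of_nonneg h2, abs_of_nonneg (by linarith)]
  · have h2 : b ≤ 0 := by
      by_contra hc; push Not at hc; nlinarith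
    rw [abs_of_neg h1, abs_of_nonpos h2, abs_of_neg (by linarith)]
    ring

lemma abs_mul_sub_mul_le {a b c d : ℝ} (hd : |d| ≤ 1) (ha : |a| ≤ 1) :
    |a * b - c * d| ≤ |a - c| + |b - d| := by
  have : a * b - c * d = a * (b - d) + (a - c) * d := by ring
  rw [this]
  calc |a * (b - d) + (a - c) * d| ≤ |a * (b - d)| + |(a - c) * d| := abs_add_le _ _
    _ = |a| * |b - d| + |a - c| * |d| := by rw [abs_mul, abs_mul]
    _ ≤ 1 * |b - d| + |a - c| * 1 := by
        gcongr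
    _ = |a - c| + |b - d| := by ring

lemma dx_bound {R : ℝ} {s t : P3} (hR : 100 ≤ R) (hs : Reg R s) (ht : Reg R t)
    (h : 0 < s.x * t.x) :
    |s.x - t.x| ≤ 2 * (|s.u - t.u| + |s.y - t.y|) + |inv s - inv t| / 100 := by
  have xs := hs.x_ge (by linarith)
  have xt := ht.x_ge (by linarith)
  have e1 : (s.x - t.x) * (s.x + t.x - 2 * s.u * s.y) =
      (inv s - inv t) + (-(s.u + t.u) * (s.u - t.u)) + (-(s.y + t.y) * (s.y - t.y)) +
        2 * t.x * (s.u * s.y - t.u * t.y) := by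
    simp only [inv]; ring
  have e2 := abs_mul_sub_mul_le (a := s.u) (b := s.y) (c := t.u) (d := t.y) ht.hy hs.hu
  have e3 : |s.x + t.x - 2 * s.u * s.y| ≥ |s.x| + |t.x| - 2 := by
    have h1 := abs_sub_abs_le_abs_sub (s.x + t.x) (2 * s.u * s.y)
    rw [same_sign_abs h] at h1
    have h2 : |2 * s.u * s.y| ≤ 2 := by
      rw [abs_mul, abs_mul, abs_two]
      nlinarith [hs.hu, hs.hy, abs_nonneg s.u, abs_nonneg s.y]
    linarith
  have e4 : |(inv s - inv t) + (-(s.u + t.u) * (s.u - t.u)) + (-(s.y + t.y) * (s.y - t.y)) +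
        2 * t.x * (s.u * s.y - t.u * t.y)| ≤ |inv s - inv t| + 2 * |s.u - t.u| + 2 * |s.y - t.y|
        + 2 * |t.x| * (|s.u - t.u| + |s.y - t.y|) := by
    have f1 : |-(s.u + t.u) * (s.u - t.u)| ≤ 2 * |s.u - t.u| := by
      rw [abs_mul, abs_neg]
      apply mul_le_mul_of_nonneg_right _ (abs_nonneg _)
      exact (abs_add_le _ _).trans (by linarith [hs.hu, ht.hu])
    have f2 : |-(s.y + t.y) * (s.y - t.y)| ≤ 2 * |s.y - t.y| := by
      rw [abs_mul, abs_neg]
      apply mul_le_mul_of_nonneg_right _ (abs_nonneg _)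
      exact (abs_add_le _ _).trans (by linarith [hs.hy, ht.hy])
    have f3 : |2 * t.x * (s.u * s.y - t.u * t.y)| ≤ 2 * |t.x| * (|s.u - t.u| + |s.y - t.y|) := by
      rw [abs_mul, abs_mul, abs_two]
      exact mul_le_mul_of_nonneg_left e2 (by positivity)
    calc _ ≤ |(inv s - inv t) + (-(s.u + t.u) * (s.u - t.u)) + (-(s.y + t.y) * (s.y - t.y))| +
          |2 * t.x * (s.u * s.y - t.u * t.y)| := abs_add_le _ _
      _ ≤ |(inv s - inv t) + (-(s.u + t.u) * (s.u - t.u))| + |-(s.y + t.y) * (s.y - t.y)| +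
          |2 * t.x * (s.u * s.y - t.u * t.y)| := by gcongr; exact abs_add_le _ _
      _ ≤ |inv s - inv t| + |-(s.u + t.u) * (s.u - t.u)| + |-(s.y + t.y) * (s.y - t.y)| +
          |2 * t.x * (s.u * s.y - t.u * t.y)| := by gcongr; exact abs_add_le _ _
      _ ≤ _ := by linarith
  rw [← e1, abs_mul] at e4
  have e5 : |s.x - t.x| * (|s.x| + |t.x| - 2) ≤ |inv s - inv t| +
      (2 * |t.x| + 2) * (|s.u - t.u| + |s.y - t.y|) := by
    have := mul_le_mul_of_nonneg_left e3 (abs_nonneg (s.x - t.x))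
    nlinarith
  set d := |s.x - t.x|
  set v := |inv s - inv t| with hv
  set w := |s.u - t.u| + |s.y - t.y| with hw
  have hd : 0 ≤ d := abs_nonneg _
  have hv0 : 0 ≤ v := abs_nonneg _
  have hw0 : 0 ≤ w := by positivity
  have e6 : d * (|t.x| + 98) ≤ v + (2 * |t.x| + 2) * w := by
    have : d * (|t.x| + 98) ≤ d * (|s.x| + |t.x| - 2) := by
      apply mul_le_mul_of_nonneg_left _ hd; linarith
    linarith
  by_contra hc
  push Not at hc
  have e7 : (2 * w + v / 100) * (|t.x| + 98) < d * (|t.x| + 98) :=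
    mul_lt_mul_of_pos_right hc (by linarith)
  nlinarith

/-- the `B` branches of the basic estimate -/
lemma pair_boundB {R : ℝ} {s t : P3} (hR : 100 ≤ R) (hs : Reg R s) (ht : Reg R t)
    (h : 0 < s.x * t.x) (b2 : |(stepB t).y| ≤ 1) (b3 : 0.98 ≤ |s.y + t.y|)
    (b4 : |t.y| ≤ 0.51) :
    R * |s.y - t.y| ≤ |(stepB s).y - (stepB t).y| + |s.u - t.u| + |inv s - inv t| := by
  have hd := dx_bound hR hs ht h
  have xs := hs.x_ge (by linarith)
  have k1 := sq_y_of_B hR ht b2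
  have hv0 : 0 ≤ |inv s - inv t| := abs_nonneg _
  have hb0 : 0 ≤ |s.u - t.u| := abs_nonneg _
  have ha0 : 0 ≤ |s.y - t.y| := abs_nonneg _
  have hd0 : 0 ≤ |s.x - t.x| := abs_nonneg _
  have e1 : (s.y - t.y) * (4 * s.x * (s.y + t.y) - 2 * s.u) =
      ((stepB s).y - (stepB t).y) + (-(s.x - t.x) * (4 * t.y ^ 2 - 1)) +
        2 * t.y * (s.u - t.u) := by
    simp only [stepB]; ring
  have e2 : |4 * s.x * (s.y + t.y) - 2 * s.u| ≥ 3.92 * R - 2 := by
    have h1 := abs_sub_abs_le_abs_sub (4 * s.x * (s.y + t.y)) (2 * s.u)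
    rw [abs_mul, abs_mul, abs_mul 2] at h1
    rw [abs_two, abs_of_nonneg (by norm_num : (0 : ℝ) ≤ 4)] at h1
    have h2 : R * 0.98 ≤ |s.x| * |s.y + t.y| := mul_le_mul xs b3 (by norm_num) (abs_nonneg _)
    nlinarith [hs.hu]
  have e3 : |((stepB s).y - (stepB t).y) + (-(s.x - t.x) * (4 * t.y ^ 2 - 1)) +
        2 * t.y * (s.u - t.u)| ≤ |(stepB s).y - (stepB t).y| + 0.03 * |s.x - t.x| +
        1.02 * |s.u - t.u| := by
    have f1 : |-(s.x - t.x) * (4 * t.y ^ 2 - 1)| ≤ 0.03 * |s.x - t.x| := by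
      rw [abs_mul, abs_neg]
      nlinarith [abs_nonneg (s.x - t.x)]
    have f2 : |2 * t.y * (s.u - t.u)| ≤ 1.02 * |s.u - t.u| := by
      rw [abs_mul, abs_mul, abs_two]
      nlinarith [abs_nonneg (s.u - t.u)]
    calc _ ≤ |((stepB s).y - (stepB t).y) + (-(s.x - t.x) * (4 * t.y ^ 2 - 1))| +
          |2 * t.y * (s.u - t.u)| := abs_add_le _ _
      _ ≤ |(stepB s).y - (stepB t).y| + |-(s.x - t.x) * (4 * t.y ^ 2 - 1)| +
          |2 * t.y * (s.u - t.u)| := by gcongr; exact abs_add_le _ _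
      _ ≤ _ := by linarith
  rw [← e1, abs_mul] at e3
  have e4 : |s.y - t.y| * (3.92 * R - 2) ≤ |s.y - t.y| * |4 * s.x * (s.y + t.y) - 2 * s.u| :=
    mul_le_mul_of_nonneg_left e2 ha0
  have hRa : 100 * |s.y - t.y| ≤ R * |s.y - t.y| := mul_le_mul_of_nonneg_right hR ha0
  have hf0 : 0 ≤ |(stepB s).y - (stepB t).y| := abs_nonneg _
  generalize |s.y - t.y| = a at *
  generalize |s.u - t.u| = b at *
  generalize |s.x - t.x| = d at *
  generalize |inv s - inv t| = v at *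
  generalize |(stepB s).y - (stepB t).y| = f at *
  have e5 : a * (3.92 * R - 2) = 3.92 * (R * a) - 2 * a := by ring
  rw [e5] at e4
  linarith

/-- branch `a`, real version -/
lemma pair_boundA_aux {R s_u s_x s_y t_u t_x t_y z w g k fs ft : ℝ} (hR : 100 ≤ R)
    (xs : R ≤ |s_x|) (xt : R ≤ |t_x|) (ys : |s_y| ≤ 0.01) (yt : |t_y| ≤ 0.01)
    (zs : |z| ≤ 0.01) (zt : |w| ≤ 0.01) (hz : z = 2 * s_y * s_x - s_u)
    (hw : w = 2 * t_y * t_x - t_u) (hg : g = 2 * s_y * z - s_x) (hk : k = 2 * t_y * w - t_x)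
    (hfs : fs = 2 * g * z - s_y) (hft : ft = 2 * k * w - t_y) {v : ℝ} (hv0 : 0 ≤ v)
    (hd : |s_x - t_x| ≤ 2 * (|s_u - t_u| + |s_y - t_y|) + v / 100) :
    R * |s_y - t_y| ≤ |fs - ft| + |s_u - t_u| + v ∧
    R * |z - w| ≤ |fs - ft| + |s_u - t_u| + v := by
  have hb0 : 0 ≤ |s_u - t_u| := abs_nonneg _
  have ha0 : 0 ≤ |s_y - t_y| := abs_nonneg _
  have hd0 : 0 ≤ |s_x - t_x| := abs_nonneg _
  have hf0 : 0 ≤ |fs - ft| := abs_nonneg _
  have hc0 : 0 ≤ |z - w| := abs_nonneg _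
  have e1 : 2 * (R * |s_y - t_y|) ≤ |z - w| + 0.02 * |s_x - t_x| + |s_u - t_u| := by
    have k : 2 * t_x * (s_y - t_y) = (z - w) + (-(2 * s_y * (s_x - t_x))) + (s_u - t_u) := by
      rw [hz, hw]; ring
    have k2 : |2 * t_x * (s_y - t_y)| ≤ |z - w| + 0.02 * |s_x - t_x| + |s_u - t_u| := by
      rw [k]
      have f1 : |-(2 * s_y * (s_x - t_x))| ≤ 0.02 * |s_x - t_x| := by
        rw [abs_neg, abs_mul, abs_mul, abs_two]
        nlinarith
      calc _ ≤ |(z - w) + (-(2 * s_y * (s_x - t_x)))| + |s_u - t_u| := abs_add_le _ _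
        _ ≤ |z - w| + |-(2 * s_y * (s_x - t_x))| + |s_u - t_u| := by
            gcongr; exact abs_add_le _ _
        _ ≤ _ := by linarith
    rw [abs_mul, abs_mul, abs_two] at k2
    have k3 : R * |s_y - t_y| ≤ |t_x| * |s_y - t_y| := mul_le_mul_of_nonneg_right xt ha0
    linarith
  have e2 : |g - k| ≤ 0.02 * |z - w| + 0.02 * |s_y - t_y| + |s_x - t_x| := by
    have k1 : g - k = 2 * t_y * (z - w) + 2 * z * (s_y - t_y) + (-(s_x - t_x)) := by
      rw [hg, hk]; ring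
    rw [k1]
    have f1 : |2 * t_y * (z - w)| ≤ 0.02 * |z - w| := by
      rw [abs_mul, abs_mul, abs_two]
      nlinarith [abs_nonneg (z - w)]
    have f2 : |2 * z * (s_y - t_y)| ≤ 0.02 * |s_y - t_y| := by
      rw [abs_mul, abs_mul, abs_two]
      nlinarith
    have f3 : |-(s_x - t_x)| = |s_x - t_x| := by rw [abs_neg]
    calc _ ≤ |2 * t_y * (z - w) + 2 * z * (s_y - t_y)| + |-(s_x - t_x)| := abs_add_le _ _
      _ ≤ |2 * t_y * (z - w)| + |2 * z * (s_y - t_y)| + |-(s_x - t_x)| := by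
          gcongr; exact abs_add_le _ _
      _ ≤ _ := by linarith
  have e3 : R - 0.01 ≤ |g| := by
    have h4 : |2 * s_y * z| ≤ 0.01 := by
      rw [abs_mul, abs_mul, abs_two]
      nlinarith [abs_nonneg s_y, abs_nonneg z]
    have h5 := abs_sub_abs_le_abs_sub s_x (2 * s_y * z)
    rw [abs_sub_comm, ← hg] at h5
    linarith
  have e4 : 2 * (R * |z - w|) - 0.02 * |z - w| ≤ |fs - ft| + 0.02 * |g - k| + |s_y - t_y| := by
    have k1 : 2 * g * (z - w) = (fs - ft) + (-(2 * w * (g - k))) + (s_y - t_y) := by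
      rw [hfs, hft]; ring
    have k2 : |2 * g * (z - w)| ≤ |fs - ft| + 0.02 * |g - k| + |s_y - t_y| := by
      rw [k1]
      have f1 : |-(2 * w * (g - k))| ≤ 0.02 * |g - k| := by
        rw [abs_neg, abs_mul, abs_mul, abs_two]
        nlinarith [abs_nonneg (g - k)]
      calc _ ≤ |(fs - ft) + (-(2 * w * (g - k)))| + |s_y - t_y| :=
            abs_add_le _ _
        _ ≤ |fs - ft| + |-(2 * w * (g - k))| + |s_y - t_y| := by
            gcongr; exact abs_add_le _ _
        _ ≤ _ := by linarith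
    rw [abs_mul, abs_mul, abs_two] at k2
    have k3 : (R - 0.01) * |z - w| ≤ |g| * |z - w| :=
      mul_le_mul_of_nonneg_right e3 (abs_nonneg _)
    have k4 : (R - 0.01) * |z - w| = R * |z - w| - 0.01 * |z - w| := by ring
    rw [k4] at k3
    linarith
  have r1 : 100 * |s_y - t_y| ≤ R * |s_y - t_y| := mul_le_mul_of_nonneg_right hR ha0
  have r2 : 100 * |z - w| ≤ R * |z - w| := mul_le_mul_of_nonneg_right hR hc0
  constructor
  · linarith
  · linarith

/-- the basic hyperbolic estimate -/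
lemma pair_bound {R : ℝ} {s t : P3} {c : Sym} (hR : 100 ≤ R) (hs : Reg R s) (ht : Reg R t)
    (as : Adm c s) (at' : Adm c t) (h : 0 < s.x * t.x) :
    R * |s.y - t.y| ≤ |(step c s).y - (step c t).y| + |s.u - t.u| + |inv s - inv t| ∧
    R * |(step c s).u - (step c t).u| ≤
      |(step c s).y - (step c t).y| + |s.u - t.u| + |inv s - inv t| := by
  cases c
  · exact pair_boundA_aux hR (hs.x_ge (by linarith)) (ht.x_ge (by linarith)) (y_of_a hR hs as)
      (y_of_a hR ht at') (z_of_a hR hs as) (z_of_a hR ht at') rfl rfl rfl rfl rfl rfl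
      (abs_nonneg _) (dx_bound hR hs ht h)
  · obtain ⟨ys1, ys2⟩ := y_of_p hR hs as
    obtain ⟨yt1, yt2⟩ := y_of_p hR ht at'
    have h1 := pair_boundB hR hs ht h at'.2 (by rw [abs_of_pos (by linarith)]; linarith)
      (by rw [abs_of_pos (by linarith)]; linarith)
    exact ⟨h1, h1⟩
  · obtain ⟨ys1, ys2⟩ := y_of_m hR hs as
    obtain ⟨yt1, yt2⟩ := y_of_m hR ht at'
    have h1 := pair_boundB hR hs ht h at'.2 (by rw [abs_of_neg (by linarith)]; linarith)
      (by rw [abs_of_neg (by linarith)]; linarith)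
    exact ⟨h1, h1⟩

end Pool.Agent.W811.Fib
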