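import Pool.Agent.W811.Fib.Factor

/-!
Comparison of the distances of two pairs of states with the same itineraries.
-/

set_option autoImplicit false

namespace Pool.Agent.W811.Fib

/-- slopes of a pair -/
noncomputable def slU (s t : P3) : ℝ := (s.u - t.u) / (s.y - t.y)

/-- slopes of a pair -/
noncomputable def slX (s t : P3) : ℝ := (s.x - t.x) / (s.y - t.y)

/-- a pair of states in the cone -/
structure Good (R B : ℝ) (s t : P3) : Prop where
  rs : Reg R s
  rt : Reg R t
  cone : Cone s t
  sgn : 0 < s.x * t.x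
  bs : inv s ≤ (B - 1) ^ 2
  bt : inv t ≤ (B - 1) ^ 2
  ne : s.y ≠ t.y

section

variable {R B : ℝ} {s t : P3} {c : Sym}

lemma Good.pos (h : Good R B s t) : 0 < |s.y - t.y| := abs_pos.2 (sub_ne_zero.2 h.ne)

lemma Good.step (h : Good R B s t) (hR : 100 ≤ R) (as : Adm c s) (at' : Adm c t) :
    Good R B (Fib.step c s) (Fib.step c t) ∧
      98 ≤ |((Fib.step c s).y - (Fib.step c t).y) / (s.y - t.y)| := by
  obtain ⟨h1, h2⟩ := h.cone.step hR h.rs h.rt as at' h.sgn
  have h3 := h.pos
  refine ⟨⟨h.rs.step as, h.rt.step at', h1, sign_step hR h.rs h.rt as at' h.sgn, ?_, ?_, ?_⟩, ?_⟩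
  · rw [inv_step]; exact h.bs
  · rw [inv_step]; exact h.bt
  · intro h4
    rw [h4, sub_self, abs_zero] at h2
    nlinarith
  · rw [abs_div, le_div_iff₀ h3]
    nlinarith

lemma Good.slU_le (h : Good R B s t) : |slU s t| ≤ 1 := by
  unfold slU
  rw [abs_div, div_le_one h.pos]
  exact h.cone.hu

lemma Good.slX_le (h : Good R B s t) (hR : 100 ≤ R) : |slX s t| ≤ 5 := by
  unfold slX
  rw [abs_div, div_le_iff₀ h.pos]
  exact h.cone.dx hR h.rs h.rt h.sgn

lemma Good.xt (h : Good R B s t) (hB : 100 ≤ B) : |t.x| ≤ B :=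
  h.rt.x_le (by linarith) h.bt

lemma dst_u (s t : P3) : |s.u - t.u| ≤ dst s t := by
  unfold dst
  have h1 := abs_nonneg (s.x - t.x)
  have h2 := abs_nonneg (s.y - t.y)
  linarith

lemma dst_x (s t : P3) : |s.x - t.x| ≤ dst s t := by
  unfold dst
  have h1 := abs_nonneg (s.u - t.u)
  have h2 := abs_nonneg (s.y - t.y)
  linarith

lemma dst_y (s t : P3) : |s.y - t.y| ≤ dst s t := by
  unfold dst
  have h1 := abs_nonneg (s.x - t.x)
  have h2 := abs_nonneg (s.u - t.u)
  linarith

/-- one step of the comparison of the slopes and of the expansion factors -/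
lemma fact_step {s' t' : P3} {D : ℝ} (hR : 100 ≤ R) (hB : 100 ≤ B) (h : Good R B s t)
    (h' : Good R B s' t') (as : Adm c s) (at' : Adm c t) (as' : Adm c s') (at'' : Adm c t')
    (d1 : dst s s' ≤ D) (d2 : dst t t' ≤ D)
    (d4 : dst (step c t) (step c t') ≤ D) (d5 : dst (step c s) (step c s') ≤ D) :
    |slU (step c s) (step c t) - slU (step c s') (step c t')| +
      |slX (step c s) (step c t) - slX (step c s') (step c t')| ≤
      (|slU s t - slU s' t'| + |slX s t - slX s' t'|) / 2 + B * D ∧
    |((step c s).y - (step c t).y) / (s.y - t.y)| ≤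
      |((step c s').y - (step c t').y) / (s'.y - t'.y)| *
        Real.exp ((|slU s t - slU s' t'| + |slX s t - slX s' t'|) + B * D) := by
  obtain ⟨g, l⟩ := h.step hR as at'
  obtain ⟨g', l'⟩ := h'.step hR as' at''
  have hD : 0 ≤ D := (dst_nonneg _ _).trans d1
  have n1 : s.y - t.y ≠ 0 := sub_ne_zero.2 h.ne
  have n1' : s'.y - t'.y ≠ 0 := sub_ne_zero.2 h'.ne
  have Bcase : (step c s = stepB s) → (step c t = stepB t) → (step c s' = stepB s') →
      (step c t' = stepB t') →
      |slU (step c s) (step c t) - slU (step c s') (step c t')| +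
      |slX (step c s) (step c t) - slX (step c s') (step c t')| ≤
      (|slU s t - slU s' t'| + |slX s t - slX s' t'|) / 2 + B * D ∧
    |((step c s).y - (step c t).y) / (s.y - t.y)| ≤
      |((step c s').y - (step c t').y) / (s'.y - t'.y)| *
        Real.exp ((|slU s t - slU s' t'| + |slX s t - slX s' t'|) + B * D) := by
    intro q1 q2 q3 q4
    have gx := g'.slX_le hR
    have n2 : (stepB s).y - (stepB t).y ≠ 0 := by rw [← q1, ← q2]; exact sub_ne_zero.2 g.ne
    have n2' : (stepB s').y - (stepB t').y ≠ 0 := by rw [← q3, ← q4]; exact sub_ne_zero.2 g'.ne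
    rw [q1, q2] at l
    rw [q3, q4] at l' gx
    rw [q2, q4] at d4
    have k := fact_b (B := B) (D := D) (y := s.y) (y' := s'.y) (σ := slU s t) (σ' := slU s' t')
      (χ := slX s t) (χ' := slX s' t') (x := t.x) (x' := t'.x) (z := (stepB t).x)
      (z' := (stepB t').x) (ζ := ((stepB s).x - (stepB t).x) / (s.y - t.y))
      (ζ' := ((stepB s').x - (stepB t').x) / (s'.y - t'.y))
      (f := ((stepB s).y - (stepB t).y) / (s.y - t.y))
      (f' := ((stepB s').y - (stepB t').y) / (s'.y - t'.y)) hB hD h.rs.hy h'.rs.hy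
      h'.slU_le (h'.slX_le hR) (h'.xt hB) ((dst_y _ _).trans d1) ((dst_x _ _).trans d2)
      ((dst_x _ _).trans d4) (le_refl _)
      (by simp only [stepB, slU, slX]; field_simp; ring)
      (by simp only [stepB, slU, slX]; field_simp; ring)
      (by simp only [stepB, slU, slX]; field_simp; ring)
      (by simp only [stepB, slU, slX]; field_simp; ring) l l' (by
        have : ((stepB s').x - (stepB t').x) / (s'.y - t'.y) /
          (((stepB s').y - (stepB t').y) / (s'.y - t'.y)) = slX (stepB s') (stepB t') := by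
          rw [div_div_div_cancel_right₀ n1']; rfl
        rw [this]; exact gx)
    rw [div_div_div_cancel_right₀ n1, div_div_div_cancel_right₀ n1', one_div_div, one_div_div] at k
    rw [q1, q2, q3, q4]
    exact k
  cases c
  · -- `a`
    have gx := g'.slX_le hR
    have n2 : (stepA s).y - (stepA t).y ≠ 0 := sub_ne_zero.2 g.ne
    have n2' : (stepA s').y - (stepA t').y ≠ 0 := sub_ne_zero.2 g'.ne
    have k := fact_a (B := B) (D := D) (y := s.y) (y' := s'.y) (σ := slU s t) (σ' := slU s' t')
      (χ := slX s t) (χ' := slX s' t') (x := t.x) (x' := t'.x) (z := (stepA t).u)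
      (z' := (stepA t').u) (w := (stepA s).x) (w' := (stepA s').x)
      (ζ := ((stepA s).u - (stepA t).u) / (s.y - t.y))
      (ζ' := ((stepA s').u - (stepA t').u) / (s'.y - t'.y))
      (ω := ((stepA s).x - (stepA t).x) / (s.y - t.y))
      (ω' := ((stepA s').x - (stepA t').x) / (s'.y - t'.y))
      (f := ((stepA s).y - (stepA t).y) / (s.y - t.y))
      (f' := ((stepA s').y - (stepA t').y) / (s'.y - t'.y))
      (e := |slU s t - slU s' t'| + |slX s t - slX s' t'|) hB hD
      (y_of_a hR h.rs as) (y_of_a hR h'.rs as') (z_of_a hR h.rt at') (z_of_a hR h'.rt at'')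
      h.slU_le (h.slX_le hR) h'.slU_le (h'.slX_le hR) (hR.trans (h.rt.x_ge (by linarith)))
      (hR.trans (h'.rt.x_ge (by linarith))) (hR.trans (g.rs.x_ge (by linarith)))
      (hR.trans (g'.rs.x_ge (by linarith)))
      ((dst_y _ _).trans d1) ((dst_x _ _).trans d2)
      ((dst_u _ _).trans d4) ((dst_x _ _).trans d5) (le_refl _)
      (by simp only [stepA, slU, slX]; field_simp; ring)
      (by simp only [stepA, slU, slX]; field_simp; ring)
      (by simp only [stepA, slU, slX]; field_simp; ring)
      (by simp only [stepA, slU, slX]; field_simp; ring)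
      (by simp only [stepA]; field_simp; ring)
      (by simp only [stepA]; field_simp; ring)
    rw [div_div_div_cancel_right₀ n1, div_div_div_cancel_right₀ n1',
      div_div_div_cancel_right₀ n1, div_div_div_cancel_right₀ n1'] at k
    exact k
  · exact Bcase rfl rfl rfl rfl
  · exact Bcase rfl rfl rfl rfl

lemma Good.orb {c : ℕ → Sym} {n : ℕ} (h : Good R B s t) (hR : 100 ≤ R) (fs : Foll c n s)
    (ft : Foll c n t) : Good R B (Fib.orb c n s) (Fib.orb c n t) := by
  induction n with
  | zero => exact h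
  | succ n ih =>
    exact ((ih (fs.mono (by omega)) (ft.mono (by omega))).step hR (fs n (by omega))
      (ft n (by omega))).1

lemma pow_aux1 (B v : ℝ) (m : ℕ) (hB : 100 ≤ B) (hv : 0 ≤ v) :
    (45 * B * (1 / 2) ^ m - 44 * B * (1 / 50) ^ m + 8 * B * v) / 2 +
      B * (10 * (1 / 50) ^ m + v) ≤
      45 * B * (1 / 2) ^ (m + 1) - 44 * B * (1 / 50) ^ (m + 1) + 8 * B * v := by
  have h1 : (0 : ℝ) ≤ B * (1 / 50) ^ m := by positivity
  have h2 : 0 ≤ B * v := by positivity
  rw [pow_succ, pow_succ]
  nlinarith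

lemma pow_aux2 (B v : ℝ) (m : ℕ) (hB : 100 ≤ B) (hv : 0 ≤ v) :
    (112 * B + 12 * B * v * m - 90 * B * (1 / 2) ^ m - 22 * B * (1 / 50) ^ m) +
    ((45 * B * (1 / 2) ^ m - 44 * B * (1 / 50) ^ m + 8 * B * v) +
      B * (10 * (1 / 50) ^ m + v)) ≤
      112 * B + 12 * B * v * ((m + 1 : ℕ) : ℝ) - 90 * B * (1 / 2) ^ (m + 1) -
        22 * B * (1 / 50) ^ (m + 1) := by
  have h1 : (0 : ℝ) ≤ B * (1 / 50) ^ m := by positivity
  have h2 : 0 ≤ B * v := by positivity
  rw [pow_succ, pow_succ]
  push_cast
  nlinarith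

/-- the comparison along a common itinerary -/
lemma ratio_aux {s' t' : P3} {v : ℝ} {c : ℕ → Sym} {m : ℕ} (hv : 0 ≤ v) (hR : 100 ≤ R)
    (hB : 100 ≤ B)
    (h : Good R B s t) (h' : Good R B s' t') (fs : Foll c m s) (ft : Foll c m t)
    (fs' : Foll c m s') (ft' : Foll c m t')
    (ds : ∀ j ≤ m, dst (orb c j s) (orb c j s') ≤ 10 / 50 ^ j + v)
    (dt : ∀ j ≤ m, dst (orb c j t) (orb c j t') ≤ 10 / 50 ^ j + v) :
    |slU (orb c m s) (orb c m t) - slU (orb c m s') (orb c m t')| +
      |slX (orb c m s) (orb c m t) - slX (orb c m s') (orb c m t')| ≤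
      45 * B * (1 / 2) ^ m - 44 * B * (1 / 50) ^ m + 8 * B * v ∧
    |(orb c m s).y - (orb c m t).y| * |s'.y - t'.y| ≤
      Real.exp (112 * B + 12 * B * v * m - 90 * B * (1 / 2) ^ m - 22 * B * (1 / 50) ^ m) *
        (|s.y - t.y| * |(orb c m s').y - (orb c m t').y|) := by
  induction m with
  | zero =>
    have h1 := h.slU_le
    have h2 := h'.slU_le
    have h3 := h.slX_le hR
    have h4 := h'.slX_le hR
    constructor
    · simp only [orb]
      have h5 := abs_sub (slU s t) (slU s' t')
      have h6 := abs_sub (slX s t) (slX s' t')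
      have h7 : 0 ≤ 8 * B * v := by positivity
      simp only [pow_zero]
      linarith
    · simp only [orb, pow_zero, Nat.cast_zero, mul_zero]
      rw [show 112 * B + 0 - 90 * B * 1 - 22 * B * 1 = (0 : ℝ) by ring, Real.exp_zero, one_mul]
  | succ m ih =>
    obtain ⟨i1, i2⟩ := ih (fs.mono (by omega)) (ft.mono (by omega)) (fs'.mono (by omega))
      (ft'.mono (by omega)) (fun j hj => ds j (by omega)) (fun j hj => dt j (by omega))
    have g := h.orb hR (fs.mono (Nat.le_succ m)) (ft.mono (Nat.le_succ m))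
    have g' := h'.orb hR (fs'.mono (Nat.le_succ m)) (ft'.mono (Nat.le_succ m))
    have e50 : (10 : ℝ) / 50 ^ m = 10 * (1 / 50) ^ m := by rw [one_div_pow]; ring
    have mono : (10 : ℝ) / 50 ^ (m + 1) + v ≤ 10 * (1 / 50) ^ m + v := by
      rw [← e50]
      have : (10 : ℝ) / 50 ^ (m + 1) ≤ 10 / 50 ^ m := by
        apply div_le_div_of_nonneg_left (by norm_num) (by positivity)
        exact pow_le_pow_right₀ (by norm_num) (by omega)
      linarith
    have k := fact_step (D := 10 * (1 / 50) ^ m + v) hR hB g g' (fs m (by omega))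
      (ft m (by omega)) (fs' m (by omega)) (ft' m (by omega))
      (by rw [← e50]; exact ds m (by omega)) (by rw [← e50]; exact dt m (by omega))
      ((dt (m + 1) (le_refl _)).trans mono) ((ds (m + 1) (le_refl _)).trans mono)
    obtain ⟨k1, k2⟩ := k
    constructor
    · refine k1.trans ?_
      refine le_trans ?_ (pow_aux1 B v m hB hv)
      linarith
    · -- distances
      have gp := g.pos
      have gp' := g'.pos
      have k3 : |(orb c (m + 1) s).y - (orb c (m + 1) t).y| *
          |(orb c m s').y - (orb c m t').y| ≤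
          Real.exp ((45 * B * (1 / 2) ^ m - 44 * B * (1 / 50) ^ m + 8 * B * v) +
            B * (10 * (1 / 50) ^ m + v)) *
          (|(orb c m s).y - (orb c m t).y| * |(orb c (m + 1) s').y - (orb c (m + 1) t').y|) := by
        rw [abs_div, abs_div, div_le_iff₀ gp] at k2
        have k4 : Real.exp ((|slU (orb c m s) (orb c m t) - slU (orb c m s') (orb c m t')| +
          |slX (orb c m s) (orb c m t) - slX (orb c m s') (orb c m t')|) +
          B * (10 * (1 / 50) ^ m + v)) ≤
          Real.exp ((45 * B * (1 / 2) ^ m - 44 * B * (1 / 50) ^ m + 8 * B * v) +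
            B * (10 * (1 / 50) ^ m + v)) := Real.exp_le_exp.2 (by linarith)
        rw [orb, orb, orb, orb]
        calc _ ≤ (|(step (c m) (orb c m s')).y - (step (c m) (orb c m t')).y| /
              |(orb c m s').y - (orb c m t').y| *
              Real.exp ((|slU (orb c m s) (orb c m t) - slU (orb c m s') (orb c m t')| +
              |slX (orb c m s) (orb c m t) - slX (orb c m s') (orb c m t')|) +
              B * (10 * (1 / 50) ^ m + v)) * |(orb c m s).y - (orb c m t).y|) *
              |(orb c m s').y - (orb c m t').y| := mul_le_mul_of_nonneg_right k2 gp'.le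
          _ = Real.exp ((|slU (orb c m s) (orb c m t) - slU (orb c m s') (orb c m t')| +
              |slX (orb c m s) (orb c m t) - slX (orb c m s') (orb c m t')|) +
              B * (10 * (1 / 50) ^ m + v)) * (|(orb c m s).y - (orb c m t).y| *
              |(step (c m) (orb c m s')).y - (step (c m) (orb c m t')).y|) := by
                field_simp
          _ ≤ _ := mul_le_mul_of_nonneg_right k4 (by positivity)
      have k5 := mul_le_mul k3 i2 (by positivity) (by positivity)
      have k6 : 0 < |(orb c m s).y - (orb c m t).y| * |(orb c m s').y - (orb c m t').y| :=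
        mul_pos gp gp'
      have k7 := pow_aux2 B v m hB hv
      have k8 := Real.exp_le_exp.2 k7
      rw [Real.exp_add] at k8
      have k9 : (|(orb c (m + 1) s).y - (orb c (m + 1) t).y| * |s'.y - t'.y|) *
          (|(orb c m s).y - (orb c m t).y| * |(orb c m s').y - (orb c m t').y|) ≤
          (Real.exp (112 * B + 12 * B * v * ((m + 1 : ℕ) : ℝ) - 90 * B * (1 / 2) ^ (m + 1) -
            22 * B * (1 / 50) ^ (m + 1)) *
            (|s.y - t.y| * |(orb c (m + 1) s').y - (orb c (m + 1) t').y|)) *
            (|(orb c m s).y - (orb c m t).y| * |(orb c m s').y - (orb c m t').y|) := by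
        calc _ = (|(orb c (m + 1) s).y - (orb c (m + 1) t).y| *
              |(orb c m s').y - (orb c m t').y|) *
              (|(orb c m s).y - (orb c m t).y| * |s'.y - t'.y|) := by ring
          _ ≤ _ := k5
          _ = (Real.exp (112 * B + 12 * B * v * m - 90 * B * (1 / 2) ^ m -
                22 * B * (1 / 50) ^ m) *
              Real.exp (45 * B * (1 / 2) ^ m - 44 * B * (1 / 50) ^ m + 8 * B * v +
                B * (10 * (1 / 50) ^ m + v))) *
              ((|s.y - t.y| * |(orb c (m + 1) s').y - (orb c (m + 1) t').y|) *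
              (|(orb c m s).y - (orb c m t).y| * |(orb c m s').y - (orb c m t').y|)) := by ring
          _ ≤ _ := mul_le_mul_of_nonneg_right k8 (by positivity)
          _ = _ := by ring
      exact le_of_mul_le_mul_right k9 k6

end

end Pool.Agent.W811.Fib
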