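import Mathlib

/-!
The Fibonacci word: blocks, the fixed point of the substitution, recurrence.
-/

set_option autoImplicit false

namespace Pool.Agent.W811.Fib

/-- the alphabet -/
inductive Letter
  | a
  | b
deriving DecidableEq

/-- discrete topology -/
instance : TopologicalSpace Letter := ⊥

instance : DiscreteTopology Letter := ⟨rfl⟩

/-- the Fibonacci substitution `a ↦ ab`, `b ↦ a` on letters -/
def subst1 : Letter → List Letter
  | .a => [.a, .b]
  | .b => [.a]

/-- the substitution on words -/
def subst (w : List Letter) : List Letter := w.flatMap subst1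

/-- the first `n` letters of a sequence -/
def pre (u : ℕ → Letter) (n : ℕ) : List Letter := (List.range n).map u

/-- `S(u) = u` : the image of every initial word of `u` is an initial word of `u` -/
def IsFix (u : ℕ → Letter) : Prop := ∀ n, subst (pre u n) = pre u (subst (pre u n)).length

/-- the words `S^k(c)` -/
def blk : ℕ → Letter → List Letter
  | 0, c => [c]
  | k + 1, .a => blk k .a ++ blk k .b
  | k + 1, .b => blk k .a

lemma length_pre (u : ℕ → Letter) (n : ℕ) : (pre u n).length = n := by
  simp [pre]

lemma pre_get (u : ℕ → Letter) (n t : ℕ) (h : t < (pre u n).length) : (pre u n)[t] = u t := by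
  simp [pre]

lemma subst_append (v w : List Letter) : subst (v ++ w) = subst v ++ subst w :=
  List.flatMap_append

lemma subst_blk (k : ℕ) (c : Letter) : subst (blk k c) = blk (k + 1) c := by
  induction k generalizing c with
  | zero => cases c <;> rfl
  | succ k ih =>
    cases c
    · change subst (blk k .a ++ blk k .b) = blk (k + 1) .a ++ blk (k + 1) .b
      rw [subst_append, ih, ih]
    · change subst (blk k .a) = blk (k + 1) .a
      exact ih _

lemma blk_flatMap (n k : ℕ) (c : Letter) : blk (n + k) c = (blk n c).flatMap (blk k) := by
  induction n generalizing c with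
  | zero => simp [blk]
  | succ n ih =>
    rw [show n + 1 + k = (n + k) + 1 by ring]
    cases c
    · change blk (n + k) .a ++ blk (n + k) .b = (blk n .a ++ blk n .b).flatMap (blk k)
      rw [List.flatMap_append, ih, ih]
    · change blk (n + k) .a = (blk n .a).flatMap (blk k)
      exact ih _

lemma blk_len_b_le (k : ℕ) : (blk k .b).length ≤ (blk k .a).length := by
  cases k with
  | zero => exact le_refl _
  | succ k =>
    change (blk k .a).length ≤ (blk k .a ++ blk k .b).length
    rw [List.length_append]; omega

lemma blk_len_le (k : ℕ) (c : Letter) : (blk k c).length ≤ (blk k .a).length := by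
  cases c
  · exact le_refl _
  · exact blk_len_b_le k

lemma blk_len_pos (k : ℕ) (c : Letter) : 1 ≤ (blk k c).length := by
  induction k generalizing c with
  | zero => exact le_refl _
  | succ k ih =>
    cases c
    · change 1 ≤ (blk k .a ++ blk k .b).length
      rw [List.length_append]
      have := ih .a
      omega
    · exact ih .a

lemma blk_len_ge (k : ℕ) : k + 1 ≤ (blk k .a).length := by
  induction k with
  | zero => exact le_refl _
  | succ k ih =>
    change k + 1 + 1 ≤ (blk k .a ++ blk k .b).length
    rw [List.length_append]
    have := blk_len_pos k .b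
    omega

/-- no two consecutive `b` -/
def noBB : List Letter → Prop
  | [] => True
  | [_] => True
  | c :: c' :: w => (c = .a ∨ c' = .a) ∧ noBB (c' :: w)

lemma noBB_tail {c : Letter} {w : List Letter} (h : noBB (c :: w)) : noBB w := by
  cases w with
  | nil => trivial
  | cons c' w => exact h.2

lemma noBB_append {v w : List Letter} (hv : noBB v) (hw : noBB (Letter.a :: w)) :
    noBB (v ++ Letter.a :: w) := by
  induction v with
  | nil => exact hw
  | cons c v ih =>
    cases v with
    | nil => exact ⟨Or.inr rfl, hw⟩
    | cons c' v =>
      exact ⟨hv.1, ih hv.2⟩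

lemma blk_succ_cons (k : ℕ) (c : Letter) : ∃ w, blk (k + 1) c = Letter.a :: w := by
  induction k generalizing c with
  | zero =>
    cases c
    · exact ⟨[.b], rfl⟩
    · exact ⟨[], rfl⟩
  | succ k ih =>
    cases c
    · obtain ⟨w, hw⟩ := ih .a
      refine ⟨w ++ blk (k + 1) .b, ?_⟩
      change blk (k + 1) .a ++ blk (k + 1) .b = _
      rw [hw]; rfl
    · exact ih .a

lemma noBB_blk (k : ℕ) (c : Letter) : noBB (blk k c) := by
  induction k generalizing c with
  | zero => trivial
  | succ k ih =>
    cases c
    · change noBB (blk k .a ++ blk k .b)
      cases k with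
      | zero => exact ⟨Or.inl rfl, trivial⟩
      | succ k =>
        obtain ⟨w, hw⟩ := blk_succ_cons k .b
        have h1 := ih .b
        rw [hw] at h1 ⊢
        exact noBB_append (ih .a) h1
    · exact ih .a

/-- every window of length `3 |S^k(a)|` of a concatenation of blocks contains `S^k(a)` -/
lemma win (k : ℕ) (w : List Letter) (hw : noBB w) (j : ℕ)
    (hj : j + 3 * (blk k .a).length ≤ (w.flatMap (blk k)).length) :
    ∃ i, j ≤ i ∧ i + (blk k .a).length ≤ j + 3 * (blk k .a).length ∧
      blk k .a <+: (w.flatMap (blk k)).drop i := by
  have hp := blk_len_pos k .a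
  have hb := blk_len_b_le k
  induction w generalizing j with
  | nil => simp only [List.flatMap_nil, List.length_nil] at hj; omega
  | cons c w ih =>
    have hc := blk_len_le k c
    rw [List.flatMap_cons] at hj ⊢
    rw [List.length_append] at hj
    rcases le_or_gt (blk k c).length j with h | h
    · obtain ⟨i, h1, h2, h3⟩ := ih (noBB_tail hw) (j - (blk k c).length) (by omega)
      refine ⟨i + (blk k c).length, by omega, by omega, ?_⟩
      rw [add_comm i, List.drop_append, List.drop_eq_nil_of_le (by omega), List.nil_append]
      simpa using h3
    · cases w with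
      | nil => simp at hj; omega
      | cons c' w =>
        cases c' with
        | a =>
          refine ⟨(blk k c).length, by omega, by omega, ?_⟩
          rw [List.drop_left]
          rw [List.flatMap_cons]
          exact List.prefix_append _ _
        | b =>
          have hca : c = .a := by
            rcases hw.1 with h1 | h1
            · exact h1
            · cases h1
          subst hca
          cases w with
          | nil =>
            rw [List.flatMap_cons, List.flatMap_nil, List.append_nil] at hj
            omega
          | cons c'' w =>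
            have hca : c'' = .a := by
              rcases hw.2.1 with h1 | h1
              · cases h1
              · exact h1
            subst hca
            refine ⟨(blk k .a).length + (blk k .b).length, by omega, by omega, ?_⟩
            rw [List.flatMap_cons, List.flatMap_cons, ← List.append_assoc]
            rw [← List.length_append, List.drop_left]
            exact List.prefix_append _ _

lemma fix_zero {u : ℕ → Letter} (hu : IsFix u) : u 0 = .a := by
  have h := hu 1
  have h1 : pre u 1 = [u 0] := rfl
  rw [h1] at h
  cases h0 : u 0 with
  | a => rfl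
  | b =>
    rw [h0] at h
    have h2 : subst [Letter.b] = [Letter.a] := rfl
    rw [h2] at h
    have h3 : pre u [Letter.a].length = [u 0] := rfl
    rw [h3, h0] at h
    exact absurd h (by decide)

/-- the words `S^k(a)` are initial words of the fixed point -/
lemma blk_eq_pre {u : ℕ → Letter} (hu : IsFix u) (k : ℕ) :
    blk k .a = pre u (blk k .a).length := by
  induction k with
  | zero =>
    change [Letter.a] = [u 0]
    rw [fix_zero hu]
  | succ k ih =>
    rw [← subst_blk]
    have := hu (blk k .a).length
    rw [← ih] at this
    exact this

lemma fix_get {u : ℕ → Letter} (hu : IsFix u) (k t : ℕ) (h : t < (blk k .a).length) :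
    (blk k .a)[t] = u t := by
  have h1 := blk_eq_pre hu k
  have h2 : (blk k .a)[t]? = (pre u (blk k .a).length)[t]? := by rw [← h1]
  rw [List.getElem?_eq_getElem h, List.getElem?_eq_getElem (by rw [length_pre]; exact h),
    pre_get] at h2
  exact Option.some.inj h2

/-- `w` occurs in the sequence `c` at `j` -/
def Occ (c : ℕ → Letter) (w : List Letter) (j : ℕ) : Prop :=
  ∀ t (h : t < w.length), c (j + t) = w[t]

lemma Occ.append_left {c : ℕ → Letter} {v w : List Letter} {j : ℕ} (h : Occ c (v ++ w) j) :
    Occ c v j := by
  intro t ht
  rw [h t (by rw [List.length_append]; omega), List.getElem_append_left ht]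

lemma Occ.append_right {c : ℕ → Letter} {v w : List Letter} {j : ℕ} (h : Occ c (v ++ w) j) :
    Occ c w (j + v.length) := by
  intro t ht
  rw [add_assoc, h (v.length + t) (by rw [List.length_append]; omega),
    List.getElem_append_right (by omega)]
  simp

/-- recurrence of `S^k(a)` in the fixed point -/
lemma recur {u : ℕ → Letter} (hu : IsFix u) (k j : ℕ) :
    ∃ i, j ≤ i ∧ i + (blk k .a).length ≤ j + 3 * (blk k .a).length ∧ Occ u (blk k .a) i := by
  have hn := blk_len_ge (j + 3 * (blk k .a).length + k)
  have e := blk_flatMap (j + 3 * (blk k .a).length) k .a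
  obtain ⟨i, h1, h2, h3⟩ := win k (blk (j + 3 * (blk k .a).length) .a) (noBB_blk _ _) j (by
    rw [← e]; omega)
  refine ⟨i, h1, h2, ?_⟩
  rw [← e] at h3
  obtain ⟨v, hv⟩ := h3
  intro t ht
  have h4 : i + t < (blk (j + 3 * (blk k .a).length + k) .a).length := by omega
  rw [← fix_get hu _ _ h4]
  have h5 : ((blk (j + 3 * (blk k .a).length + k) .a).drop i)[t]? = (blk k .a)[t]? := by
    rw [← hv, List.getElem?_append_left ht]
  rw [List.getElem?_drop, List.getElem?_eq_getElem h4, List.getElem?_eq_getElem ht] at h5
  exact Option.some.inj h5

/-! ### existence of the fixed point -/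

lemma blk_prefix (k : ℕ) : blk k .a <+: blk (k + 1) .a := List.prefix_append _ _

lemma blk_prefix_le {k l : ℕ} (h : k ≤ l) : blk k .a <+: blk l .a := by
  induction l, h using Nat.le_induction with
  | base => exact List.prefix_refl _
  | succ l _ ih => exact ih.trans (blk_prefix l)

/-- the fixed point -/
def fibWord (n : ℕ) : Letter := (blk n .a)[n]'(blk_len_ge n)

lemma fibWord_get (k t : ℕ) (h : t < (blk k .a).length) : (blk k .a)[t] = fibWord t := by
  unfold fibWord
  rcases le_total k t with hkt | hkt
  · exact (blk_prefix_le hkt).getElem h
  · exact ((blk_prefix_le hkt).getElem (blk_len_ge t)).symm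

lemma pre_fibWord (k : ℕ) : blk k .a = pre fibWord (blk k .a).length := by
  apply List.ext_getElem
  · rw [length_pre]
  · intro t h1 h2
    rw [pre_get, fibWord_get]

lemma pre_prefix (u : ℕ → Letter) {m n : ℕ} (h : m ≤ n) : pre u m <+: pre u n := by
  unfold pre
  have e : n = m + (n - m) := by omega
  rw [e, List.range_add, List.map_append]
  exact List.prefix_append _ _

lemma prefix_eq_pre {u : ℕ → Letter} {w : List Letter} {n : ℕ} (h : w <+: pre u n) :
    w = pre u w.length := by
  apply List.ext_getElem
  · rw [length_pre]
  · intro t h1 h2
    rw [pre_get, h.getElem h1, pre_get]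

/-- the fixed point exists -/
theorem isFix_fibWord : IsFix fibWord := by
  intro n
  have h1 : pre fibWord n <+: blk n .a := by
    rw [pre_fibWord]
    apply pre_prefix
    have := blk_len_ge n
    omega
  have h2 : subst (pre fibWord n) <+: blk (n + 1) .a := by
    rw [← subst_blk]
    obtain ⟨v, hv⟩ := h1
    rw [← hv, subst_append]
    exact List.prefix_append _ _
  rw [pre_fibWord] at h2
  exact prefix_eq_pre h2

end Pool.Agent.W811.Fib
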