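import Pool.Agent.W811.Fib.Orbit
import Pool.Agent.W811.Fib.Word

/-!
Transfer matrices, the trace map, bounded and unbounded trace orbits.
-/

set_option autoImplicit false

namespace Pool.Agent.W811.Fib

/-- the off-diagonal coefficient -/
def pc (p : ℝ) : Letter → ℝ
  | .a => 1
  | .b => p

/-- the diagonal coefficient -/
def qc (q : ℝ) : Letter → ℝ
  | .a => 0
  | .b => q

/-- the transfer matrix of a letter -/
noncomputable def T (p q E : ℝ) (c : Letter) : Matrix (Fin 2) (Fin 2) ℝ :=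
  !![(E - qc q c) / pc p c, -(pc p c); 1 / pc p c, 0]

/-- the transfer matrix of a word -/
noncomputable def M (p q E : ℝ) : List Letter → Matrix (Fin 2) (Fin 2) ℝ
  | [] => 1
  | c :: w => M p q E w * T p q E c

lemma pc_ne {p : ℝ} (hp : p ≠ 0) (c : Letter) : pc p c ≠ 0 := by
  cases c
  · exact one_ne_zero
  · exact hp

lemma M_append (p q E : ℝ) (v w : List Letter) : M p q E (v ++ w) = M p q E w * M p q E v := by
  induction v with
  | nil => simp [M]
  | cons c v ih => simp only [List.cons_append, M, ih, Matrix.mul_assoc]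

lemma M_single (p q E : ℝ) (c : Letter) : M p q E [c] = T p q E c := by
  simp [M]

lemma det_T {p : ℝ} (hp : p ≠ 0) (q E : ℝ) (c : Letter) : (T p q E c).det = 1 := by
  have := pc_ne hp c
  rw [T, Matrix.det_fin_two_of]
  field_simp
  ring

lemma det_M {p : ℝ} (hp : p ≠ 0) (q E : ℝ) (w : List Letter) : (M p q E w).det = 1 := by
  induction w with
  | nil => simp [M]
  | cons c w ih => rw [M, Matrix.det_mul, ih, det_T hp, one_mul]

/-- half traces -/
noncomputable def X (p q E : ℝ) (k : ℕ) : ℝ := (M p q E (blk k .b)).trace / 2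

lemma X_a (p q E : ℝ) (k : ℕ) : (M p q E (blk k .a)).trace = 2 * X p q E (k + 1) := by
  unfold X
  change _ = 2 * ((M p q E (blk k .a)).trace / 2)
  ring

lemma trace_aba {A B : Matrix (Fin 2) (Fin 2) ℝ} (hA : A.det = 1) :
    (A * (B * A)).trace = A.trace * (B * A).trace - B.trace := by
  rw [Matrix.det_fin_two] at hA
  simp only [Matrix.trace_fin_two, Matrix.mul_apply, Fin.sum_univ_two]
  linear_combination (-(B 0 0) - B 1 1) * hA

lemma X_rec {p : ℝ} (hp : p ≠ 0) (q E : ℝ) (k : ℕ) :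
    X p q E (k + 3) = 2 * X p q E (k + 2) * X p q E (k + 1) - X p q E k := by
  have e1 : M p q E (blk (k + 3) .b) =
      M p q E (blk k .a) * (M p q E (blk k .b) * M p q E (blk k .a)) := by
    change M p q E (blk (k + 1) .a ++ blk (k + 1) .b) = _
    rw [M_append]
    change M p q E (blk k .a) * M p q E (blk k .a ++ blk k .b) = _
    rw [M_append]
  have e2 : M p q E (blk (k + 2) .b) = M p q E (blk k .b) * M p q E (blk k .a) := by
    change M p q E (blk k .a ++ blk k .b) = _
    rw [M_append]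
  unfold X
  rw [e1, e2, trace_aba (det_M hp q E _)]
  change _ = 2 * ((M p q E (blk k .b) * M p q E (blk k .a)).trace / 2) *
    ((M p q E (blk k .a)).trace / 2) - (M p q E (blk k .b)).trace / 2
  ring

lemma X_zero (p q E : ℝ) : X p q E 0 = (E - q) / p / 2 := by
  unfold X
  change (M p q E [Letter.b]).trace / 2 = _
  rw [M_single, T, Matrix.trace_fin_two_of]
  simp [qc, pc]

lemma X_one (p q E : ℝ) : X p q E 1 = E / 2 := by
  unfold X
  change (M p q E [Letter.a]).trace / 2 = _
  rw [M_single, T, Matrix.trace_fin_two_of]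
  simp [qc, pc]

lemma X_two (p q E : ℝ) : X p q E 2 = (E * (E - q) / p - p - 1 / p) / 2 := by
  unfold X
  change (M p q E ([Letter.a] ++ [Letter.b])).trace / 2 = _
  rw [M_append, M_single, M_single]
  simp only [T, Matrix.trace_fin_two, Matrix.mul_apply, Fin.sum_univ_two, qc, pc]
  simp
  ring

lemma X_three {p : ℝ} (hp : p ≠ 0) (q E : ℝ) :
    X p q E 3 = E * X p q E 2 - (E - q) / p / 2 := by
  rw [X_rec hp q E 0, X_one, X_zero]
  ring

/-- the invariant as a function of the energy -/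
noncomputable def V (p q E : ℝ) : ℝ :=
  1 + (q * (p ^ 2 - 1) * E + q ^ 2 + (p ^ 2 - 1) ^ 2) / (4 * p ^ 2)

/-- the state of index `k` -/
noncomputable def st (p q E : ℝ) (k : ℕ) : P3 := ⟨X p q E k, X p q E (k + 1), X p q E (k + 2)⟩

lemma inv_st_zero {p : ℝ} (hp : p ≠ 0) (q E : ℝ) : inv (st p q E 0) = V p q E := by
  simp only [inv, st, X_zero, X_one, X_two, V, zero_add]
  field_simp
  ring

/-! ### abstract trace sequences -/

/-- the trace recursion -/
def TRec (Z : ℕ → ℝ) : Prop := ∀ k, Z (k + 3) = 2 * Z (k + 2) * Z (k + 1) - Z k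

/-- the state of index `k` of a sequence -/
def sq (Z : ℕ → ℝ) (k : ℕ) : P3 := ⟨Z k, Z (k + 1), Z (k + 2)⟩

lemma stepB_sq {Z : ℕ → ℝ} (h : TRec Z) (k : ℕ) : stepB (sq Z k) = sq Z (k + 2) := by
  have h1 := h k
  have h2 := h (k + 1)
  simp only [stepB, sq]
  ext
  · rfl
  · simp only []
    rw [h1]
  · simp only []
    rw [show k + 2 + 2 = k + 1 + 3 by ring, h2, show k + 1 + 2 = k + 3 by ring, h1]
    ring

lemma stepA_sq {Z : ℕ → ℝ} (h : TRec Z) (k : ℕ) : stepA (sq Z k) = sq Z (k + 3) := by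
  have h1 := h k
  have h2 := h (k + 1)
  have h3 := h (k + 2)
  rw [show k + 1 + 3 = k + 4 by ring, show k + 1 + 2 = k + 3 by ring,
    show k + 1 + 1 = k + 2 by ring] at h2
  rw [show k + 2 + 3 = k + 5 by ring, show k + 2 + 2 = k + 4 by ring,
    show k + 2 + 1 = k + 3 by ring] at h3
  simp only [stepA, sq]
  ext
  · simp only []
    rw [h1]
  · simp only []
    rw [show k + 3 + 1 = k + 4 by ring, h2, h1]
    ring
  · simp only []
    rw [show k + 3 + 2 = k + 5 by ring, h3, h2, h1]
    ring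

/-- escape condition -/
def Bad (Z : ℕ → ℝ) (k : ℕ) : Prop :=
  1 < |Z (k + 1)| ∧ 1 < |Z (k + 2)| ∧ |Z k| < |Z (k + 1)| * |Z (k + 2)|

lemma Bad.succ {Z : ℕ → ℝ} (h : TRec Z) {k : ℕ} (hb : Bad Z k) : Bad Z (k + 1) := by
  obtain ⟨h1, h2, h3⟩ := hb
  have h4 : |Z (k + 1)| * |Z (k + 2)| < |Z (k + 3)| := by
    rw [h k]
    have := abs_sub_abs_le_abs_sub (2 * Z (k + 2) * Z (k + 1)) (Z k)
    rw [abs_mul, abs_mul, abs_two] at this
    nlinarith
  have h5 : 1 < |Z (k + 3)| := by nlinarith
  refine ⟨h2, h5, ?_⟩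
  have e : k + 1 + 2 = k + 3 := by ring
  rw [e]
  have e2 : k + 1 + 1 = k + 2 := by ring
  rw [e2]
  nlinarith

lemma Bad.forever {Z : ℕ → ℝ} (h : TRec Z) {k : ℕ} (hb : Bad Z k) {j : ℕ} (hj : k < j) :
    1 < |Z j| := by
  have h1 : ∀ n, Bad Z (k + n) := by
    intro n
    induction n with
    | zero => exact hb
    | succ n ih => exact ih.succ h
  have h2 := (h1 (j - k - 1)).1
  have e : k + (j - k - 1) + 1 = j := by omega
  rw [e] at h2
  exact h2

lemma exists_foll_of_inv {S : P3 → Prop} (h : ∀ s, S s → ∃ c, Adm c s ∧ S (step c s)) {s : P3}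
    (hs : S s) : ∃ c, FollAll c s := by
  classical
  have : Nonempty Sym := ⟨.a⟩
  choose! f hf using h
  let ss : ℕ → P3 := fun n => Nat.rec s (fun _ t => step (f t) t) n
  have hS : ∀ n, S (ss n) := by
    intro n
    induction n with
    | zero => exact hs
    | succ n ih => exact (hf _ ih).2
  refine ⟨fun n => f (ss n), ?_⟩
  have horb : ∀ n, orb (fun n => f (ss n)) n s = ss n := by
    intro n
    induction n with
    | zero => rfl
    | succ n ih => rw [orb, ih]
  intro k
  rw [horb]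
  exact (hf _ (hS k)).1

/-- a trace sequence which never escapes has an infinite itinerary -/
theorem foll_of_not_bad {R : ℝ} (hR : 100 ≤ R) {Z : ℕ → ℝ} (h : TRec Z) (hb : ∀ k, ¬ Bad Z k)
    {k : ℕ} (hr : Reg R (sq Z k)) : ∃ c, FollAll c (sq Z k) := by
  apply exists_foll_of_inv (S := fun s => Reg R s ∧ ∃ k, s = sq Z k) _ ⟨hr, k, rfl⟩
  rintro s ⟨hr, k, rfl⟩
  have key : ∃ c, Adm c (sq Z k) := by
    have hu : |Z k| ≤ 1 := hr.hu
    have hy : |Z (k + 2)| ≤ 1 := hr.hy
    by_cases h3 : |Z (k + 3)| ≤ 1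
    · refine ⟨.a, ?_, ?_⟩
      · change |(stepA (sq Z k)).u| ≤ 1
        rw [stepA_sq h]; exact h3
      · rw [stepA_sq h]
        change |Z (k + 3 + 2)| ≤ 1
        by_contra hc
        push Not at hc
        apply hb (k + 3)
        have hx := hr.x_ge (by linarith)
        have hx' : R ≤ |Z (k + 1)| := hx
        have h4 : 1 < |Z (k + 4)| := by
          have e := h (k + 1)
          rw [show k + 1 + 3 = k + 4 by ring, show k + 1 + 2 = k + 3 by ring,
            show k + 1 + 1 = k + 2 by ring] at e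
          rw [e]
          have := abs_sub_abs_le_abs_sub (Z (k + 1)) (2 * Z (k + 3) * Z (k + 2))
          rw [abs_sub_comm, abs_mul, abs_mul, abs_two] at this
          have h5 : |Z (k + 3)| * |Z (k + 2)| ≤ 1 * 1 :=
            mul_le_mul h3 hy (abs_nonneg _) zero_le_one
          linarith
        refine ⟨h4, hc, ?_⟩
        have e2 : k + 3 + 1 = k + 4 := by ring
        rw [e2]
        nlinarith
    · push Not at h3
      have h4 : |Z (k + 4)| ≤ 1 := by
        by_contra hc
        push Not at hc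
        apply hb (k + 2)
        have e2 : k + 2 + 1 = k + 3 := by ring
        have e3 : k + 2 + 2 = k + 4 := by ring
        rw [Bad, e2, e3]
        refine ⟨h3, hc, ?_⟩
        nlinarith
      have h5 : |(stepB (sq Z k)).y| ≤ 1 := by
        rw [stepB_sq h]; exact h4
      have h6 : Z (k + 2) ≠ 0 := by
        intro h0
        have e := h k
        rw [h0] at e
        rw [e] at h3
        have : (2 : ℝ) * 0 * Z (k + 1) - Z k = -(Z k) := by ring
        rw [this, abs_neg] at h3
        linarith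
      rcases lt_or_gt_of_ne h6 with h7 | h7
      · exact ⟨.m, h7, h5⟩
      · exact ⟨.p, h7, h5⟩
  obtain ⟨c, hc⟩ := key
  refine ⟨c, hc, hr.step hc, ?_⟩
  cases c
  · exact ⟨k + 3, stepA_sq h k⟩
  · exact ⟨k + 2, stepB_sq h k⟩
  · exact ⟨k + 2, stepB_sq h k⟩

/-- an infinite itinerary gives infinitely many small half traces -/
theorem small_of_foll {R : ℝ} {Z : ℕ → ℝ} (h : TRec Z)
    {j : ℕ} (hr : Reg R (sq Z j)) {c : ℕ → Sym} (hc : FollAll c (sq Z j)) (K : ℕ) :
    ∃ k, K ≤ k ∧ |Z k| ≤ 1 := by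
  have h1 : ∀ n, ∃ m, n ≤ m ∧ orb c n (sq Z j) = sq Z (j + m) := by
    intro n
    induction n with
    | zero => exact ⟨0, le_refl _, rfl⟩
    | succ n ih =>
      obtain ⟨m, hm, e⟩ := ih
      rw [orb, e]
      cases c n
      · exact ⟨m + 3, by omega, stepA_sq h _⟩
      · exact ⟨m + 2, by omega, stepB_sq h _⟩
      · exact ⟨m + 2, by omega, stepB_sq h _⟩
  obtain ⟨m, hm, e⟩ := h1 K
  refine ⟨j + m, by omega, ?_⟩
  have h2 := (hr.orb (hc.foll K)).hu
  rw [e] at h2
  exact h2

lemma X_trec {p : ℝ} (hp : p ≠ 0) (q E : ℝ) : TRec (X p q E) := fun k => X_rec hp q E k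

lemma X_cont {p : ℝ} (hp : p ≠ 0) (q : ℝ) (k : ℕ) : Continuous (fun E => X p q E k) := by
  have h : ∀ n, Continuous (fun E => X p q E n) ∧ Continuous (fun E => X p q E (n + 1)) ∧
      Continuous (fun E => X p q E (n + 2)) := by
    intro n
    induction n with
    | zero =>
      simp only [X_zero, X_one, X_two, zero_add]
      refine ⟨by fun_prop, by fun_prop, by fun_prop⟩
    | succ n ih =>
      obtain ⟨h1, h2, h3⟩ := ih
      refine ⟨h2, h3, ?_⟩
      have e : (fun E => X p q E (n + 1 + 2)) =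
          fun E => 2 * X p q E (n + 2) * X p q E (n + 1) - X p q E n := by
        funext E
        exact X_rec hp q E n
      rw [e]
      fun_prop
  exact (h k).1

/-- escape is an open condition on the energy -/
theorem bad_nhds {p : ℝ} (hp : p ≠ 0) (q : ℝ) {E : ℝ} {k : ℕ} (hb : Bad (X p q E) k) :
    ∃ ε > 0, ∀ E', |E' - E| ≤ ε → ∀ j, k < j → 1 < |X p q E' j| := by
  have c0 := X_cont hp q k
  have c1 := X_cont hp q (k + 1)
  have c2 := X_cont hp q (k + 2)
  have ho : IsOpen {E' | Bad (X p q E') k} := by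
    have h1 : IsOpen {E' : ℝ | 1 < |X p q E' (k + 1)|} := isOpen_lt continuous_const c1.abs
    have h2 : IsOpen {E' : ℝ | 1 < |X p q E' (k + 2)|} := isOpen_lt continuous_const c2.abs
    have h3 : IsOpen {E' : ℝ | |X p q E' k| < |X p q E' (k + 1)| * |X p q E' (k + 2)|} :=
      isOpen_lt c0.abs (c1.abs.mul c2.abs)
    exact h1.inter (h2.inter h3)
  obtain ⟨ε, hε, hball⟩ := Metric.isOpen_iff.1 ho E hb
  refine ⟨ε / 2, by linarith, ?_⟩
  intro E' hE' j hj
  have : E' ∈ Metric.ball E ε := by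
    rw [Metric.mem_ball, Real.dist_eq]; linarith
  exact (show Bad (X p q E') k from hball this).forever (X_trec hp q E') hj

end Pool.Agent.W811.Fib
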